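import Mathlib

/-! Fourier analysis on the integers modulo `M`. -/

set_option autoImplicit false

namespace Pool.Agent.K6.H82.GU

open Finset

variable {M : ℕ} [NeZero M]

/-- the standard character -/
noncomputable def ch (x : ZMod M) : ℂ := ZMod.stdAddChar x

theorem ch_add (x y : ZMod M) : ch (x + y) = ch x * ch y := AddChar.map_add_eq_mul _ x y

theorem ch_zero : ch (0 : ZMod M) = 1 := AddChar.map_zero_eq_one _

theorem ch_norm (x : ZMod M) : ‖ch x‖ = 1 := by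
  unfold ch
  rw [ZMod.stdAddChar_apply]
  exact Circle.norm_coe _

theorem ch_neg (x : ZMod M) : ch (-x) = (starRingEnd ℂ) (ch x) := by
  have h1 : ch (-x) * ch x = 1 := by rw [← ch_add, neg_add_cancel, ch_zero]
  have h2 : (starRingEnd ℂ) (ch x) * ch x = 1 := by
    rw [mul_comm, Complex.mul_conj, Complex.normSq_eq_norm_sq, ch_norm]; norm_num
  have h3 : ch x ≠ 0 := by
    intro h
    have := ch_norm x
    rw [h, norm_zero] at this
    norm_num at this
  exact mul_right_cancel₀ h3 (h1.trans h2.symm)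

theorem ch_intCast (j : ℤ) : ch (j : ZMod M) = Complex.exp ((2 * Real.pi * (j / M) : ℝ) * Complex.I) := by
  unfold ch
  rw [ZMod.stdAddChar_coe]
  congr 1
  push_cast
  ring

theorem ch_sum (ξ : ZMod M) : ∑ x : ZMod M, ch (ξ * x) = if ξ = 0 then (M : ℂ) else 0 := by
  have h := AddChar.sum_mulShift ξ (ZMod.isPrimitive_stdAddChar M)
  unfold ch
  simp only [mul_comm ξ]
  rw [h, ZMod.card]
  split_ifs <;> simp

theorem ch_finsum {ρ : Type*} (s : Finset ρ) (f : ρ → ZMod M) : ch (∑ j ∈ s, f j) = ∏ j ∈ s, ch (f j) := by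
  classical
  induction s using Finset.induction_on with
  | empty => rw [sum_empty, prod_empty, ch_zero]
  | insert a s ha ih => rw [sum_insert ha, prod_insert ha, ch_add, ih]

/-- orthogonality in several variables -/
theorem ch_sum_pi {ρ : Type*} [Fintype ρ] [DecidableEq ρ] (a : ρ → ZMod M) :
    ∑ x : ρ → ZMod M, ch (∑ j, a j * x j) = if a = 0 then (M : ℂ) ^ Fintype.card ρ else 0 := by
  have h1 : ∑ x : ρ → ZMod M, ch (∑ j, a j * x j) = ∏ j, ∑ y : ZMod M, ch (a j * y) := by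
    rw [Finset.prod_univ_sum, Fintype.piFinset_univ]
    apply sum_congr rfl
    intro x _
    rw [ch_finsum]
  rw [h1]
  simp only [ch_sum]
  split_ifs with h
  · subst h
    simp [Finset.card_univ]
  · obtain ⟨j, hj⟩ : ∃ j, a j ≠ 0 := by
      by_contra hcon
      push Not at hcon
      exact h (funext hcon)
    apply Finset.prod_eq_zero (mem_univ j)
    rw [if_neg hj]

/-- synthesis -/
noncomputable def syn (a : ZMod M → ℂ) (x : ZMod M) : ℂ := ∑ ξ, a ξ * ch (ξ * x)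

/-- analysis -/
noncomputable def an (f : ZMod M → ℂ) (ξ : ZMod M) : ℂ := (M : ℂ)⁻¹ * ∑ x, f x * ch (-(ξ * x))

theorem M_ne : (M : ℂ) ≠ 0 := by exact_mod_cast NeZero.ne M

theorem syn_an (f : ZMod M → ℂ) (x : ZMod M) : syn (an f) x = f x := by
  unfold syn an
  have h1 : ∀ ξ : ZMod M, (M : ℂ)⁻¹ * (∑ y, f y * ch (-(ξ * y))) * ch (ξ * x)
      = (M : ℂ)⁻¹ * ∑ y, f y * ch ((x - y) * ξ) := by
    intro ξ
    rw [mul_assoc, sum_mul]
    congr 1
    apply sum_congr rfl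
    intro y _
    rw [mul_assoc, ← ch_add]
    congr 2
    ring
  rw [sum_congr rfl (fun ξ _ => h1 ξ), ← mul_sum, sum_comm]
  have h2 : ∀ y : ZMod M, ∑ ξ : ZMod M, f y * ch ((x - y) * ξ) = f y * (if x - y = 0 then (M : ℂ) else 0) := by
    intro y
    rw [← mul_sum, ch_sum]
  rw [sum_congr rfl (fun y _ => h2 y), sum_eq_single x]
  · rw [sub_self, if_pos rfl, mul_comm (f x), ← mul_assoc, inv_mul_cancel₀ M_ne, one_mul]
  · intro y _ hy
    rw [if_neg (fun h => hy (sub_eq_zero.1 h).symm), mul_zero]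
  · intro h; exact absurd (mem_univ x) h

theorem an_syn (a : ZMod M → ℂ) (ξ : ZMod M) : an (syn a) ξ = a ξ := by
  unfold syn an
  have h1 : ∀ x : ZMod M, (∑ ζ, a ζ * ch (ζ * x)) * ch (-(ξ * x)) = ∑ ζ, a ζ * ch ((ζ - ξ) * x) := by
    intro x
    rw [sum_mul]
    apply sum_congr rfl
    intro ζ _
    rw [mul_assoc, ← ch_add]
    congr 2
    ring
  rw [sum_congr rfl (fun x _ => h1 x), sum_comm]
  have h2 : ∀ ζ : ZMod M, ∑ x : ZMod M, a ζ * ch ((ζ - ξ) * x) = a ζ * (if ζ - ξ = 0 then (M : ℂ) else 0) := by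
    intro y
    rw [← mul_sum, ch_sum]
  rw [sum_congr rfl (fun ζ _ => h2 ζ), sum_eq_single ξ]
  · rw [sub_self, if_pos rfl, mul_comm (a ξ), ← mul_assoc, inv_mul_cancel₀ M_ne, one_mul]
  · intro y _ hy
    rw [if_neg (fun h => hy (sub_eq_zero.1 h)), mul_zero]
  · intro h; exact absurd (mem_univ ξ) h

theorem syn_sub (a b : ZMod M → ℂ) (x : ZMod M) : syn (fun ξ => a ξ - b ξ) x = syn a x - syn b x := by
  unfold syn
  rw [← sum_sub_distrib]
  apply sum_congr rfl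
  intro ξ _
  ring

theorem an_sub (f g : ZMod M → ℂ) (ξ : ZMod M) : an (fun x => f x - g x) ξ = an f ξ - an g ξ := by
  unfold an
  rw [← mul_sub, ← sum_sub_distrib]
  congr 1
  apply sum_congr rfl
  intro x _
  ring

/-- Parseval -/
theorem parseval (a : ZMod M → ℂ) : ∑ x : ZMod M, ‖syn a x‖ ^ 2 = M * ∑ ξ, ‖a ξ‖ ^ 2 := by
  have h0 : ∀ z : ℂ, ((‖z‖ ^ 2 : ℝ) : ℂ) = z * (starRingEnd ℂ) z := by
    intro z
    rw [Complex.mul_conj, Complex.normSq_eq_norm_sq]
  have h : ((∑ x : ZMod M, ‖syn a x‖ ^ 2 : ℝ) : ℂ) = ((M * ∑ ξ, ‖a ξ‖ ^ 2 : ℝ) : ℂ) := by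
    push_cast
    have e1 : ∀ x : ZMod M, ((‖syn a x‖ : ℂ)) ^ 2 = ∑ ξ, ∑ ζ, a ξ * (starRingEnd ℂ) (a ζ) * ch ((ξ - ζ) * x) := by
      intro x
      have := h0 (syn a x)
      push_cast at this
      rw [this]
      unfold syn
      rw [map_sum, sum_mul_sum]
      apply sum_congr rfl
      intro ξ _
      apply sum_congr rfl
      intro ζ _
      rw [map_mul, ← ch_neg]
      have : ch ((ξ - ζ) * x) = ch (ξ * x) * ch (-(ζ * x)) := by
        rw [← ch_add]; congr 1; ring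
      rw [this]
      ring
    rw [sum_congr rfl (fun x _ => e1 x), sum_comm, mul_sum]
    apply sum_congr rfl
    intro ξ _
    rw [sum_comm]
    have e2 : ∀ ζ : ZMod M, ∑ x : ZMod M, a ξ * (starRingEnd ℂ) (a ζ) * ch ((ξ - ζ) * x)
        = a ξ * (starRingEnd ℂ) (a ζ) * (if ξ - ζ = 0 then (M : ℂ) else 0) := by
      intro ζ
      rw [← mul_sum, ch_sum]
    rw [sum_congr rfl (fun ζ _ => e2 ζ), sum_eq_single ξ]
    · rw [sub_self, if_pos rfl]
      have := h0 (a ξ)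
      push_cast at this
      rw [this]
      ring
    · intro y _ hy
      rw [if_neg (fun h => hy (sub_eq_zero.1 h).symm), mul_zero]
    · intro h; exact absurd (mem_univ ξ) h
  exact_mod_cast h

theorem parseval' (f : ZMod M → ℂ) : ∑ x : ZMod M, ‖f x‖ ^ 2 = M * ∑ ξ, ‖an f ξ‖ ^ 2 := by
  rw [← parseval]
  simp only [syn_an]

theorem energy_le {f : ZMod M → ℂ} (hf : ∀ x, ‖f x‖ ≤ 1) : ∑ ξ, ‖an f ξ‖ ^ 2 ≤ 1 := by
  have h1 := parseval' f
  have h2 : ∑ x : ZMod M, ‖f x‖ ^ 2 ≤ ∑ x : ZMod M, (1 : ℝ) := by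
    apply sum_le_sum
    intro x _
    exact pow_le_one₀ (norm_nonneg _) (hf x)
  rw [sum_const, card_univ, ZMod.card, nsmul_eq_mul, mul_one, h1] at h2
  have hM : (0 : ℝ) < M := by exact_mod_cast NeZero.pos M
  nlinarith

/-- the size of a frequency -/
def fr (ξ : ZMod M) : ℕ := ξ.valMinAbs.natAbs

theorem fr_cast (ξ : ZMod M) : ((ξ.valMinAbs : ℤ) : ZMod M) = ξ := ZMod.coe_valMinAbs ξ

theorem fr_le (ξ : ZMod M) : 2 * fr ξ ≤ M := by
  have := ZMod.natAbs_valMinAbs_le ξ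
  unfold fr
  omega

theorem valMinAbs_of {n : ℤ} (h : 2 * n.natAbs < M) : (n : ZMod M).valMinAbs = n := by
  rw [ZMod.valMinAbs_spec]
  refine ⟨rfl, ?_, ?_⟩ <;> omega

theorem fr_of {n : ℤ} (h : 2 * n.natAbs < M) : fr (n : ZMod M) = n.natAbs := by
  unfold fr
  rw [valMinAbs_of h]

theorem fr_le_natAbs (n : ℤ) : fr (n : ZMod M) ≤ n.natAbs := by
  rcases Nat.lt_or_ge (2 * n.natAbs) M with h | h
  · rw [fr_of h]
  · have := fr_le (n : ZMod M); omega

end Pool.Agent.K6.H82.GU
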