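import Pool.Agent.K6.H82.GU.GU9

/-! The energy of the bands of frequencies. -/

set_option autoImplicit false

namespace Pool.Agent.K6.H82.GU

open Finset Pool.Agent.W41.FU

variable {M : ℕ} [NeZero M]

/-- the multiplier of the difference of adjacent local averages -/
noncomputable def WH (H : ℕ) (ξ : ZMod M) : ℂ := (∑ j ∈ range H, ch (ξ * (j : ZMod M))) * (1 - ch (ξ * (H : ZMod M))) / H

theorem DD_syn (F : ZMod M → ℝ) (H : ℕ) (x : ZMod M) :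
    ((DD F H x : ℝ) : ℂ) = syn (fun ξ => an (fun x => (F x : ℂ)) ξ * WH H ξ) x := by
  have h1 : ∀ y : ZMod M, (F y : ℂ) = ∑ ξ, an (fun x => (F x : ℂ)) ξ * ch (ξ * y) := by
    intro y
    exact (syn_an (fun x => (F x : ℂ)) y).symm
  unfold DD syn WH
  push_cast
  have e1 : ∀ j : ℕ, (F (x + (j : ZMod M)) : ℂ) - (F (x + (j : ZMod M) + (H : ZMod M)) : ℂ)
      = ∑ ξ, an (fun x => (F x : ℂ)) ξ * (ch (ξ * (j : ZMod M)) * (1 - ch (ξ * (H : ZMod M)))) * ch (ξ * x) := by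
    intro j
    rw [h1, h1, ← sum_sub_distrib]
    apply sum_congr rfl
    intro ξ _
    rw [show ξ * (x + (j : ZMod M)) = ξ * x + ξ * (j : ZMod M) by ring,
      show ξ * (x + (j : ZMod M) + (H : ZMod M)) = ξ * x + ξ * (j : ZMod M) + ξ * (H : ZMod M) by ring, ch_add, ch_add,
      ch_add]
    ring
  rw [sum_congr rfl (fun j _ => e1 j), sum_comm, sum_div]
  apply sum_congr rfl
  intro ξ _
  rw [← sum_mul, ← mul_sum, ← sum_mul]
  ring

theorem DD_energy (F : ZMod M → ℝ) (H : ℕ) :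
    ∑ ξ, ‖an (fun x => (F x : ℂ)) ξ * WH H ξ‖ ^ 2 = (M : ℝ)⁻¹ * ∑ x, DD F H x ^ 2 := by
  have h1 := parseval (fun ξ => an (fun x => (F x : ℂ)) ξ * WH H ξ)
  have h2 : ∀ x : ZMod M, ‖syn (fun ξ => an (fun x => (F x : ℂ)) ξ * WH H ξ) x‖ ^ 2 = DD F H x ^ 2 := by
    intro x
    rw [← DD_syn, Complex.norm_real, Real.norm_eq_abs, sq_abs]
  simp only [h2] at h1
  rw [h1, ← mul_assoc, inv_mul_cancel₀ (by exact_mod_cast NeZero.ne M), one_mul]

theorem ch_mul_nat (ξ : ZMod M) (j : ℕ) :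
    ch (ξ * (j : ZMod M)) = Complex.exp ((2 * Real.pi * ((ξ.valMinAbs : ℝ) * j / M) : ℝ) * Complex.I) := by
  have h1 : ξ * (j : ZMod M) = ((ξ.valMinAbs * j : ℤ) : ZMod M) := by
    push_cast
    rfl
  rw [h1, ch_intCast]
  congr 2
  push_cast
  ring

theorem ch_re (ξ : ZMod M) (j : ℕ) : (ch (ξ * (j : ZMod M))).re = Real.cos (2 * Real.pi * ((fr ξ : ℝ) * j / M)) := by
  rw [ch_mul_nat, Complex.exp_ofReal_mul_I_re, ← Real.cos_abs]
  congr 1
  rw [abs_mul, abs_of_pos (by positivity : 0 < 2 * Real.pi), abs_div, abs_mul, abs_of_nonneg (Nat.cast_nonneg j : (0 : ℝ) ≤ j),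
    abs_of_nonneg (Nat.cast_nonneg M : (0 : ℝ) ≤ M)]
  have : |(ξ.valMinAbs : ℝ)| = (fr ξ : ℝ) := by
    unfold fr
    rw [← Int.cast_abs, Int.abs_eq_natAbs, Int.cast_natCast]
  rw [this]

theorem ch_im (ξ : ZMod M) (j : ℕ) : |(ch (ξ * (j : ZMod M))).im| = |Real.sin (2 * Real.pi * ((fr ξ : ℝ) * j / M))| := by
  rw [ch_mul_nat, Complex.exp_ofReal_mul_I_im]
  rcases abs_cases (ξ.valMinAbs : ℝ) with ⟨h, _⟩ | ⟨h, _⟩
  · have : (fr ξ : ℝ) = (ξ.valMinAbs : ℝ) := by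
      rw [← h]
      unfold fr
      rw [← Int.cast_abs, Int.abs_eq_natAbs, Int.cast_natCast]
    rw [this]
  · have : (fr ξ : ℝ) = -(ξ.valMinAbs : ℝ) := by
      rw [← h]
      unfold fr
      rw [← Int.cast_abs, Int.abs_eq_natAbs, Int.cast_natCast]
    rw [this]
    have e : 2 * Real.pi * (-(ξ.valMinAbs : ℝ) * j / M) = -(2 * Real.pi * ((ξ.valMinAbs : ℝ) * j / M)) := by ring
    rw [e, Real.sin_neg, abs_neg]

theorem WH_lower {H : ℕ} (hH : 1 ≤ H) {ξ : ZMod M} (h1 : 6 * (fr ξ * H) ≤ M) (h2 : M ≤ 24 * (fr ξ * H)) :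
    1 / 12 ≤ ‖WH H ξ‖ := by
  have hM : (0 : ℝ) < M := by exact_mod_cast NeZero.pos M
  have hH0 : (0 : ℝ) < H := by exact_mod_cast hH
  have h1' : 6 * ((fr ξ : ℝ) * H) ≤ M := by exact_mod_cast h1
  have h2' : (M : ℝ) ≤ 24 * ((fr ξ : ℝ) * H) := by exact_mod_cast h2
  have hpi := Real.pi_pos
  unfold WH
  rw [norm_div, norm_mul, Complex.norm_natCast, le_div_iff₀ hH0]
  have a1 : (H : ℝ) / 2 ≤ ‖∑ j ∈ range H, ch (ξ * (j : ZMod M))‖ := by
    have b1 : (H : ℝ) / 2 ≤ (∑ j ∈ range H, ch (ξ * (j : ZMod M))).re := by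
      rw [Complex.re_sum]
      calc (H : ℝ) / 2 = ∑ j ∈ range H, (1 / 2 : ℝ) := by simp; ring
        _ ≤ _ := by
          apply sum_le_sum
          intro j hj
          rw [mem_range] at hj
          rw [ch_re, ← Real.cos_pi_div_three]
          apply Real.cos_le_cos_of_nonneg_of_le_pi (by positivity) (by linarith)
          have b2 : (fr ξ : ℝ) * j ≤ (fr ξ : ℝ) * H := by
            apply mul_le_mul_of_nonneg_left _ (Nat.cast_nonneg _)
            exact_mod_cast hj.le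
          have b3 : (fr ξ : ℝ) * j / M ≤ 1 / 6 := by
            rw [div_le_iff₀ hM]; linarith
          have := mul_le_mul_of_nonneg_left b3 (by positivity : 0 ≤ 2 * Real.pi)
          linarith
    exact b1.trans ((le_abs_self _).trans (Complex.abs_re_le_norm _))
  have a2 : 1 / 6 ≤ ‖1 - ch (ξ * (H : ZMod M))‖ := by
    have b1 := Complex.abs_im_le_norm (1 - ch (ξ * (H : ZMod M)))
    rw [Complex.sub_im, Complex.one_im, zero_sub, abs_neg, ch_im] at b1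
    refine le_trans ?_ b1
    refine le_trans ?_ (le_abs_self _)
    have b3 : (fr ξ : ℝ) * H / M ≤ 1 / 6 := by
      rw [div_le_iff₀ hM]; linarith
    have b4 : 1 / 24 ≤ (fr ξ : ℝ) * H / M := by
      rw [le_div_iff₀ hM]; linarith
    have b5 := mul_le_mul_of_nonneg_left b3 (by positivity : 0 ≤ 2 * Real.pi)
    have b6 := Real.mul_le_sin (x := 2 * Real.pi * ((fr ξ : ℝ) * H / M)) (by positivity) (by linarith)
    refine le_trans ?_ b6
    have e : 2 / Real.pi * (2 * Real.pi * ((fr ξ : ℝ) * H / M)) = 4 * ((fr ξ : ℝ) * H / M) := by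
      field_simp
      ring
    rw [e]
    linarith
  calc 1 / 12 * (H : ℝ) = H / 2 * (1 / 6) := by ring
    _ ≤ _ := mul_le_mul a1 a2 (by norm_num) (norm_nonneg _)

theorem WH_top {ξ : ZMod M} (h : M ≤ 12 * fr ξ) : 1 / 12 ≤ ‖WH 1 ξ‖ := by
  have hM : (0 : ℝ) < M := by exact_mod_cast NeZero.pos M
  have h1 : (M : ℝ) ≤ 12 * (fr ξ : ℝ) := by exact_mod_cast h
  have h2 : 2 * (fr ξ : ℝ) ≤ M := by exact_mod_cast fr_le ξ
  have hpi := Real.pi_pos
  have e : WH 1 ξ = 1 - ch (ξ * ((1 : ℕ) : ZMod M)) := by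
    unfold WH
    simp [ch_zero]
  rw [e]
  refine le_trans ?_ ((le_abs_self _).trans (Complex.abs_re_le_norm _))
  rw [Complex.sub_re, Complex.one_re, ch_re]
  have b1 : 1 / 12 ≤ (fr ξ : ℝ) * (1 : ℕ) / M := by
    rw [le_div_iff₀ hM]; push_cast; linarith
  have b2 : (fr ξ : ℝ) * (1 : ℕ) / M ≤ 1 / 2 := by
    rw [div_le_iff₀ hM]; push_cast; linarith
  have b3 := mul_le_mul_of_nonneg_left b1 (by positivity : 0 ≤ 2 * Real.pi)
  have b4 := mul_le_mul_of_nonneg_left b2 (by positivity : 0 ≤ 2 * Real.pi)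
  have b5 : Real.cos (2 * Real.pi * ((fr ξ : ℝ) * (1 : ℕ) / M)) ≤ Real.cos (Real.pi / 6) := by
    apply Real.cos_le_cos_of_nonneg_of_le_pi (by positivity) (by linarith) (by linarith)
  rw [Real.cos_pi_div_six] at b5
  have b6 : Real.sqrt 3 ≤ 7 / 4 := by
    rw [Real.sqrt_le_left (by norm_num)]; norm_num
  linarith

theorem set_energy (F : ZMod M → ℝ) (H : ℕ) (P : Finset (ZMod M)) (hP : ∀ ξ ∈ P, 1 / 12 ≤ ‖WH H ξ‖) :
    ∑ ξ ∈ P, ‖an (fun x => (F x : ℂ)) ξ‖ ^ 2 ≤ 144 * ((M : ℝ)⁻¹ * ∑ x, DD F H x ^ 2) := by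
  rw [← DD_energy, mul_sum]
  calc ∑ ξ ∈ P, ‖an (fun x => (F x : ℂ)) ξ‖ ^ 2 ≤ ∑ ξ ∈ P, 144 * ‖an (fun x => (F x : ℂ)) ξ * WH H ξ‖ ^ 2 := by
        apply sum_le_sum
        intro ξ hξ
        rw [norm_mul, mul_pow]
        have h1 := hP ξ hξ
        have h2 : (1 / 12 : ℝ) ^ 2 ≤ ‖WH H ξ‖ ^ 2 := pow_le_pow_left₀ (by norm_num) h1 2
        have h3 : 0 ≤ ‖an (fun x => (F x : ℂ)) ξ‖ ^ 2 := by positivity
        nlinarith
    _ ≤ _ := sum_le_sum_of_subset_of_nonneg (subset_univ _) (fun _ _ _ => by positivity)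

/-- THE ENERGY OF EVERY DYADIC BAND IS SMALL. -/
theorem band {d : ℤ} (hd : Odd d) (hd3 : IsCoprime d 3) (hdd : d * d = 1) {ε : ℝ} (hε : 0 < ε) {L : ℝ} (hL : 1 ≤ L) :
    ∃ K : ℝ, 1 ≤ K ∧ ∃ N0 : ℕ, 1 ≤ N0 ∧ ∀ N : ℕ, N0 ≤ N → ∀ (M : ℕ) [NeZero M], N < M → (M : ℝ) ≤ L * N →
      ∀ φ ∈ SameT d, ∀ a b : ℕ, a ≤ b → b ≤ N → ∀ q : ℕ, K ≤ 2 ^ q →
      ∑ ξ ∈ univ.filter (fun ξ : ZMod M => 2 ^ q ≤ fr ξ ∧ fr ξ < 2 ^ (q + 1)),
        ‖an (fun x => ((emb M φ a b x : ℝ) : ℂ)) ξ‖ ^ 2 ≤ ε := by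
  obtain ⟨K, hK, N0, hN0, h⟩ := DD_small hd hd3 hdd (show 0 < min (ε / 144) 1 by positivity) (min_le_right _ _)
  obtain ⟨N1, hN1⟩ := exists_nat_ge K
  refine ⟨K * L, one_le_mul_of_one_le_of_one_le hK hL, N0 + N1, by omega, ?_⟩
  intro N hN M _ hNM hML φ hφ a b hab hb q hq
  have hM : (0 : ℝ) < M := by exact_mod_cast NeZero.pos M
  have hN' : (N : ℝ) ≤ M := by exact_mod_cast hNM.le
  have hfin : ∀ H : ℕ, 1 ≤ H → K * H ≤ N → 144 * ((M : ℝ)⁻¹ * ∑ x : ZMod M, DD (emb M φ a b) H x ^ 2) ≤ ε := by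
    intro H hH hKH
    have h1 := h N (by omega) M hNM H hH hKH φ hφ a b hab hb
    have h2 : (M : ℝ)⁻¹ * ∑ x : ZMod M, DD (emb M φ a b) H x ^ 2 ≤ ε / 144 := by
      rw [inv_mul_le_iff₀ hM]
      refine h1.trans ?_
      have : min (ε / 144) 1 ≤ ε / 144 := min_le_left _ _
      have h3 : min (ε / 144) 1 * N ≤ ε / 144 * N := mul_le_mul_of_nonneg_right this (Nat.cast_nonneg _)
      have h4 : ε / 144 * (N : ℝ) ≤ ε / 144 * M := mul_le_mul_of_nonneg_left hN' (by positivity)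
      linarith
    linarith
  rcases Nat.lt_or_ge M (12 * 2 ^ q) with hc | hc
  · refine (set_energy _ 1 _ (fun ξ hξ => ?_)).trans (hfin 1 le_rfl ?_)
    · rw [mem_filter] at hξ
      exact WH_top (by omega)
    · push_cast
      have : (N1 : ℝ) ≤ N := by exact_mod_cast (by omega : N1 ≤ N)
      linarith
  · set H := M / (12 * 2 ^ q) with hH
    have hpos : 0 < 12 * 2 ^ q := by positivity
    have hH1 : 1 ≤ H := (Nat.le_div_iff_mul_le hpos).2 (by omega)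
    have hH2 : 12 * 2 ^ q * H ≤ M := Nat.mul_div_le M _
    have hH3 : M < 12 * 2 ^ q * (H + 1) := Nat.lt_mul_div_succ M hpos
    refine (set_energy _ H _ (fun ξ hξ => ?_)).trans (hfin H hH1 ?_)
    · rw [mem_filter] at hξ
      obtain ⟨-, h1, h2⟩ := hξ
      rw [pow_succ] at h2
      apply WH_lower hH1
      · have h3 : fr ξ * H ≤ 2 ^ q * 2 * H := Nat.mul_le_mul_right H h2.le
        calc 6 * (fr ξ * H) ≤ 6 * (2 ^ q * 2 * H) := Nat.mul_le_mul_left 6 h3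
          _ = 12 * 2 ^ q * H := by ring
          _ ≤ M := hH2
      · have h3 : 2 ^ q * H ≤ fr ξ * H := Nat.mul_le_mul_right H h1
        have h4 : 12 * 2 ^ q * (H + 1) ≤ 24 * (2 ^ q * H) := by
          have : 12 * 2 ^ q * (H + 1) = 12 * (2 ^ q * H) + 12 * 2 ^ q := by ring
          have h5 : 2 ^ q ≤ 2 ^ q * H := Nat.le_mul_of_pos_right _ hH1
          omega
        omega
    · have h1 : (12 : ℝ) * 2 ^ q * H ≤ M := by exact_mod_cast hH2
      have h2 : K * L * H ≤ 2 ^ q * H := mul_le_mul_of_nonneg_right hq (Nat.cast_nonneg _)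
      have h3 : (0 : ℝ) ≤ 2 ^ q * H := by positivity
      have h4 : L * (K * H) ≤ L * N := by
        calc L * (K * H) = K * L * H := by ring
          _ ≤ 2 ^ q * H := h2
          _ ≤ M := by linarith
          _ ≤ L * N := hML
      exact le_of_mul_le_mul_left h4 (by linarith)

/-- several consecutive dyadic bands -/
theorem cover (f : ZMod M → ℂ) {K ε : ℝ} (h : ∀ q : ℕ, K ≤ 2 ^ q →
    ∑ ξ ∈ univ.filter (fun ξ : ZMod M => 2 ^ q ≤ fr ξ ∧ fr ξ < 2 ^ (q + 1)), ‖an f ξ‖ ^ 2 ≤ ε)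
    {q : ℕ} (hq : K ≤ 2 ^ q) (m : ℕ) :
    ∑ ξ ∈ univ.filter (fun ξ : ZMod M => 2 ^ q ≤ fr ξ ∧ fr ξ < 2 ^ (q + m)), ‖an f ξ‖ ^ 2 ≤ m * ε := by
  induction m with
  | zero =>
    rw [sum_eq_zero]
    · simp
    · intro ξ hξ
      rw [mem_filter, add_zero] at hξ
      omega
  | succ m ih =>
    have e1 : univ.filter (fun ξ : ZMod M => 2 ^ q ≤ fr ξ ∧ fr ξ < 2 ^ (q + (m + 1)))
        ⊆ univ.filter (fun ξ : ZMod M => 2 ^ q ≤ fr ξ ∧ fr ξ < 2 ^ (q + m))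
          ∪ univ.filter (fun ξ : ZMod M => 2 ^ (q + m) ≤ fr ξ ∧ fr ξ < 2 ^ (q + m + 1)) := by
      intro ξ hξ
      rw [mem_filter] at hξ
      rw [mem_union, mem_filter, mem_filter]
      have e : q + (m + 1) = q + m + 1 := by ring
      rw [e] at hξ
      rcases Nat.lt_or_ge (fr ξ) (2 ^ (q + m)) with hc | hc
      · exact Or.inl ⟨hξ.1, hξ.2.1, hc⟩
      · exact Or.inr ⟨hξ.1, hc, hξ.2.2⟩
    have h1 := h (q + m) (hq.trans (pow_le_pow_right₀ (by norm_num) (by omega)))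
    have hdisj : Disjoint (univ.filter (fun ξ : ZMod M => 2 ^ q ≤ fr ξ ∧ fr ξ < 2 ^ (q + m)))
        (univ.filter (fun ξ : ZMod M => 2 ^ (q + m) ≤ fr ξ ∧ fr ξ < 2 ^ (q + m + 1))) := by
      rw [Finset.disjoint_left]
      intro ξ h2 h3
      rw [mem_filter] at h2 h3
      exact absurd h2.2.2 (not_lt.2 h3.2.1)
    have h4 := sum_le_sum_of_subset_of_nonneg (f := fun ξ => ‖an f ξ‖ ^ 2) e1 (fun _ _ _ => by positivity)
    rw [sum_union hdisj] at h4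
    push_cast
    linarith

end Pool.Agent.K6.H82.GU
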