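import Pool.Agent.K6.H82.GU.GU10

/-! Boxes. -/

set_option autoImplicit false

namespace Pool.Agent.K6.H82.GU

open Finset Pool.Agent.W41.FU

variable {M : ℕ} [NeZero M]

theorem emb_sumC (φ : ℤ → ℝ) {a b : ℕ} (hab : a ≤ b) (hb : b < M) (G : ZMod M → ℂ) :
    ∑ x : ZMod M, (emb M φ a b x : ℂ) * G x = ∑ n ∈ Ioc a b, (φ (n : ℕ) : ℂ) * G (n : ℕ) := by
  unfold emb
  have e1 : ∀ x : ZMod M, (((if a < x.val ∧ x.val ≤ b then φ (x.val : ℕ) else 0 : ℝ)) : ℂ) * G x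
      = if a < x.val ∧ x.val ≤ b then (φ (x.val : ℕ) : ℂ) * G x else 0 := by
    intro x; split_ifs
    · rfl
    · rw [Complex.ofReal_zero, zero_mul]
  rw [sum_congr rfl (fun x _ => e1 x), ← sum_filter]
  refine sum_bij' (fun (x : ZMod M) _ => x.val) (fun (n : ℕ) _ => (n : ZMod M)) ?_ ?_ ?_ ?_ ?_
  · intro x hx
    rw [mem_filter] at hx
    rw [mem_Ioc]
    exact hx.2
  · intro n hn
    rw [mem_Ioc] at hn
    rw [mem_filter, ZMod.val_natCast_of_lt (by omega)]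
    exact ⟨mem_univ _, hn⟩
  · intro x _
    exact ZMod.natCast_zmod_val x
  · intro n hn
    rw [mem_Ioc] at hn
    exact ZMod.val_natCast_of_lt (by omega)
  · intro x _
    rw [ZMod.natCast_zmod_val x]

theorem an_shift (f : ZMod M → ℂ) (t ξ : ZMod M) : ‖an (fun y => f (y + t)) ξ‖ = ‖an f ξ‖ := by
  have h : an (fun y => f (y + t)) ξ = ch (ξ * t) * an f ξ := by
    have h2 : ∑ y, f (y + t) * ch (-(ξ * y)) = ch (ξ * t) * ∑ y, f y * ch (-(ξ * y)) := by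
      rw [mul_sum]
      apply Fintype.sum_equiv (Equiv.addRight t)
      intro y
      rw [Equiv.coe_addRight]
      rw [show ch (-(ξ * y)) = ch (ξ * t) * ch (-(ξ * (y + t))) by rw [← ch_add]; congr 1; ring]
      ring
    unfold an
    rw [h2]
    ring
  rw [h, norm_mul, ch_norm, one_mul]

theorem ch_lower (ξ : ZMod M) : 4 * (fr ξ : ℝ) / M ≤ ‖1 - ch ξ‖ := by
  have hM : (0 : ℝ) < M := by exact_mod_cast NeZero.pos M
  have h2 : 2 * (fr ξ : ℝ) ≤ M := by exact_mod_cast fr_le ξ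
  have hpi := Real.pi_pos
  have e0 : (ch ξ).re = Real.cos (2 * Real.pi * ((fr ξ : ℝ) * (1 : ℕ) / M)) := by
    rw [← ch_re, Nat.cast_one, mul_one]
  have hn : ‖ch ξ‖ ^ 2 = 1 := by rw [ch_norm]; norm_num
  have e1 : ‖1 - ch ξ‖ ^ 2 = 4 * Real.sin (Real.pi * ((fr ξ : ℝ) / M)) ^ 2 := by
    have e2 : ‖1 - ch ξ‖ ^ 2 = 2 - 2 * (ch ξ).re := by
      rw [← Complex.normSq_eq_norm_sq, Complex.normSq_sub, Complex.normSq_one, Complex.normSq_eq_norm_sq, hn, one_mul,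
        Complex.conj_re]
      ring
    rw [e2, e0]
    have e3 : 2 * Real.pi * ((fr ξ : ℝ) * (1 : ℕ) / M) = 2 * (Real.pi * ((fr ξ : ℝ) / M)) := by push_cast; ring
    rw [e3, Real.cos_two_mul, Real.cos_sq']
    ring
  have h3 : (fr ξ : ℝ) / M ≤ 1 / 2 := by rw [div_le_iff₀ hM]; linarith
  have h4 := mul_le_mul_of_nonneg_left h3 hpi.le
  have h5 := Real.mul_le_sin (x := Real.pi * ((fr ξ : ℝ) / M)) (by positivity) (by linarith)
  have h6 : 2 / Real.pi * (Real.pi * ((fr ξ : ℝ) / M)) = 2 * ((fr ξ : ℝ) / M) := by field_simp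
  rw [h6] at h5
  apply le_of_sq_le_sq _ (norm_nonneg _)
  rw [e1]
  have h7 : 0 ≤ 2 * ((fr ξ : ℝ) / M) := by positivity
  have h8 : (2 * ((fr ξ : ℝ) / M)) ^ 2 ≤ Real.sin (Real.pi * ((fr ξ : ℝ) / M)) ^ 2 := pow_le_pow_left₀ h7 h5 2
  calc (4 * (fr ξ : ℝ) / M) ^ 2 = 4 * (2 * ((fr ξ : ℝ) / M)) ^ 2 := by ring
    _ ≤ _ := by linarith

/-- the indicator function of the residues `t + 1, …, t + l` -/
noncomputable def bx (t : ZMod M) (l : ℕ) (y : ZMod M) : ℂ := (emb M (fun _ => 1) 0 l (y + -t) : ℂ)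

theorem bx_norm (t : ZMod M) (l : ℕ) (y : ZMod M) : ‖bx t l y‖ ≤ 1 := by
  unfold bx
  rw [Complex.norm_real, Real.norm_eq_abs]
  exact emb_abs (fun _ => by simp) _ _ _

theorem bx_an (t : ZMod M) {l : ℕ} (hl : l < M) (ξ : ZMod M) (hξ : 0 < fr ξ) : ‖an (bx t l) ξ‖ ≤ 1 / (2 * fr ξ) := by
  have hM : (0 : ℝ) < M := by exact_mod_cast NeZero.pos M
  have hf : (0 : ℝ) < fr ξ := by exact_mod_cast hξ
  have e0 : ‖an (bx t l) ξ‖ = ‖an (fun y => (emb M (fun _ => 1) 0 l y : ℂ)) ξ‖ :=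
    an_shift (fun y => (emb M (fun _ => 1) 0 l y : ℂ)) (-t) ξ
  rw [e0]
  unfold an
  rw [emb_sumC (fun _ => 1) (Nat.zero_le l) hl, norm_mul, norm_inv, Complex.norm_natCast, inv_mul_le_iff₀ hM]
  set S : ℂ := ∑ n ∈ Ioc 0 l, (((1 : ℝ) : ℂ)) * ch (-(ξ * (n : ZMod M))) with hS
  have h1 : (1 - ch (-ξ)) * S = ch (-ξ) - ch (-(ξ * ((l : ZMod M) + 1))) := by
    rw [hS]
    clear hl e0 hS S
    induction l with
    | zero => simp
    | succ l ih =>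
      rw [Finset.sum_Ioc_succ_top (Nat.zero_le l), mul_add, ih]
      have e1 : ch (-(ξ * (((l + 1 : ℕ) : ZMod M) + 1))) = ch (-ξ) * ch (-(ξ * ((l : ZMod M) + 1))) := by
        rw [← ch_add]; congr 1; push_cast; ring
      rw [e1]
      push_cast
      ring
  have h2 : ‖1 - ch (-ξ)‖ * ‖S‖ ≤ 2 := by
    rw [← norm_mul, h1]
    refine (norm_sub_le _ _).trans ?_
    rw [ch_norm, ch_norm]; norm_num
  have h3 : 4 * (fr ξ : ℝ) / M ≤ ‖1 - ch (-ξ)‖ := by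
    have e : ‖1 - ch (-ξ)‖ = ‖1 - ch ξ‖ := by
      have : (1 : ℂ) - ch (-ξ) = (starRingEnd ℂ) (1 - ch ξ) := by rw [map_sub, map_one, ch_neg]
      rw [this, Complex.norm_conj]
    rw [e]
    exact ch_lower ξ
  have h4 : 4 * (fr ξ : ℝ) / M * ‖S‖ ≤ 2 := (mul_le_mul_of_nonneg_right h3 (norm_nonneg _)).trans h2
  rw [div_mul_eq_mul_div, div_le_iff₀ hM] at h4
  rw [mul_one_div, le_div_iff₀ (by positivity)]
  linarith

theorem bx_an_one (t : ZMod M) (l : ℕ) (ξ : ZMod M) : ‖an (bx t l) ξ‖ ≤ 1 := by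
  have h1 := energy_le (bx_norm t l)
  have h2 : ‖an (bx t l) ξ‖ ^ 2 ≤ ∑ ξ, ‖an (bx t l) ξ‖ ^ 2 :=
    single_le_sum (f := fun ξ => ‖an (bx t l) ξ‖ ^ 2) (fun _ _ => by positivity) (mem_univ ξ)
  have h3 := norm_nonneg (an (bx t l) ξ)
  nlinarith

theorem bx_tail (t : ZMod M) {l : ℕ} (hl : l < M) (q : ℕ) : ∀ m : ℕ,
    ∑ ξ ∈ univ.filter (fun ξ : ZMod M => 2 ^ q ≤ fr ξ ∧ fr ξ < 2 ^ (q + m)), ‖an (bx t l) ξ‖ ^ 2
      ≤ 2 * (1 / 2) ^ q * (1 - (1 / 2) ^ m) := by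
  intro m
  induction m with
  | zero =>
    rw [sum_eq_zero]
    · simp
    · intro ξ hξ
      rw [mem_filter, add_zero] at hξ
      omega
  | succ m ih =>
    have e1 : univ.filter (fun ξ : ZMod M => 2 ^ q ≤ fr ξ ∧ fr ξ < 2 ^ (q + (m + 1)))
        ⊆ univ.filter (fun ξ : ZMod M => 2 ^ q ≤ fr ξ ∧ fr ξ < 2 ^ (q + m))
          ∪ univ.filter (fun ξ : ZMod M => 2 ^ (q + m) ≤ fr ξ ∧ fr ξ < 2 ^ (q + m + 1)) := by
      intro ξ hξ
      rw [mem_filter] at hξ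
      rw [mem_union, mem_filter, mem_filter]
      have e : q + (m + 1) = q + m + 1 := by ring
      rw [e] at hξ
      rcases Nat.lt_or_ge (fr ξ) (2 ^ (q + m)) with hc | hc
      · exact Or.inl ⟨hξ.1, hξ.2.1, hc⟩
      · exact Or.inr ⟨hξ.1, hc, hξ.2.2⟩
    have hdisj : Disjoint (univ.filter (fun ξ : ZMod M => 2 ^ q ≤ fr ξ ∧ fr ξ < 2 ^ (q + m)))
        (univ.filter (fun ξ : ZMod M => 2 ^ (q + m) ≤ fr ξ ∧ fr ξ < 2 ^ (q + m + 1))) := by
      rw [Finset.disjoint_left]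
      intro ξ h2 h3
      rw [mem_filter] at h2 h3
      exact absurd h2.2.2 (not_lt.2 h3.2.1)
    have h4 := sum_le_sum_of_subset_of_nonneg (f := fun ξ => ‖an (bx t l) ξ‖ ^ 2) e1 (fun _ _ _ => by positivity)
    rw [sum_union hdisj] at h4
    have h5 : ∑ ξ ∈ univ.filter (fun ξ : ZMod M => 2 ^ (q + m) ≤ fr ξ ∧ fr ξ < 2 ^ (q + m + 1)), ‖an (bx t l) ξ‖ ^ 2
        ≤ (1 / 2) ^ (q + m) := by
      have h6 : ∀ ξ ∈ univ.filter (fun ξ : ZMod M => 2 ^ (q + m) ≤ fr ξ ∧ fr ξ < 2 ^ (q + m + 1)),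
          ‖an (bx t l) ξ‖ ^ 2 ≤ (1 / (2 * 2 ^ (q + m))) ^ 2 := by
        intro ξ hξ
        rw [mem_filter] at hξ
        have h7 : 0 < fr ξ := lt_of_lt_of_le (by positivity) hξ.2.1
        apply pow_le_pow_left₀ (norm_nonneg _)
        refine (bx_an t hl ξ h7).trans ?_
        apply one_div_le_one_div_of_le (by positivity)
        have : ((2 ^ (q + m) : ℕ) : ℝ) ≤ fr ξ := by exact_mod_cast hξ.2.1
        push_cast at this
        linarith
      refine (sum_le_sum h6).trans ?_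
      rw [sum_const, nsmul_eq_mul]
      have h8 : ((univ.filter (fun ξ : ZMod M => 2 ^ (q + m) ≤ fr ξ ∧ fr ξ < 2 ^ (q + m + 1))).card : ℝ)
          ≤ 2 * (2 ^ (q + m + 1) : ℕ) := by
        refine le_trans ?_ (fr_count (M := M) (2 ^ (q + m + 1)))
        have : (univ.filter (fun ξ : ZMod M => 2 ^ (q + m) ≤ fr ξ ∧ fr ξ < 2 ^ (q + m + 1)))
            ⊆ univ.filter (fun ξ : ZMod M => fr ξ < 2 ^ (q + m + 1)) := by
          intro ξ hξ
          rw [mem_filter] at hξ ⊢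
          exact ⟨hξ.1, hξ.2.2⟩
        exact_mod_cast card_le_card this
      refine (mul_le_mul_of_nonneg_right h8 (by positivity)).trans (le_of_eq ?_)
      have e10 : (1 / 2 : ℝ) ^ (q + m) = 1 / 2 ^ (q + m) := by rw [one_div_pow]
      push_cast
      rw [pow_succ 2 (q + m), e10]
      field_simp
    have h9 : 2 * (1 / 2 : ℝ) ^ q * (1 - (1 / 2) ^ (m + 1)) = 2 * (1 / 2) ^ q * (1 - (1 / 2) ^ m) + (1 / 2) ^ (q + m) := by
      rw [pow_succ, pow_add]; ring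
    rw [h9]
    linarith

/-- smoothing of a box -/
theorem bx_smooth (t : ZMod M) {l : ℕ} (hl : l < M) {q : ℕ} (hq : 3 * 2 ^ q ≤ M) :
    av (fun z => ‖bx t l z - sm (2 ^ q) (bx t l) z‖ ^ 2) ≤ 2 * (1 / 2) ^ q := by
  have e1 : ∀ z, bx t l z - sm (2 ^ q) (bx t l) z
      = syn (fun ξ => ((1 - V (2 ^ q) ξ : ℝ) : ℂ) * an (bx t l) ξ) z := by
    intro z
    have := syn_sub (an (bx t l)) (fun ξ => (V (2 ^ q) ξ : ℂ) * an (bx t l) ξ) z
    rw [syn_an] at this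
    unfold sm
    rw [← this]
    congr 1
    funext ξ
    push_cast
    ring
  simp only [e1]
  rw [av_syn]
  refine (mult (bx t l) (fun ξ => 1 - V (2 ^ q) ξ) (fun ξ => ?_)
    (fun ξ => 2 ^ q ≤ fr ξ ∧ fr ξ < 2 ^ (q + M)) (fun ξ hξ => ?_)).trans ?_
  · have h1 := V_nonneg (2 ^ q) ξ
    have h2 := V_le_one (by positivity) hq ξ
    rw [abs_le]; constructor <;> linarith
  · refine ⟨?_, ?_⟩
    · by_contra hcon
      push Not at hcon
      apply hξ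
      rw [V_one (by positivity) hq hcon.le, sub_self]
    · have h1 := fr_le ξ
      have h2 : M < 2 ^ M := Nat.lt_two_pow_self
      have h3 : 2 ^ M ≤ 2 ^ (q + M) := Nat.pow_le_pow_right (by norm_num) (by omega)
      omega
  · refine (bx_tail t hl q M).trans ?_
    have h1 : (0 : ℝ) ≤ (1 / 2) ^ M := by positivity
    have h2 : (0 : ℝ) ≤ 2 * (1 / 2) ^ q := by positivity
    nlinarith

end Pool.Agent.K6.H82.GU
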