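import Pool.Agent.K6.H82.GU.GU11

/-! Systems of linear forms in boxes. -/

set_option autoImplicit false

namespace Pool.Agent.K6.H82.GU

open Finset Pool.Agent.W41.FU

section

variable {M : ℕ} [NeZero M] {ι ρ : Type*} [Fintype ι] [Fintype ρ] [DecidableEq ι] [DecidableEq ρ]

/-- the forms together with the coordinates -/
def cc (c : ι → ρ → ℤ) : ι ⊕ ρ → ρ → ℤ := Sum.elim c (fun j u => if u = j then 1 else 0)

theorem lf_inl (c : ι → ρ → ℤ) (i : ι) (x : ρ → ZMod M) : lf (cc c) (Sum.inl i) x = lf c i x := rfl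

theorem lf_inr (c : ι → ρ → ℤ) (j : ρ) (x : ρ → ZMod M) : lf (cc c) (Sum.inr j) x = x j := by
  unfold lf cc
  simp

/-- the sum over a box -/
noncomputable def BS (c : ι → ρ → ℤ) (g : ι → ZMod M → ℂ) (b : ρ → ZMod M → ℂ) : ℂ :=
  ∑ x : ρ → ZMod M, (∏ i, g i (lf c i x)) * ∏ j, b j (x j)

theorem BS_eq (c : ι → ρ → ℤ) (g : ι → ZMod M → ℂ) (b : ρ → ZMod M → ℂ) :
    BS c g b = Lam (cc c) 0 (Sum.elim g b) := by
  unfold BS Lam
  apply sum_congr rfl
  intro x _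
  have e1 : ch (∑ u, (0 : ρ → ZMod M) u * x u) = 1 := by simp [ch_zero]
  rw [e1, one_mul, Fintype.prod_sum_type]
  congr 1
  apply prod_congr rfl
  intro j _
  rw [lf_inr]
  rfl

theorem BS_syn (c : ι → ρ → ℤ) (g : ι → ZMod M → ℂ) (w : ρ → ZMod M → ℂ) :
    BS c g (fun j => syn (w j)) = ∑ η : ρ → ZMod M, (∏ j, w j (η j)) * Lam c η g := by
  unfold BS Lam
  have e1 : ∀ x : ρ → ZMod M, (∏ i, g i (lf c i x)) * ∏ j, syn (w j) (x j)
      = ∑ η : ρ → ZMod M, (∏ j, w j (η j)) * (ch (∑ u, η u * x u) * ∏ i, g i (lf c i x)) := by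
    intro x
    unfold syn
    rw [Finset.prod_univ_sum, Fintype.piFinset_univ, mul_sum]
    apply sum_congr rfl
    intro η _
    rw [prod_mul_distrib, ← ch_finsum]
    ring
  rw [sum_congr rfl (fun x _ => e1 x), sum_comm]
  apply sum_congr rfl
  intro η _
  rw [mul_sum]

theorem BS_bound (c : ι → ρ → ℤ) (g : ι → ZMod M → ℂ) (w : ρ → ZMod M → ℂ) {T W : ℝ} (hT : 0 ≤ T)
    (hW : ∀ j, ∑ η, ‖w j η‖ ≤ W)
    (h : ∀ η : ρ → ZMod M, (∀ j, w j (η j) ≠ 0) → ‖Lam c η g‖ ≤ T) :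
    ‖BS c g (fun j => syn (w j))‖ ≤ W ^ Fintype.card ρ * T := by
  rw [BS_syn]
  refine (norm_sum_le _ _).trans ?_
  calc ∑ η : ρ → ZMod M, ‖(∏ j, w j (η j)) * Lam c η g‖ ≤ ∑ η : ρ → ZMod M, (∏ j, ‖w j (η j)‖) * T := by
        apply sum_le_sum
        intro η _
        rw [norm_mul, norm_prod]
        by_cases h1 : ∀ j, w j (η j) ≠ 0
        · exact mul_le_mul_of_nonneg_left (h η h1) (prod_nonneg fun _ _ => norm_nonneg _)
        · push Not at h1
          obtain ⟨j, hj⟩ := h1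
          have : ∏ j, ‖w j (η j)‖ = 0 := prod_eq_zero (mem_univ j) (by rw [hj, norm_zero])
          rw [this, zero_mul, zero_mul]
    _ = (∏ j, ∑ η, ‖w j η‖) * T := by
        rw [← sum_mul, Finset.prod_univ_sum, Fintype.piFinset_univ]
    _ ≤ (∏ j : ρ, W) * T := by
        apply mul_le_mul_of_nonneg_right _ hT
        exact prod_le_prod (fun j _ => sum_nonneg fun _ _ => norm_nonneg _) (fun j _ => hW j)
    _ = _ := by rw [prod_const, card_univ]

theorem BS_smooth (c : ι → ρ → ℤ) {g : ι → ZMod M → ℂ} (hg : ∀ i x, ‖g i x‖ ≤ 1) (t : ρ → ZMod M) (l : ρ → ℕ)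
    (hl : ∀ j, l j < M) {q : ℕ} (hq : 3 * 2 ^ q ≤ M) {ε : ℝ} (hε : 0 < ε) (hqε : 2 * (1 / 2 : ℝ) ^ q ≤ ε ^ 2) :
    ‖BS c g (fun j => bx (t j) (l j)) - BS c g (fun j => sm (2 ^ q) (bx (t j) (l j)))‖
      ≤ (Fintype.card ι + Fintype.card ρ) * (2 ^ (Fintype.card ι + Fintype.card ρ) * (M ^ Fintype.card ρ * (2 * ε))) := by
  rw [BS_eq, BS_eq]
  have h1 := tele (cc c) (0 : ρ → ZMod M) (Sum.elim g (fun j => bx (t j) (l j)))
    (Sum.elim g (fun j => sm (2 ^ q) (bx (t j) (l j))))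
    (2 ^ (Fintype.card ι + Fintype.card ρ) * (M ^ Fintype.card ρ * (2 * ε))) (by
      intro s m hm
      rcases m with i | j
      · have e1 : ∀ x : ρ → ZMod M, ch (∑ u, (0 : ρ → ZMod M) u * x u) *
            ((Sum.elim g (fun j => bx (t j) (l j)) (Sum.inl i) (lf (cc c) (Sum.inl i) x)
              - Sum.elim g (fun j => sm (2 ^ q) (bx (t j) (l j))) (Sum.inl i) (lf (cc c) (Sum.inl i) x)) *
            ∏ k ∈ univ.erase (Sum.inl i), (if k ∈ s then Sum.elim g (fun j => bx (t j) (l j)) k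
              else Sum.elim g (fun j => sm (2 ^ q) (bx (t j) (l j))) k) (lf (cc c) k x)) = 0 := by
          intro x
          rw [Sum.elim_inl, Sum.elim_inl, sub_self, zero_mul, mul_zero]
        rw [sum_congr rfl (fun x _ => e1 x), sum_const_zero, norm_zero]
        positivity
      · have hb : ∀ k x, ‖(if k ∈ s then Sum.elim g (fun j => bx (t j) (l j)) k
              else Sum.elim g (fun j => sm (2 ^ q) (bx (t j) (l j))) k) x‖ ≤ 2 := by
          intro k x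
          rcases k with i | k
          · have : ‖g i x‖ ≤ 2 := (hg i x).trans (by norm_num)
            split_ifs <;> exact this
          · split_ifs
            · exact (bx_norm _ _ _).trans (by norm_num)
            · exact sm_bound (by positivity) hq (bx_norm _ _) x
        calc _ ≤ ∑ x : ρ → ZMod M, 2 ^ (Fintype.card ι + Fintype.card ρ) *
              ‖(fun z => bx (t j) (l j) z - sm (2 ^ q) (bx (t j) (l j)) z) (lf (cc c) (Sum.inr j) x)‖ := by
              refine (norm_sum_le _ _).trans (sum_le_sum fun x _ => ?_)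
              rw [norm_mul, norm_mul, ch_norm, one_mul, mul_comm, norm_prod]
              apply mul_le_mul_of_nonneg_right _ (norm_nonneg _)
              refine (prod_le_prod (fun _ _ => norm_nonneg _) (fun k _ => hb k _)).trans ?_
              rw [prod_const]
              apply pow_le_pow_right₀ (by norm_num)
              rw [← Fintype.card_sum]
              exact card_le_univ _
          _ ≤ _ := by
              rw [← mul_sum]
              apply mul_le_mul_of_nonneg_left _ (by positivity)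
              refine sum_norm_le (M := M) (c := cc c) (i := Sum.inr j) ⟨j, ?_⟩
                (fun z => bx (t j) (l j) z - sm (2 ^ q) (bx (t j) (l j)) z) hε ?_
              · simp [cc]
              · exact (bx_smooth (t j) (hl j) hq).trans hqε)
  rw [Fintype.card_sum] at h1
  push_cast at h1
  exact h1

theorem unit_of {z : ℤ} (hM : M.Prime) (hz : z ≠ 0) (hlt : z.natAbs < M) : IsUnit (z : ZMod M) := by
  have := Fact.mk hM
  rw [isUnit_iff_ne_zero]
  intro h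
  rw [ZMod.intCast_zmod_eq_zero_iff_dvd] at h
  apply hz
  apply Int.eq_zero_of_abs_lt_dvd h
  rw [Int.abs_eq_natAbs]
  exact_mod_cast hlt

end

/-- THE CORE ESTIMATE. -/
theorem core {ι ρ : Type} [Fintype ι] [Fintype ρ] [DecidableEq ι] [DecidableEq ρ] (c : ι → ρ → ℤ)
    (hc1 : ∀ i, ∃ u, c i u ≠ 0) (hc2 : ∀ i j, i ≠ j → ∃ u v, c i u * c j v - c i v * c j u ≠ 0)
    {L : ℝ} (hL : 1 ≤ L) {ε : ℝ} (hε : 0 < ε) :
    ∃ σ : ℝ, 0 < σ ∧ ∃ N0 : ℕ, ∀ N : ℕ, N0 ≤ N → ∀ (M : ℕ) [NeZero M], M.Prime → N < M → (M : ℝ) ≤ L * N →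
      ∀ d : ι → ℤ, (∀ i, d i = 1 ∨ d i = -1) → ∀ φ : ι → ℤ → ℝ, (∀ i, φ i ∈ SameT (d i)) →
      ∀ a b : ι → ℕ, (∀ i, a i ≤ b i) → (∀ i, b i ≤ N) → ∀ t : ι → ZMod M, ∀ (t' : ρ → ZMod M) (l : ρ → ℕ),
      (∀ j, l j < M) → ∀ i0 : ι, (∀ ξ, ‖an (fun x => (emb M (φ i0) (a i0) (b i0) x : ℂ)) ξ‖ ≤ σ) →
      ‖BS c (fun i y => (emb M (φ i) (a i) (b i) (y + t i) : ℂ)) (fun j => bx (t' j) (l j))‖
        ≤ ε * M ^ Fintype.card ρ := by
  set k := Fintype.card ι with hk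
  set r := Fintype.card ρ with hr
  -- the bound for the coefficients
  set B : ℕ := 1 + ∑ i, ∑ u, (c i u).natAbs with hBdef
  have hB1 : 1 ≤ B := by omega
  have hB : ∀ i u, (c i u).natAbs ≤ B := by
    intro i u
    have h1 : (c i u).natAbs ≤ ∑ u, (c i u).natAbs :=
      single_le_sum (f := fun u => (c i u).natAbs) (fun _ _ => Nat.zero_le _) (mem_univ u)
    have h2 : ∑ u, (c i u).natAbs ≤ ∑ i, ∑ u, (c i u).natAbs :=
      single_le_sum (f := fun i => ∑ u, (c i u).natAbs) (fun _ _ => Nat.zero_le _) (mem_univ i)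
    omega
  set C : ℕ := 4 * B ^ 2 * (k + 1) with hCdef
  have hC : 4 * B ^ 2 * (k + 1) ≤ 2 ^ C := Nat.lt_two_pow_self.le
  set R : ℕ := 2 + 2 ^ (C + 3) * (k * B + 1) with hRdef
  -- smoothing of the box
  set εw : ℝ := ε / (4 * ((k + r + 1 : ℝ) * 2 ^ (k + r))) with hεw
  have hεw0 : 0 < εw := by positivity
  obtain ⟨q0, hq0⟩ := exists_pow_lt_of_lt_one (show 0 < εw ^ 2 / 2 by positivity) (show (1 / 2 : ℝ) < 1 by norm_num)
  set q := q0 with hq
  have hqε : 2 * (1 / 2 : ℝ) ^ q ≤ εw ^ 2 := by linarith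
  set W : ℝ := 4 * 2 ^ q with hW
  have hW0 : 0 < W := by positivity
  -- the bands
  set A1 : ℝ := W ^ r * (2 ^ k * (k + 1) ^ 4 * (C + 3) * 2) with hA1
  have hA10 : 0 < A1 := by positivity
  set ε1 : ℝ := ε / (4 * A1) with hε1
  have hε10 : 0 < ε1 := by positivity
  set εb : ℝ := ε1 ^ 2 / (C + 2 + 2 * R) with hεb
  have hεb0 : 0 < εb := by positivity
  obtain ⟨K1, hK1, N1, hN1, hband1⟩ := band (d := 1) odd_one isCoprime_one_left (by norm_num) hεb0 hL
  obtain ⟨K2, hK2, N2, hN2, hband2⟩ := band (d := -1) (by decide) (isCoprime_one_left).neg_left (by norm_num) hεb0 hL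
  obtain ⟨p1, hp1⟩ := pow_unbounded_of_one_lt (max K1 K2) (show (1 : ℝ) < 2 by norm_num)
  set p0 : ℕ := p1 + q with hp0
  have hp0K : max K1 K2 ≤ 2 ^ p0 := hp1.le.trans (pow_le_pow_right₀ (by norm_num) (by omega))
  set A2 : ℝ := W ^ r * (2 ^ k * 2 ^ (p0 + C + 2)) with hA2
  have hA20 : 0 < A2 := by positivity
  refine ⟨ε / (4 * A2), by positivity, N1 + N2 + 2 ^ p0 * R + 2 * B ^ 2 + 1, ?_⟩
  intro N hN M _ hMp hNM hML d hd φ hφ a b hab hbN t t' l hl i0 hi0
  set σ := ε / (4 * A2) with hσ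
  have hσ0 : 0 < σ := by positivity
  have hMbig : 2 ^ p0 * R < M := by omega
  have hMr : (0 : ℝ) < (M : ℝ) ^ r := by
    have : (0 : ℝ) < M := by exact_mod_cast NeZero.pos M
    positivity
  -- the number of scales
  have hex : ∃ n : ℕ, 2 ^ (p0 + n) * R < M ∧ M ≤ 2 ^ (p0 + n + 1) * R := by
    have h1 : ∃ m : ℕ, M ≤ 2 ^ (p0 + m) * R := ⟨M, by
      have h2 : M ≤ 2 ^ M := Nat.lt_two_pow_self.le
      have h3 : 2 ^ M ≤ 2 ^ (p0 + M) := Nat.pow_le_pow_right (by norm_num) (by omega)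
      have h4 : 2 ^ (p0 + M) ≤ 2 ^ (p0 + M) * R := Nat.le_mul_of_pos_right _ (by omega)
      omega⟩
    classical
    set m := Nat.find h1 with hm
    have hm1 : M ≤ 2 ^ (p0 + m) * R := Nat.find_spec h1
    have hm0 : m ≠ 0 := by
      intro h0
      rw [h0, add_zero] at hm1
      omega
    obtain ⟨n, hn⟩ : ∃ n, m = n + 1 := ⟨m - 1, by omega⟩
    refine ⟨n, ?_, ?_⟩
    · have := Nat.find_min h1 (m := n) (by omega)
      omega
    · rw [hn] at hm1; exact hm1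
  obtain ⟨n, hn1, hn2⟩ := hex
  have hq3 : 3 * 2 ^ q ≤ M := by
    have h1 : 2 ^ q ≤ 2 ^ p0 := Nat.pow_le_pow_right (by norm_num) (by omega)
    have h2 : 1 ≤ 2 ^ (C + 3) * (k * B + 1) := Nat.one_le_iff_ne_zero.2 (by positivity)
    have h3 : 3 ≤ R := by omega
    have h4 : 2 ^ p0 * 3 ≤ 2 ^ p0 * R := Nat.mul_le_mul_left _ h3
    omega
  have hu1 : ∀ i, ∃ u, IsUnit ((c i u : ℤ) : ZMod M) := by
    intro i
    obtain ⟨u, hu⟩ := hc1 i
    refine ⟨u, unit_of hMp hu ?_⟩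
    have h1 := hB i u
    have h2 : B ≤ B ^ 2 := by rw [pow_two]; exact Nat.le_mul_of_pos_left B hB1
    omega
  have hu2 : ∀ i j, i ≠ j → Pr M c i j := by
    intro i j hij
    obtain ⟨u, v, huv⟩ := hc2 i j hij
    refine ⟨u, v, unit_of hMp huv ?_⟩
    have h1 : (c i u * c j v - c i v * c j u).natAbs ≤ (c i u * c j v).natAbs + (c i v * c j u).natAbs :=
      Int.natAbs_sub_le _ _
    rw [Int.natAbs_mul, Int.natAbs_mul] at h1
    have h2 := Nat.mul_le_mul (hB i u) (hB j v)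
    have h3 := Nat.mul_le_mul (hB i v) (hB j u)
    have h4 : B * B = B ^ 2 := by ring
    omega
  set f : ι → ZMod M → ℂ := fun i y => (emb M (φ i) (a i) (b i) (y + t i) : ℂ) with hf
  have hf1 : ∀ i x, ‖f i x‖ ≤ 1 := by
    intro i x
    rw [hf]
    simp only
    rw [Complex.norm_real, Real.norm_eq_abs]
    exact emb_abs (hφ i).1 _ _ _
  have hfan : ∀ i ξ, ‖an (f i) ξ‖ = ‖an (fun x => (emb M (φ i) (a i) (b i) x : ℂ)) ξ‖ := by
    intro i ξ
    exact an_shift (fun y => (emb M (φ i) (a i) (b i) y : ℂ)) (t i) ξ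
  have hbd : ∀ i, ∀ q : ℕ, max K1 K2 ≤ 2 ^ q →
      ∑ ξ ∈ univ.filter (fun ξ : ZMod M => 2 ^ q ≤ fr ξ ∧ fr ξ < 2 ^ (q + 1)), ‖an (f i) ξ‖ ^ 2 ≤ εb := by
    intro i q hq
    simp only [hfan]
    rcases hd i with h1 | h1
    · have h2 := hφ i
      rw [h1] at h2
      exact hband1 N (by omega) M hNM hML (φ i) h2 (a i) (b i) (hab i) (hbN i) q ((le_max_left _ _).trans hq)
    · have h2 := hφ i
      rw [h1] at h2
      exact hband2 N (by omega) M hNM hML (φ i) h2 (a i) (b i) (hab i) (hbN i) q ((le_max_right _ _).trans hq)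
  have hCR : (0 : ℝ) < C + 2 + 2 * R := by positivity
  have hE : ∀ i p, p0 ≤ p → p < p0 + n → En (f i) (2 ^ p) (2 ^ (p + C + 2)) ≤ ε1 ^ 2 := by
    intro i p hp _
    have h1 := cover (f i) (hbd i) (q := p) (hp0K.trans (pow_le_pow_right₀ (by norm_num) hp)) (C + 2)
    have h2 : En (f i) (2 ^ p) (2 ^ (p + C + 2))
        ≤ ∑ ξ ∈ univ.filter (fun ξ : ZMod M => 2 ^ p ≤ fr ξ ∧ fr ξ < 2 ^ (p + (C + 2))), ‖an (f i) ξ‖ ^ 2 := by
      unfold En
      apply sum_le_sum_of_subset_of_nonneg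
      · intro ξ hξ
        rw [mem_filter] at hξ ⊢
        exact ⟨hξ.1, hξ.2.1.le, hξ.2.2⟩
      · intro _ _ _; positivity
    refine h2.trans (h1.trans ?_)
    rw [hεb, mul_div_assoc', div_le_iff₀ hCR]
    push_cast
    have h3 : 0 ≤ ε1 ^ 2 := by positivity
    have h4 : (0 : ℝ) ≤ 2 * R := by positivity
    nlinarith
  have hT : ∀ i, ∑ ξ ∈ univ.filter (fun ξ : ZMod M => 2 ^ (p0 + n + C) < fr ξ), ‖an (f i) ξ‖ ^ 2 ≤ ε1 ^ 2 := by
    intro i
    have h1 := cover (f i) (hbd i) (q := p0 + n + C) (hp0K.trans (pow_le_pow_right₀ (by norm_num) (by omega))) (2 * R)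
    have h2 : ∑ ξ ∈ univ.filter (fun ξ : ZMod M => 2 ^ (p0 + n + C) < fr ξ), ‖an (f i) ξ‖ ^ 2
        ≤ ∑ ξ ∈ univ.filter (fun ξ : ZMod M => 2 ^ (p0 + n + C) ≤ fr ξ ∧ fr ξ < 2 ^ (p0 + n + C + 2 * R)), ‖an (f i) ξ‖ ^ 2 := by
      apply sum_le_sum_of_subset_of_nonneg
      · intro ξ hξ
        rw [mem_filter] at hξ ⊢
        refine ⟨hξ.1, hξ.2.le, ?_⟩
        have h3 := fr_le ξ
        have h4 : 2 * R ≤ 2 ^ (2 * R) := Nat.lt_two_pow_self.le
        have h5 : 2 ^ (p0 + n + 1) * R ≤ 2 ^ (p0 + n + C + 2 * R) := by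
          calc 2 ^ (p0 + n + 1) * R = 2 ^ (p0 + n) * (2 * R) := by rw [pow_succ]; ring
            _ ≤ 2 ^ (p0 + n + C) * 2 ^ (2 * R) := Nat.mul_le_mul (Nat.pow_le_pow_right (by norm_num) (by omega)) h4
            _ = _ := by rw [← pow_add]
        have h6 : 0 < M := NeZero.pos M
        omega
      · intro _ _ _; positivity
    refine h2.trans (h1.trans ?_)
    rw [hεb, mul_div_assoc', div_le_iff₀ hCR]
    push_cast
    have h3 : 0 ≤ ε1 ^ 2 := by positivity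
    have h4 : (0 : ℝ) ≤ (C : ℝ) + 2 := by positivity
    nlinarith
  -- the smoothed sum
  set T : ℝ := M ^ r * (2 ^ k * (k + 1) ^ 4 * (C + 3) * (2 * ε1) + 2 ^ k * 2 ^ (p0 + C + 2) * σ) with hTdef
  have hT0 : 0 ≤ T := by positivity
  have s1 : ‖BS c f (fun j => sm (2 ^ q) (bx (t' j) (l j)))‖ ≤ W ^ r * T := by
    apply BS_bound c f (fun j ξ => (V (2 ^ q) ξ : ℂ) * an (bx (t' j) (l j)) ξ) hT0
    · intro j
      calc ∑ η : ZMod M, ‖(V (2 ^ q) η : ℂ) * an (bx (t' j) (l j)) η‖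
          ≤ ∑ η : ZMod M, (if fr η < 2 ^ (q + 1) then (1 : ℝ) else 0) := by
            apply sum_le_sum
            intro η _
            rw [norm_mul, Complex.norm_real, Real.norm_eq_abs, abs_of_nonneg (V_nonneg _ η)]
            split_ifs with h1
            · have h2 := V_le_one (by positivity) hq3 η
              have h3 := bx_an_one (t' j) (l j) η
              have h4 := V_nonneg (2 ^ q) η
              nlinarith [norm_nonneg (an (bx (t' j) (l j)) η)]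
            · rw [V_zero (by rw [pow_succ] at h1; omega), zero_mul]
        _ = ((univ.filter fun ξ : ZMod M => fr ξ < 2 ^ (q + 1)).card : ℝ) := by
            rw [← sum_filter, sum_const, nsmul_eq_mul, mul_one]
        _ ≤ 2 * (2 ^ (q + 1) : ℕ) := fr_count _
        _ = W := by rw [hW]; push_cast; rw [pow_succ]; ring
    · intro η hη
      refine multilinear hB1 hC hn1 c hB hu1 hu2 η (fun u => ?_) f hf1 hε10 hE hT i0 hσ0.le (fun ξ _ => ?_)
      · by_contra hcon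
        push Not at hcon
        apply hη u
        have h1 : 2 ^ (q + 1) ≤ 2 ^ (p0 + 1) := Nat.pow_le_pow_right (by norm_num) (by omega)
        rw [V_zero (by rw [pow_succ] at h1; omega), Complex.ofReal_zero, zero_mul]
      · rw [hfan]; exact hi0 ξ
  have s2 := BS_smooth c hf1 t' l hl hq3 hεw0 hqε
  have s3 : ‖BS c f (fun j => bx (t' j) (l j))‖ ≤ ‖BS c f (fun j => bx (t' j) (l j))
      - BS c f (fun j => sm (2 ^ q) (bx (t' j) (l j)))‖ + ‖BS c f (fun j => sm (2 ^ q) (bx (t' j) (l j)))‖ := by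
    calc _ = ‖(BS c f (fun j => bx (t' j) (l j)) - BS c f (fun j => sm (2 ^ q) (bx (t' j) (l j))))
        + BS c f (fun j => sm (2 ^ q) (bx (t' j) (l j)))‖ := by rw [sub_add_cancel]
      _ ≤ _ := norm_add_le _ _
  have f1 : ((k : ℝ) + r) * (2 ^ (k + r) * (M ^ r * (2 * εw))) ≤ ε / 2 * M ^ r := by
    have e1 : ε = εw * (4 * ((k + r + 1 : ℝ) * 2 ^ (k + r))) := by rw [hεw]; field_simp
    have e2 : ε / 2 * (M : ℝ) ^ r = ((k + r + 1 : ℝ)) * (2 ^ (k + r) * (M ^ r * (2 * εw))) := by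
      rw [e1]; ring
    rw [e2]
    apply mul_le_mul_of_nonneg_right _ (by positivity)
    linarith
  have f2 : W ^ r * T = ε / 2 * M ^ r := by
    have e1 : A1 * ε1 = ε / 4 := by rw [hε1]; field_simp
    have e2 : A2 * σ = ε / 4 := by rw [hσ]; field_simp
    have e3 : W ^ r * T = M ^ r * (A1 * ε1 + A2 * σ) := by rw [hTdef, hA1, hA2]; ring
    rw [e3, e1, e2]
    ring
  calc _ ≤ _ := s3
    _ ≤ ((k : ℝ) + r) * (2 ^ (k + r) * (M ^ r * (2 * εw))) + W ^ r * T := add_le_add s2 s1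
    _ ≤ ε / 2 * M ^ r + ε / 2 * M ^ r := by rw [f2]; exact add_le_add f1 le_rfl
    _ = _ := by ring

end Pool.Agent.K6.H82.GU
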