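import Pool.Agent.K6.H82.GU.GU12

/-! From the residues to the integers. -/

set_option autoImplicit false

namespace Pool.Agent.K6.H82.GU

open Finset Pool.Agent.W41 Pool.Agent.W41.FU Pool.Agent.H499R2.ND Pool.Agent.H499R2.CO

section

variable {M : ℕ} [NeZero M] {ι ρ : Type*} [Fintype ι] [Fintype ρ] [DecidableEq ι] [DecidableEq ρ]

/-- value of a linear form at an integer vector -/
def lin (c : ι → ρ → ℤ) (i : ι) (z : ρ → ℤ) : ℤ := ∑ u, c i u * z u

theorem emb_cast {φ : ℤ → ℝ} {a b : ℕ} (n : ℤ) (h : n.natAbs + b < M) :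
    emb M φ a b (n : ZMod M) = res a b φ n := by
  unfold emb res
  by_cases h1 : (a : ℤ) < n ∧ n ≤ b
  · have h2 : (n : ZMod M) = ((n.toNat : ℕ) : ZMod M) := by
      have : ((n.toNat : ℕ) : ℤ) = n := Int.toNat_of_nonneg (by omega)
      rw [← Int.cast_natCast, this]
    have h3 : ((n : ZMod M)).val = n.toNat := by
      rw [h2]; exact ZMod.val_natCast_of_lt (by omega)
    rw [if_pos h1, h3, if_pos (by omega)]
    congr 1
    exact Int.toNat_of_nonneg (by omega)
  · rw [if_neg h1, if_neg]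
    intro h2
    apply h1
    set v := ((n : ZMod M)).val with hv
    have h3 : ((v : ℤ) : ZMod M) = (n : ZMod M) := by
      rw [Int.cast_natCast, hv, ZMod.natCast_zmod_val]
    rw [ZMod.intCast_eq_intCast_iff_dvd_sub] at h3
    have h4 : n - v = 0 := by
      apply Int.eq_zero_of_abs_lt_dvd h3
      rw [abs_lt]; omega
    omega

theorem bx_mem {A B : ℤ} (h : (B - A).toNat < M) (y : ZMod M) :
    bx (A : ZMod M) (B - A).toNat y = if y ∈ (Ioc A B).image (fun z : ℤ => (z : ZMod M)) then 1 else 0 := by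
  unfold bx emb
  by_cases h1 : y ∈ (Ioc A B).image (fun z : ℤ => (z : ZMod M))
  · rw [if_pos h1]
    rw [mem_image] at h1
    obtain ⟨z, hz, rfl⟩ := h1
    rw [mem_Ioc] at hz
    have h2 : (z : ZMod M) + -(A : ZMod M) = (((z - A).toNat : ℕ) : ZMod M) := by
      have : (((z - A).toNat : ℕ) : ℤ) = z - A := Int.toNat_of_nonneg (by omega)
      rw [← Int.cast_natCast, this]
      push_cast
      ring
    rw [h2, ZMod.val_natCast_of_lt (by omega), if_pos (by omega)]
    simp
  · rw [if_neg h1, if_neg]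
    · simp
    · intro h2
      apply h1
      rw [mem_image]
      refine ⟨A + (y + -(A : ZMod M)).val, ?_, ?_⟩
      · rw [mem_Ioc]; omega
      · push_cast
        rw [ZMod.natCast_zmod_val]
        ring

theorem BS_int (c : ι → ρ → ℤ) (g : ι → ZMod M → ℂ) (A B : ρ → ℤ) (h : ∀ j, (B j - A j).toNat < M) :
    BS c g (fun j => bx (A j : ZMod M) (B j - A j).toNat)
      = ∑ z ∈ Fintype.piFinset (fun j => Ioc (A j) (B j)), ∏ i, g i ((lin c i z : ℤ) : ZMod M) := by
  unfold BS
  have e1 : ∀ x : ρ → ZMod M, (∏ i, g i (lf c i x)) * ∏ j, bx (A j : ZMod M) (B j - A j).toNat (x j)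
      = if x ∈ Fintype.piFinset (fun j => (Ioc (A j) (B j)).image (fun z : ℤ => (z : ZMod M)))
        then ∏ i, g i (lf c i x) else 0 := by
    intro x
    have e2 : ∏ j, bx (A j : ZMod M) (B j - A j).toNat (x j)
        = if ∀ j ∈ univ, x j ∈ (Ioc (A j) (B j)).image (fun z : ℤ => (z : ZMod M)) then 1 else 0 := by
      simp only [bx_mem (h _)]
      rw [Finset.prod_ite_zero]
      simp
    rw [e2, mul_ite, mul_one, mul_zero]
    simp only [Fintype.mem_piFinset, mem_univ, forall_true_left]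
  rw [sum_congr rfl (fun x _ => e1 x), ← sum_filter, filter_mem_eq_inter, univ_inter]
  symm
  apply sum_bij (fun (z : ρ → ℤ) _ => fun j => (z j : ZMod M))
  · intro z hz
    rw [Fintype.mem_piFinset] at hz ⊢
    intro j
    exact mem_image_of_mem _ (hz j)
  · intro z hz z' hz' hzz
    rw [Fintype.mem_piFinset] at hz hz'
    funext j
    have h1 : (z j : ZMod M) = (z' j : ZMod M) := congrFun hzz j
    have h2 := hz j
    have h3 := hz' j
    rw [mem_Ioc] at h2 h3
    have h4 := h j
    rw [ZMod.intCast_eq_intCast_iff_dvd_sub] at h1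
    have h5 : z' j - z j = 0 := by
      apply Int.eq_zero_of_abs_lt_dvd h1
      rw [abs_lt]; omega
    omega
  · intro x hx
    rw [Fintype.mem_piFinset] at hx
    have : ∀ j, ∃ z : ℤ, z ∈ Ioc (A j) (B j) ∧ (z : ZMod M) = x j := by
      intro j
      have := hx j
      rw [mem_image] at this
      exact this
    choose z hz1 hz2 using this
    exact ⟨z, by rw [Fintype.mem_piFinset]; exact hz1, funext hz2⟩
  · intro z _
    apply prod_congr rfl
    intro i _
    congr 1
    unfold lf lin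
    push_cast
    rfl

/-- the Fourier coefficients of the balanced function -/
theorem bal_an {s : ℤ} (hs : s = 1 ∨ s = -1) {σ : ℝ} (hσ : 0 < σ) : ∃ N0 : ℕ, 1 ≤ N0 ∧ ∀ S : Set ℤ, Inv 1 S →
    ∀ δ : ℝ, HD s S δ → ∀ N : ℕ, N0 ≤ N → ∀ (M : ℕ) [NeZero M], N < M → ∀ a b : ℕ, a ≤ b → b ≤ N → ∀ ξ,
    ‖an (fun x => (emb M (bal s S δ) a b x : ℂ)) ξ‖ ≤ σ := by
  obtain ⟨N0, hN0, h⟩ := fourier_int hs (show 0 < min σ 1 by positivity) (min_le_right _ _)
  refine ⟨N0, hN0, fun S hS δ hδ N hN M _ hNM a b hab hb ξ => ?_⟩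
  have hM : (0 : ℝ) < M := by exact_mod_cast NeZero.pos M
  have h1 := h S hS δ hδ N hN b hb a hab (-((ξ.valMinAbs : ℝ) / M))
  have e1 : an (fun x => (emb M (bal s S δ) a b x : ℂ)) ξ
      = (M : ℂ)⁻¹ * EE (res a b (bal s S δ)) N (-((ξ.valMinAbs : ℝ) / M)) := by
    unfold an
    rw [emb_sumC _ hab (by omega)]
    congr 1
    unfold EE
    have e2 : ∀ n : ℕ, ch (-(ξ * (n : ZMod M))) = ee (-((ξ.valMinAbs : ℝ) / M)) (n : ℕ) := by
      intro n
      have e3 : -(ξ * (n : ZMod M)) = ((-(ξ.valMinAbs * n) : ℤ) : ZMod M) := by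
        push_cast
        rfl
      rw [e3, ch_intCast]
      unfold ee
      congr 2
      push_cast
      ring
    have e4 : ∑ n ∈ Icc 1 N, (res a b (bal s S δ) (n : ℕ) : ℂ) * ee (-((ξ.valMinAbs : ℝ) / M)) (n : ℕ)
        = ∑ n ∈ Ioc a b, (bal s S δ (n : ℕ) : ℂ) * ee (-((ξ.valMinAbs : ℝ) / M)) (n : ℕ) := by
      symm
      apply sum_subset_zero_on_sdiff
      · intro n hn
        rw [mem_Ioc] at hn
        rw [mem_Icc]; omega
      · intro n hn
        rw [mem_sdiff, mem_Ioc] at hn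
        have : res a b (bal s S δ) (n : ℕ) = 0 := by
          unfold res
          rw [if_neg]
          intro h2
          apply hn.2
          omega
        rw [this, Complex.ofReal_zero, zero_mul]
      · intro n hn
        rw [mem_Ioc] at hn
        have : res a b (bal s S δ) (n : ℕ) = bal s S δ (n : ℕ) := by
          unfold res
          rw [if_pos (by omega)]
        rw [this]
    rw [e4]
    apply sum_congr rfl
    intro n _
    rw [e2]
  rw [e1, norm_mul, norm_inv, Complex.norm_natCast, inv_mul_le_iff₀ hM]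
  refine h1.trans ?_
  have h2 : (N : ℝ) ≤ M := by exact_mod_cast hNM.le
  calc min σ 1 * N ≤ σ * N := mul_le_mul_of_nonneg_right (min_le_left _ _) (Nat.cast_nonneg _)
    _ ≤ σ * M := mul_le_mul_of_nonneg_left h2 hσ.le
    _ = _ := mul_comm _ _

end

end Pool.Agent.K6.H82.GU
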