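import Pool.Agent.K6.H82.GU.GU13

/-! Systems of linear forms in invariant sets. -/

set_option autoImplicit false

namespace Pool.Agent.K6.H82.GU

open Finset Pool.Agent.W41 Pool.Agent.W41.FU Pool.Agent.H499R2.ND Pool.Agent.H499R2.CO

section

variable {ι ρ : Type} [Fintype ι] [Fintype ρ] [DecidableEq ι] [DecidableEq ρ]

/-- the sum of the products over the integer points of a box -/
noncomputable def IS (c : ι → ρ → ℤ) (s m : ι → ℤ) (A B : ρ → ℤ) (F : ι → ℤ → ℝ) : ℝ :=
  ∑ z ∈ Fintype.piFinset (fun j => Ioc (A j) (B j)), ∏ i, F i (s i * (lin c i z + m i))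

theorem s_natAbs {s : ℤ} (hs : s = 1 ∨ s = -1) (x : ℤ) : (s * x).natAbs = x.natAbs := by
  rcases hs with rfl | rfl
  · rw [one_mul]
  · rw [neg_one_mul, Int.natAbs_neg]

/-- FUNCTIONS: a balanced function of an invariant set and arbitrary synchronous functions -/
theorem funcs (c : ι → ρ → ℤ)
    (hc1 : ∀ i, ∃ u, c i u ≠ 0) (hc2 : ∀ i j, i ≠ j → ∃ u v, c i u * c j v - c i v * c j u ≠ 0)
    (s : ι → ℤ) (hs : ∀ i, s i = 1 ∨ s i = -1) {ε : ℝ} (hε : 0 < ε) :
    ∃ N0 : ℕ, 1 ≤ N0 ∧ ∀ i0 : ι, ∀ S : Set ℤ, Inv 1 S → ∀ δ : ℝ, HD (s i0) S δ → ∀ φ : ι → ℤ → ℝ,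
      (∀ i, φ i ∈ SameT (s i)) → φ i0 = bal (s i0) S δ → ∀ N : ℕ, N0 ≤ N → ∀ A B : ρ → ℤ,
      (∀ j, -(2 * N : ℤ) ≤ A j) → (∀ j, B j ≤ 2 * N) → ∀ m : ι → ℤ, ∀ a b : ι → ℕ, (∀ i, a i ≤ b i) → (∀ i, b i ≤ N) →
      |IS c s m A B (fun i => res (a i) (b i) (φ i))| ≤ ε * N ^ Fintype.card ρ := by
  set r := Fintype.card ρ with hr
  set Q : ℕ := ∑ i, ∑ u, (c i u).natAbs with hQ
  have hlin : ∀ (i : ι) (z : ρ → ℤ) (N : ℕ), (∀ j, (z j).natAbs ≤ 2 * N) → (lin c i z).natAbs ≤ Q * (2 * N) := by
    intro i z N hz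
    have h1 : (lin c i z).natAbs ≤ ∑ u, (c i u).natAbs * (2 * N) := by
      unfold lin
      refine (Int.natAbs_sum_le _ _).trans (sum_le_sum fun u _ => ?_)
      rw [Int.natAbs_mul]
      exact Nat.mul_le_mul_left _ (hz u)
    rw [← sum_mul] at h1
    refine h1.trans (Nat.mul_le_mul_right _ ?_)
    exact single_le_sum (f := fun i => ∑ u, (c i u).natAbs) (fun _ _ => Nat.zero_le _) (mem_univ i)
  set L0 : ℕ := 4 * Q + 8 with hL0
  set L : ℝ := 2 * L0 with hL
  have hL1 : 1 ≤ L := by rw [hL, hL0]; push_cast; have : (0 : ℝ) ≤ Q := Nat.cast_nonneg _; linarith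
  obtain ⟨σ, hσ, N0, h0⟩ := core (fun i u => s i * c i u) (fun i => by
      obtain ⟨u, hu⟩ := hc1 i
      refine ⟨u, mul_ne_zero ?_ hu⟩
      rcases hs i with h | h <;> rw [h] <;> norm_num) (fun i j hij => by
      obtain ⟨u, v, huv⟩ := hc2 i j hij
      refine ⟨u, v, ?_⟩
      have e : s i * c i u * (s j * c j v) - s i * c i v * (s j * c j u)
          = s i * s j * (c i u * c j v - c i v * c j u) := by ring
      rw [e]
      refine mul_ne_zero (mul_ne_zero ?_ ?_) huv
      · rcases hs i with h | h <;> rw [h] <;> norm_num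
      · rcases hs j with h | h <;> rw [h] <;> norm_num) hL1 (show 0 < ε / L ^ r by positivity)
  obtain ⟨N1, hN1, h1⟩ := bal_an (s := 1) (Or.inl rfl) hσ
  obtain ⟨N2, hN2, h2⟩ := bal_an (s := -1) (Or.inr rfl) hσ
  refine ⟨N0 + N1 + N2 + 1, by omega, ?_⟩
  intro i0 S hS δ hδ φ hφ hφ0 N hN A B hA hB m a b hab hbN
  have hRHS : 0 ≤ ε * (N : ℝ) ^ r := by positivity
  -- large shifts
  by_cases hm : ∃ i, (2 * Q + 1) * N < (m i).natAbs
  · obtain ⟨i, hi⟩ := hm
    have : IS c s m A B (fun i => res (a i) (b i) (φ i)) = 0 := by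
      unfold IS
      apply sum_eq_zero
      intro z hz
      rw [Fintype.mem_piFinset] at hz
      apply prod_eq_zero (mem_univ i)
      show res (a i) (b i) (φ i) (s i * (lin c i z + m i)) = 0
      unfold res
      rw [if_neg]
      intro h3
      have h4 := hlin i z N (fun j => by
        have := hz j
        rw [mem_Ioc] at this
        have := hA j
        have := hB j
        omega)
      have h5 : (s i * (lin c i z + m i)).natAbs ≤ N := by
        have := hbN i
        omega
      rw [s_natAbs (hs i)] at h5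
      have h6 : (m i).natAbs ≤ (lin c i z + m i).natAbs + (lin c i z).natAbs := by omega
      have h7 : (2 * Q + 1) * N = Q * (2 * N) + N := by ring
      omega
    rw [this, abs_zero]
    exact hRHS
  push Not at hm
  -- the modulus
  obtain ⟨M, hMp, hM1, hM2⟩ := Nat.exists_prime_lt_and_le_two_mul (L0 * N) (by
    have : 0 < N := by omega
    positivity)
  have : NeZero M := ⟨hMp.ne_zero⟩
  have hNM : N < M := by
    have : N ≤ L0 * N := Nat.le_mul_of_pos_left N (by omega)
    omega
  have hML : (M : ℝ) ≤ L * N := by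
    rw [hL]
    have : (M : ℝ) ≤ ((2 * (L0 * N) : ℕ) : ℝ) := by exact_mod_cast hM2
    push_cast at this
    linarith
  have hside : ∀ j, (B j - A j).toNat < M := by
    intro j
    have h3 := hA j
    have h4 := hB j
    have h5 : L0 * N = 4 * Q * N + 8 * N := by rw [hL0]; ring
    omega
  have hbal : ∀ ξ : ZMod M, ‖an (fun x => (emb M (φ i0) (a i0) (b i0) x : ℂ)) ξ‖ ≤ σ := by
    intro ξ
    rw [hφ0]
    rcases hs i0 with h3 | h3
    · rw [h3] at hδ ⊢
      exact h1 S hS δ hδ N (by omega) M hNM _ _ (hab i0) (hbN i0) ξ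
    · rw [h3] at hδ ⊢
      exact h2 S hS δ hδ N (by omega) M hNM _ _ (hab i0) (hbN i0) ξ
  have key := h0 N (by omega) M hMp hNM hML s hs φ hφ a b hab hbN (fun i => ((s i * m i : ℤ) : ZMod M))
    (fun j => (A j : ZMod M)) (fun j => (B j - A j).toNat) hside i0 hbal
  rw [BS_int _ _ A B hside] at key
  have e1 : ∑ z ∈ Fintype.piFinset (fun j => Ioc (A j) (B j)), ∏ i,
      (fun i (y : ZMod M) => (emb M (φ i) (a i) (b i) (y + ((s i * m i : ℤ) : ZMod M)) : ℂ)) i
        ((lin (fun i u => s i * c i u) i z : ℤ) : ZMod M)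
      = ((IS c s m A B (fun i => res (a i) (b i) (φ i)) : ℝ) : ℂ) := by
    unfold IS
    push_cast
    apply sum_congr rfl
    intro z hz
    rw [Fintype.mem_piFinset] at hz
    apply prod_congr rfl
    intro i _
    have h4 := hlin i z N (fun j => by
      have := hz j
      rw [mem_Ioc] at this
      have := hA j
      have := hB j
      omega)
    have e2 : ((lin (fun i u => s i * c i u) i z : ℤ) : ZMod M) + (s i : ZMod M) * (m i : ZMod M)
        = ((s i * (lin c i z + m i) : ℤ) : ZMod M) := by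
      rw [← Int.cast_mul, ← Int.cast_add]
      congr 1
      unfold lin
      rw [mul_add, mul_sum]
      congr 1
      apply sum_congr rfl
      intro u _
      ring
    rw [e2, emb_cast]
    rw [s_natAbs (hs i)]
    have h5 := hm i
    have h6 := hbN i
    have h7 : (lin c i z + m i).natAbs ≤ (lin c i z).natAbs + (m i).natAbs := Int.natAbs_add_le _ _
    have h8 : (2 * Q + 1) * N = 2 * (Q * N) + N := by ring
    have h9 : Q * (2 * N) = 2 * (Q * N) := by ring
    have h10 : L0 * N = 4 * (Q * N) + 8 * N := by rw [hL0]; ring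
    omega
  rw [e1, Complex.norm_real, Real.norm_eq_abs] at key
  refine key.trans ?_
  calc ε / L ^ r * (M : ℝ) ^ r ≤ ε / L ^ r * (L * N) ^ r := by
        apply mul_le_mul_of_nonneg_left _ (by positivity)
        exact pow_le_pow_left₀ (Nat.cast_nonneg _) hML r
    _ = _ := by
      have hLr : L ^ r ≠ 0 := by positivity
      rw [mul_pow L (N : ℝ) r, ← mul_assoc, div_mul_cancel₀ _ hLr]

theorem ind_same {s : ℤ} (hs : s = 1 ∨ s = -1) {S : Set ℤ} (hS : Inv 1 S) : ind s S ∈ SameT s := by
  have h := bal_same hs hS (δ := 0) le_rfl zero_le_one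
  have e : bal s S 0 = ind s S := by
    funext x
    unfold bal
    rw [sub_zero]
  rwa [e] at h

theorem const_same (s : ℤ) {δ : ℝ} (h0 : 0 ≤ δ) (h1 : δ ≤ 1) : (fun _ => δ) ∈ SameT s :=
  ⟨fun _ => by rw [abs_of_nonneg h0]; exact h1, fun _ _ _ _ => rfl⟩

/-- COUNTING -/
theorem count (c : ι → ρ → ℤ)
    (hc1 : ∀ i, ∃ u, c i u ≠ 0) (hc2 : ∀ i j, i ≠ j → ∃ u v, c i u * c j v - c i v * c j u ≠ 0)
    (s : ι → ℤ) (hs : ∀ i, s i = 1 ∨ s i = -1) {ε : ℝ} (hε : 0 < ε) :
    ∃ N0 : ℕ, 1 ≤ N0 ∧ ∀ S : ι → Set ℤ, (∀ i, Inv 1 (S i)) → ∀ δ : ι → ℝ, (∀ i, HD (s i) (S i) (δ i)) →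
      ∀ N : ℕ, N0 ≤ N → ∀ A B : ρ → ℤ,
      (∀ j, -(2 * N : ℤ) ≤ A j) → (∀ j, B j ≤ 2 * N) → ∀ m : ι → ℤ, ∀ a b : ι → ℕ, (∀ i, a i ≤ b i) → (∀ i, b i ≤ N) →
      |IS c s m A B (fun i => res (a i) (b i) (ind (s i) (S i)))
        - (∏ i, δ i) * IS c s m A B (fun i => res (a i) (b i) (fun _ => 1))| ≤ ε * N ^ Fintype.card ρ := by
  set k := Fintype.card ι with hk
  obtain ⟨N0, hN0, h⟩ := funcs c hc1 hc2 s hs (show 0 < ε / (k + 1) by positivity)
  refine ⟨N0, hN0, ?_⟩
  intro S hS δ hδ N hN A B hA hB m a b hab hbN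
  have hδ01 : ∀ i, 0 ≤ δ i ∧ δ i ≤ 1 := fun i => HD_mem (hs i) (hδ i)
  -- hybrids
  have key : ∀ t : Finset ι, |IS c s m A B (fun i => res (a i) (b i) (if i ∈ t then ind (s i) (S i) else fun _ => δ i))
      - IS c s m A B (fun i => res (a i) (b i) (fun _ => δ i))| ≤ t.card * (ε / (k + 1) * N ^ Fintype.card ρ) := by
    intro t
    induction t using Finset.induction_on with
    | empty => simp
    | insert i t hi ih =>
      have h1 := h i (S i) (hS i) (δ i) (hδ i)
        (fun j => if j = i then bal (s i) (S i) (δ i) else (if j ∈ t then ind (s j) (S j) else fun _ => δ j)) (by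
          intro j
          split_ifs with h1 h2
          · rw [h1]; exact bal_same (hs i) (hS i) (hδ01 i).1 (hδ01 i).2
          · exact ind_same (hs j) (hS j)
          · exact const_same _ (hδ01 j).1 (hδ01 j).2) (by simp) N hN A B hA hB m a b hab hbN
      have e1 : IS c s m A B (fun j => res (a j) (b j) (if j ∈ insert i t then ind (s j) (S j) else fun _ => δ j))
          - IS c s m A B (fun j => res (a j) (b j) (if j ∈ t then ind (s j) (S j) else fun _ => δ j))
          = IS c s m A B (fun j => res (a j) (b j)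
            (if j = i then bal (s i) (S i) (δ i) else (if j ∈ t then ind (s j) (S j) else fun _ => δ j))) := by
        unfold IS
        rw [← sum_sub_distrib]
        apply sum_congr rfl
        intro z _
        rw [← mul_prod_erase univ _ (mem_univ i), ← mul_prod_erase univ _ (mem_univ i),
          ← mul_prod_erase univ _ (mem_univ i)]
        beta_reduce
        rw [if_pos (mem_insert_self i t), if_neg hi, if_pos rfl]
        have e2 : ∏ j ∈ univ.erase i, res (a j) (b j) (if j ∈ insert i t then ind (s j) (S j) else fun _ => δ j)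
              (s j * (lin c j z + m j))
            = ∏ j ∈ univ.erase i, res (a j) (b j) (if j ∈ t then ind (s j) (S j) else fun _ => δ j)
              (s j * (lin c j z + m j)) := by
          apply prod_congr rfl
          intro j hj
          have : j ∈ insert i t ↔ j ∈ t := by
            rw [mem_insert]
            constructor
            · rintro (h | h)
              · exact absurd h (ne_of_mem_erase hj)
              · exact h
            · exact Or.inr
          simp only [this]
        have e3 : ∏ j ∈ univ.erase i, res (a j) (b j) (if j = i then bal (s i) (S i) (δ i) else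
              (if j ∈ t then ind (s j) (S j) else fun _ => δ j)) (s j * (lin c j z + m j))
            = ∏ j ∈ univ.erase i, res (a j) (b j) (if j ∈ t then ind (s j) (S j) else fun _ => δ j)
              (s j * (lin c j z + m j)) := by
          apply prod_congr rfl
          intro j hj
          rw [if_neg (ne_of_mem_erase hj)]
        rw [e2, e3, ← sub_mul]
        congr 1
        unfold res bal
        split_ifs <;> ring
      rw [← e1] at h1
      rw [card_insert_of_notMem hi]
      push_cast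
      have h2 := abs_sub_le (IS c s m A B (fun j => res (a j) (b j) (if j ∈ insert i t then ind (s j) (S j) else fun _ => δ j)))
        (IS c s m A B (fun j => res (a j) (b j) (if j ∈ t then ind (s j) (S j) else fun _ => δ j)))
        (IS c s m A B (fun i => res (a i) (b i) (fun _ => δ i)))
      linarith
  have h1 := key univ
  simp only [mem_univ, if_true] at h1
  rw [card_univ, ← hk] at h1
  have e1 : IS c s m A B (fun i => res (a i) (b i) (fun _ => δ i))
      = (∏ i, δ i) * IS c s m A B (fun i => res (a i) (b i) (fun _ => 1)) := by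
    unfold IS
    rw [mul_sum]
    apply sum_congr rfl
    intro z _
    rw [← prod_mul_distrib]
    apply prod_congr rfl
    intro i _
    show res (a i) (b i) (fun _ => δ i) _ = δ i * res (a i) (b i) (fun _ => 1) _
    unfold res
    split_ifs <;> simp
  rw [e1] at h1
  refine h1.trans ?_
  have h3 : (0 : ℝ) ≤ (N : ℝ) ^ Fintype.card ρ := by positivity
  calc (k : ℝ) * (ε / (k + 1) * N ^ Fintype.card ρ) = (k / (k + 1)) * (ε * N ^ Fintype.card ρ) := by ring
    _ ≤ 1 * (ε * N ^ Fintype.card ρ) := by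
        apply mul_le_mul_of_nonneg_right _ (by positivity)
        rw [div_le_one (by positivity)]
        linarith
    _ = _ := one_mul _

end

end Pool.Agent.K6.H82.GU
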