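import Pool.Agent.K6.H82.GU.GU14

/-! Counting lemmas for the corollaries. -/

set_option autoImplicit false

namespace Pool.Agent.K6.H82.GU

open Finset

/-- the number of progressions of length `q + 1` in `[1, N]` -/
theorem ap_sum (q N : ℕ) (hq : 1 ≤ q) :
    |((∑ h ∈ Icc 1 N, (N - q * h) : ℕ) : ℝ) - (N : ℝ) ^ 2 / (2 * q)| ≤ (N : ℝ) + q := by
  set H := N / q with hH
  obtain ⟨ρ, hρ, hN⟩ : ∃ ρ, ρ < q ∧ N = q * H + ρ := ⟨N % q, Nat.mod_lt _ hq, (Nat.div_add_mod N q).symm⟩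
  have hHN : H ≤ N := Nat.div_le_self _ _
  have h1 : ∑ h ∈ Icc 1 N, (N - q * h) = ∑ h ∈ Icc 1 H, (N - q * h) := by
    symm
    apply sum_subset
    · exact Icc_subset_Icc_right hHN
    · intro h h2 h3
      rw [mem_Icc] at h2 h3
      have h4 : H < h := by omega
      have h5 : q * (H + 1) ≤ q * h := Nat.mul_le_mul_left _ h4
      have h6 : q * (H + 1) = q * H + q := by ring
      omega
  have h2 : ((∑ h ∈ Icc 1 H, (N - q * h) : ℕ) : ℝ) = ∑ h ∈ Icc 1 H, ((N : ℝ) - q * h) := by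
    push_cast
    apply sum_congr rfl
    intro h hh
    rw [mem_Icc] at hh
    have h3 : q * h ≤ N := by
      have := Nat.mul_le_mul_left q hh.2
      omega
    rw [Nat.cast_sub h3]
    push_cast
    ring
  have h3 : ∀ H : ℕ, ∑ h ∈ Icc 1 H, ((N : ℝ) - q * h) = N * H - q * (H * (H + 1)) / 2 := by
    intro H
    induction H with
    | zero => simp
    | succ H ih =>
      rw [sum_Icc_succ_top (by omega), ih]
      push_cast
      ring
  rw [h1, h2, h3]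
  have hqR : (0 : ℝ) < q := by exact_mod_cast hq
  have hNR : (N : ℝ) = q * H + ρ := by exact_mod_cast hN
  have hρR : (ρ : ℝ) ≤ q := by exact_mod_cast hρ.le
  have hρ0 : (0 : ℝ) ≤ ρ := Nat.cast_nonneg _
  have hH0 : (0 : ℝ) ≤ H := Nat.cast_nonneg _
  have e1 : (N : ℝ) * H - q * (H * (H + 1)) / 2 - (N : ℝ) ^ 2 / (2 * q) = -(q * H / 2 + ρ ^ 2 / (2 * q)) := by
    rw [hNR]
    field_simp
    ring
  rw [e1, abs_neg, abs_of_nonneg (by positivity)]
  have e2 : (ρ : ℝ) ^ 2 / (2 * q) ≤ q := by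
    rw [div_le_iff₀ (by positivity)]
    nlinarith
  have e3 : (q : ℝ) * H / 2 ≤ N := by
    rw [hNR]
    have : 0 ≤ (q : ℝ) * H := by positivity
    linarith
  linarith

theorem ap_card (q N : ℕ) :
    (((Icc 1 N) ×ˢ (Icc 1 N)).filter (fun p : ℕ × ℕ => p.1 + q * p.2 ≤ N)).card = ∑ h ∈ Icc 1 N, (N - q * h) := by
  rw [card_eq_sum_card_fiberwise (f := fun p : ℕ × ℕ => p.2) (t := Icc 1 N) (by
    intro p hp
    rw [mem_coe, mem_filter, mem_product] at hp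
    exact hp.1.2)]
  apply sum_congr rfl
  intro h hh
  rw [mem_Icc] at hh
  have e : (((Icc 1 N) ×ˢ (Icc 1 N)).filter (fun p : ℕ × ℕ => p.1 + q * p.2 ≤ N)).filter (fun p : ℕ × ℕ => p.2 = h)
      = (Icc 1 (N - q * h)).image (fun x => (x, h)) := by
    ext ⟨x, y⟩
    simp only [mem_filter, mem_product, mem_Icc, mem_image, Prod.mk.injEq]
    constructor
    · rintro ⟨⟨⟨⟨h1, h2⟩, h3, h4⟩, h5⟩, rfl⟩
      exact ⟨x, ⟨h1, by omega⟩, rfl, rfl⟩
    · rintro ⟨x', ⟨h1, h2⟩, rfl, rfl⟩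
      exact ⟨⟨⟨⟨h1, by omega⟩, hh.1, hh.2⟩, by omega⟩, rfl⟩
  rw [e, card_image_of_injective _ (fun a b hab => by simpa using hab), Nat.card_Icc]
  omega

end Pool.Agent.K6.H82.GU
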