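import Pool.Agent.K6.H82.GU.GU1

/-! Smoothing operators on the integers modulo `M`. -/

set_option autoImplicit false

namespace Pool.Agent.K6.H82.GU

open Finset

variable {M : ℕ} [NeZero M]

theorem cast_inj {n : ℕ} (hn : n ≤ M) {l l' : ℕ} (hl : l < n) (hl' : l' < n) (h : (l : ZMod M) = l') : l = l' := by
  rw [ZMod.natCast_eq_natCast_iff', Nat.mod_eq_of_lt (by omega), Nat.mod_eq_of_lt (by omega)] at h
  exact h

/-- the trapezoid -/
noncomputable def V (a : ℕ) (ξ : ZMod M) : ℝ :=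
  (∑ i ∈ range a, ∑ l ∈ range (3 * a), if (l : ZMod M) - a - i = ξ then (1 : ℝ) else 0) / a

theorem inner_le {a : ℕ} (ha : 3 * a ≤ M) (ξ : ZMod M) (i : ℕ) :
    ∑ l ∈ range (3 * a), (if (l : ZMod M) - a - i = ξ then (1 : ℝ) else 0) ≤ 1 := by
  rw [← sum_filter, sum_const, nsmul_eq_mul, mul_one]
  have : ((range (3 * a)).filter fun l : ℕ => (l : ZMod M) - a - i = ξ).card ≤ 1 := by
    rw [card_le_one]
    intro l hl l' hl'
    rw [mem_filter, mem_range] at hl hl'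
    apply cast_inj ha hl.1 hl'.1
    have h := hl.2.trans hl'.2.symm
    linear_combination h
  exact_mod_cast this

theorem V_nonneg (a : ℕ) (ξ : ZMod M) : 0 ≤ V a ξ := by
  unfold V
  apply div_nonneg _ (Nat.cast_nonneg _)
  apply sum_nonneg
  intro i _
  apply sum_nonneg
  intro l _
  split_ifs <;> norm_num

theorem V_le_one {a : ℕ} (ha0 : 0 < a) (ha : 3 * a ≤ M) (ξ : ZMod M) : V a ξ ≤ 1 := by
  unfold V
  have h0 : (0 : ℝ) < a := by exact_mod_cast ha0
  rw [div_le_one h0]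
  calc ∑ i ∈ range a, ∑ l ∈ range (3 * a), (if (l : ZMod M) - a - i = ξ then (1 : ℝ) else 0)
      ≤ ∑ i ∈ range a, (1 : ℝ) := sum_le_sum fun i _ => inner_le ha ξ i
    _ = a := by simp

theorem V_one {a : ℕ} (ha0 : 0 < a) (ha : 3 * a ≤ M) {ξ : ZMod M} (hξ : fr ξ ≤ a) : V a ξ = 1 := by
  apply le_antisymm (V_le_one ha0 ha ξ)
  unfold V
  have h0 : (0 : ℝ) < a := by exact_mod_cast ha0
  rw [le_div_iff₀ h0, one_mul]
  have e : (a : ℝ) = ∑ i ∈ range a, (1 : ℝ) := by simp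
  rw [e]
  apply sum_le_sum
  intro i hi
  rw [mem_range] at hi
  set n := ξ.valMinAbs with hn
  have hn1 : n.natAbs ≤ a := hξ
  have hl : ((n + a + i).toNat : ℤ) = n + a + i := Int.toNat_of_nonneg (by omega)
  have hmem : (n + a + i).toNat ∈ range (3 * a) := by rw [mem_range]; omega
  have hval : (((n + a + i).toNat : ℕ) : ZMod M) - a - i = ξ := by
    have h1 : ((((n + a + i).toNat : ℕ) : ℤ) : ZMod M) = ((n + a + i : ℤ) : ZMod M) := by rw [hl]
    push_cast at h1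
    rw [h1, ← fr_cast ξ, ← hn]
    ring
  calc (1 : ℝ) = if (((n + a + i).toNat : ℕ) : ZMod M) - a - i = ξ then (1 : ℝ) else 0 := by rw [if_pos hval]
    _ ≤ ∑ l ∈ range (3 * a), if (l : ZMod M) - a - i = ξ then (1 : ℝ) else 0 :=
      single_le_sum (f := fun l : ℕ => if (l : ZMod M) - a - i = ξ then (1 : ℝ) else 0)
        (fun l _ => by split_ifs <;> norm_num) hmem

theorem V_zero {a : ℕ} {ξ : ZMod M} (hξ : 2 * a ≤ fr ξ) : V a ξ = 0 := by
  unfold V
  rw [sum_eq_zero, zero_div]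
  intro i hi
  rw [mem_range] at hi
  apply sum_eq_zero
  intro l hl
  rw [mem_range] at hl
  rw [if_neg]
  intro h
  have h1 : (((l : ℤ) - a - i : ℤ) : ZMod M) = ξ := by push_cast; exact h
  have h2 := fr_le_natAbs (M := M) ((l : ℤ) - a - i)
  rw [h1] at h2
  omega

/-- `L²` norm of a sum of distinct characters -/
theorem dir_norm {n : ℕ} (u : ℕ → ZMod M) (hu : ∀ l < n, ∀ l' < n, u l = u l' → l = l') :
    ∑ z : ZMod M, ‖∑ l ∈ range n, ch (u l * z)‖ ^ 2 = M * n := by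
  set a : ZMod M → ℂ := fun ξ => ∑ l ∈ range n, if u l = ξ then (1 : ℂ) else 0 with ha
  have h1 : ∀ z : ZMod M, ∑ l ∈ range n, ch (u l * z) = syn a z := by
    intro z
    unfold syn
    rw [ha]
    simp only [sum_mul]
    rw [sum_comm]
    apply sum_congr rfl
    intro l _
    rw [sum_eq_single (u l)]
    · rw [if_pos rfl, one_mul]
    · intro b _ hb
      rw [if_neg (Ne.symm hb), zero_mul]
    · intro h; exact absurd (mem_univ _) h
  simp only [h1]
  rw [parseval]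
  congr 1
  have h2 : ∀ ξ : ZMod M, ‖a ξ‖ ^ 2 = ∑ l ∈ range n, if u l = ξ then (1 : ℝ) else 0 := by
    intro ξ
    have e1 : a ξ = ((((range n).filter fun l => u l = ξ).card : ℕ) : ℂ) := by
      rw [ha]
      simp only
      rw [← sum_filter, sum_const, nsmul_eq_mul, mul_one]
    have e2 : (∑ l ∈ range n, if u l = ξ then (1 : ℝ) else 0) = ((((range n).filter fun l => u l = ξ).card : ℕ) : ℝ) := by
      rw [← sum_filter, sum_const, nsmul_eq_mul, mul_one]
    rw [e1, e2, Complex.norm_natCast]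
    have h3 : ((range n).filter fun l => u l = ξ).card ≤ 1 := by
      rw [card_le_one]
      intro l hl l' hl'
      rw [mem_filter, mem_range] at hl hl'
      exact hu l hl.1 l' hl'.1 (hl.2.trans hl'.2.symm)
    interval_cases ((range n).filter fun l => u l = ξ).card <;> norm_num
  simp only [h2]
  rw [sum_comm]
  have h3 : ∀ l ∈ range n, ∑ ξ : ZMod M, (if u l = ξ then (1 : ℝ) else 0) = 1 := by
    intro l _
    rw [sum_eq_single (u l)]
    · rw [if_pos rfl]
    · intro b _ hb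
      rw [if_neg (Ne.symm hb)]
    · intro h; exact absurd (mem_univ _) h
  rw [sum_congr rfl h3]
  simp

/-- the smoothing operator -/
noncomputable def sm (a : ℕ) (f : ZMod M → ℂ) : ZMod M → ℂ := syn (fun ξ => (V a ξ : ℂ) * an f ξ)

theorem sm_bound {a : ℕ} (ha0 : 0 < a) (ha : 3 * a ≤ M) {f : ZMod M → ℂ} (hf : ∀ x, ‖f x‖ ≤ 1) (x : ZMod M) :
    ‖sm a f x‖ ≤ 2 := by
  have h0 : (0 : ℝ) < a := by exact_mod_cast ha0
  have hM : (0 : ℝ) < M := by exact_mod_cast NeZero.pos M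
  set P : ZMod M → ℂ := fun z => ∑ l ∈ range (3 * a), ch (((l : ZMod M) - (a : ZMod M)) * z) with hP
  set Q : ZMod M → ℂ := fun z => ∑ i ∈ range a, ch ((-(i : ZMod M)) * z) with hQ
  have e1 : sm a f x = (M : ℂ)⁻¹ * ∑ y, f y * ((a : ℂ)⁻¹ * (P (x - y) * Q (x - y))) := by
    unfold sm syn
    have e2 : ∀ ξ : ZMod M, (V a ξ : ℂ) * an f ξ * ch (ξ * x) = ∑ i ∈ range a, ∑ l ∈ range (3 * a),
        if (l : ZMod M) - a - i = ξ then (a : ℂ)⁻¹ * (an f ξ * ch (ξ * x)) else 0 := by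
      intro ξ
      unfold V
      push_cast
      rw [div_eq_mul_inv, mul_assoc, mul_assoc, sum_mul]
      apply sum_congr rfl
      intro i _
      rw [sum_mul]
      apply sum_congr rfl
      intro l _
      split_ifs
      · rw [Complex.ofReal_one, one_mul]
      · rw [Complex.ofReal_zero, zero_mul]
    rw [sum_congr rfl (fun ξ _ => e2 ξ), sum_comm]
    have e3 : ∀ i ∈ range a, ∑ ξ : ZMod M, ∑ l ∈ range (3 * a),
        (if (l : ZMod M) - a - i = ξ then (a : ℂ)⁻¹ * (an f ξ * ch (ξ * x)) else 0)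
        = ∑ l ∈ range (3 * a), (a : ℂ)⁻¹ * (an f ((l : ZMod M) - (a : ZMod M) - (i : ZMod M)) *
          ch (((l : ZMod M) - (a : ZMod M) - (i : ZMod M)) * x)) := by
      intro i _
      rw [sum_comm]
      apply sum_congr rfl
      intro l _
      rw [sum_eq_single ((l : ZMod M) - a - i)]
      · rw [if_pos rfl]
      · intro b _ hb
        rw [if_neg (Ne.symm hb)]
      · intro h; exact absurd (mem_univ _) h
    rw [sum_congr rfl e3]
    have e4 : ∀ i ∈ range a, ∀ l ∈ range (3 * a),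
        (a : ℂ)⁻¹ * (an f ((l : ZMod M) - (a : ZMod M) - (i : ZMod M)) * ch (((l : ZMod M) - (a : ZMod M) - (i : ZMod M)) * x))
        = ∑ y, (M : ℂ)⁻¹ * (f y * ((a : ℂ)⁻¹ * (ch (((l : ZMod M) - (a : ZMod M)) * (x - y)) * ch ((-(i : ZMod M)) * (x - y))))) := by
      intro i _ l _
      unfold an
      rw [mul_sum, sum_mul, mul_sum]
      apply sum_congr rfl
      intro y _
      rw [← ch_add]
      have e5 : ch (((l : ZMod M) - (a : ZMod M)) * (x - y) + (-(i : ZMod M)) * (x - y))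
          = ch (-(((l : ZMod M) - (a : ZMod M) - (i : ZMod M)) * y)) * ch (((l : ZMod M) - (a : ZMod M) - (i : ZMod M)) * x) := by
        rw [← ch_add]; congr 1; ring
      rw [e5]
      ring
    rw [sum_congr rfl (fun i hi => sum_congr rfl (e4 i hi))]
    rw [mul_sum]
    have e6 : ∑ i ∈ range a, ∑ l ∈ range (3 * a), ∑ y, (M : ℂ)⁻¹ * (f y * ((a : ℂ)⁻¹ *
          (ch (((l : ZMod M) - (a : ZMod M)) * (x - y)) * ch ((-(i : ZMod M)) * (x - y)))))
        = ∑ y, ∑ i ∈ range a, ∑ l ∈ range (3 * a), (M : ℂ)⁻¹ * (f y * ((a : ℂ)⁻¹ *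
          (ch (((l : ZMod M) - (a : ZMod M)) * (x - y)) * ch ((-(i : ZMod M)) * (x - y))))) := by
      rw [sum_comm]
      rw [sum_congr rfl (fun l _ => sum_comm)]
      rw [sum_comm]
      apply sum_congr rfl
      intro y _
      rw [sum_comm]
    rw [e6]
    apply sum_congr rfl
    intro y _
    rw [hP, hQ]
    simp only
    rw [sum_mul_sum, mul_sum, mul_sum, mul_sum, sum_comm]
    apply sum_congr rfl
    intro l _
    rw [mul_sum, mul_sum, mul_sum]
  rw [e1, norm_mul, norm_inv, Complex.norm_natCast]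
  have hb : ∀ y : ZMod M, ‖f y * ((a : ℂ)⁻¹ * (P (x - y) * Q (x - y)))‖
      ≤ (a : ℝ)⁻¹ * (‖P (x - y)‖ ^ 2 / 4 + ‖Q (x - y)‖ ^ 2) := by
    intro y
    rw [norm_mul, norm_mul, norm_mul, norm_inv, Complex.norm_natCast]
    have h1 := hf y
    have h2 : ‖P (x - y)‖ * ‖Q (x - y)‖ ≤ ‖P (x - y)‖ ^ 2 / 4 + ‖Q (x - y)‖ ^ 2 := by
      nlinarith [sq_nonneg (‖P (x - y)‖ / 2 - ‖Q (x - y)‖)]
    have h3 : 0 ≤ (a : ℝ)⁻¹ * (‖P (x - y)‖ * ‖Q (x - y)‖) := by positivity
    have h4 : (a : ℝ)⁻¹ * (‖P (x - y)‖ * ‖Q (x - y)‖) ≤ (a : ℝ)⁻¹ * (‖P (x - y)‖ ^ 2 / 4 + ‖Q (x - y)‖ ^ 2) :=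
      mul_le_mul_of_nonneg_left h2 (by positivity)
    nlinarith [norm_nonneg (f y)]
  have h1 : ‖∑ y, f y * ((a : ℂ)⁻¹ * (P (x - y) * Q (x - y)))‖ ≤ M * (7 / 4) := by
    refine (norm_sum_le _ _).trans ((sum_le_sum fun y _ => hb y).trans (le_of_eq ?_))
    rw [← mul_sum, sum_add_distrib, ← sum_div]
    have r1 : ∀ F : ZMod M → ℝ, ∑ y : ZMod M, F (x - y) = ∑ y : ZMod M, F y := by
      intro F
      exact Fintype.sum_equiv (Equiv.subLeft x) _ _ (fun y => by simp [Equiv.subLeft])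
    rw [r1 (fun z => ‖P z‖ ^ 2), r1 (fun z => ‖Q z‖ ^ 2)]
    rw [dir_norm (n := 3 * a) (fun l => (l : ZMod M) - (a : ZMod M)) (fun l hl l' hl' h => cast_inj ha hl hl' (sub_left_injective h)),
      dir_norm (n := a) (fun l => -(l : ZMod M)) (fun l hl l' hl' h => cast_inj (n := a) (by omega) hl hl' (neg_injective h))]
    push_cast
    field_simp
    ring
  rw [inv_mul_le_iff₀ hM]
  linarith

end Pool.Agent.K6.H82.GU
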