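import Pool.Agent.K6.H82.GU.GU2

/-! Multilinear forms given by systems of linear forms. -/

set_option autoImplicit false

namespace Pool.Agent.K6.H82.GU

open Finset

variable {M : ℕ} [NeZero M] {ι ρ : Type*} [Fintype ι] [Fintype ρ] [DecidableEq ι] [DecidableEq ρ]

/-- the value of the linear form -/
def lf (c : ι → ρ → ℤ) (i : ι) (x : ρ → ZMod M) : ZMod M := ∑ u, (c i u : ZMod M) * x u

/-- the multilinear form -/
noncomputable def Lam (c : ι → ρ → ℤ) (η : ρ → ZMod M) (g : ι → ZMod M → ℂ) : ℂ :=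
  ∑ x : ρ → ZMod M, ch (∑ u, η u * x u) * ∏ i, g i (lf c i x)

theorem Lam_expand (c : ι → ρ → ℤ) (η : ρ → ZMod M) (a : ι → ZMod M → ℂ) :
    Lam c η (fun i => syn (a i)) = ∑ ξ : ι → ZMod M, (∏ i, a i (ξ i)) *
      (if (fun u => η u + ∑ i, ξ i * (c i u : ZMod M)) = 0 then (M : ℂ) ^ Fintype.card ρ else 0) := by
  unfold Lam
  have e1 : ∀ x : ρ → ZMod M, ch (∑ u, η u * x u) * ∏ i, syn (a i) (lf c i x)
      = ∑ ξ : ι → ZMod M, (∏ i, a i (ξ i)) * ch (∑ u, (η u + ∑ i, ξ i * (c i u : ZMod M)) * x u) := by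
    intro x
    unfold syn
    rw [Finset.prod_univ_sum, Fintype.piFinset_univ, mul_sum]
    apply sum_congr rfl
    intro ξ _
    rw [prod_mul_distrib, ← ch_finsum]
    have e2 : ∑ u, (η u + ∑ i, ξ i * (c i u : ZMod M)) * x u = ∑ u, η u * x u + ∑ i, ξ i * lf c i x := by
      unfold lf
      simp only [add_mul, sum_add_distrib, mul_sum, sum_mul]
      congr 1
      rw [sum_comm]
      apply sum_congr rfl
      intro i _
      apply sum_congr rfl
      intro u _
      ring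
    rw [e2, ch_add]
    ring
  rw [sum_congr rfl (fun x _ => e1 x), sum_comm]
  apply sum_congr rfl
  intro ξ _
  rw [← mul_sum, ch_sum_pi]

theorem Lam_zero (c : ι → ρ → ℤ) (η : ρ → ZMod M) (a : ι → ZMod M → ℂ)
    (h : ∀ ξ : ι → ZMod M, (∀ i, a i (ξ i) ≠ 0) → (∀ u, η u + ∑ i, ξ i * (c i u : ZMod M) = 0) → False) :
    Lam c η (fun i => syn (a i)) = 0 := by
  rw [Lam_expand]
  apply sum_eq_zero
  intro ξ _
  by_cases h1 : ∀ i, a i (ξ i) ≠ 0
  · rw [if_neg, mul_zero]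
    intro h2
    exact h ξ h1 (fun u => congrFun h2 u)
  · push Not at h1
    obtain ⟨i, hi⟩ := h1
    rw [prod_eq_zero (mem_univ i) hi, zero_mul]

/-- average -/
noncomputable def av (U : ZMod M → ℝ) : ℝ := (M : ℝ)⁻¹ * ∑ x, U x

/-- nondegenerate pair of forms -/
def Pr (M : ℕ) (c : ι → ρ → ℤ) (i j : ι) : Prop :=
  ∃ u v : ρ, IsUnit ((c i u * c j v - c i v * c j u : ℤ) : ZMod M)

theorem an_zero (U : ZMod M → ℝ) : an (fun x => (U x : ℂ)) 0 = ((av U : ℝ) : ℂ) := by
  unfold an av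
  push_cast
  congr 1
  apply sum_congr rfl
  intro x _
  rw [zero_mul, neg_zero, ch_zero, mul_one]

theorem single_av {c : ι → ρ → ℤ} {i : ι} (h : ∃ u : ρ, IsUnit ((c i u : ℤ) : ZMod M)) (U : ZMod M → ℝ) :
    ∑ x : ρ → ZMod M, U (lf c i x) = M ^ Fintype.card ρ * av U := by
  have h1 : ((∑ x : ρ → ZMod M, U (lf c i x) : ℝ) : ℂ) = ((M ^ Fintype.card ρ * av U : ℝ) : ℂ) := by
    push_cast
    have e1 : ∀ x : ρ → ZMod M, ((U (lf c i x) : ℝ) : ℂ)
        = ∑ ξ, an (fun x => (U x : ℂ)) ξ * ch (∑ u, (ξ * (c i u : ZMod M)) * x u) := by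
      intro x
      rw [← syn_an (fun x => (U x : ℂ)) (lf c i x)]
      unfold syn
      apply sum_congr rfl
      intro ξ _
      congr 2
      unfold lf
      rw [mul_sum]
      apply sum_congr rfl
      intro u _
      ring
    rw [sum_congr rfl (fun x _ => e1 x), sum_comm]
    have e2 : ∀ ξ : ZMod M, ∑ x : ρ → ZMod M, an (fun x => (U x : ℂ)) ξ * ch (∑ u, (ξ * (c i u : ZMod M)) * x u)
        = an (fun x => (U x : ℂ)) ξ * (if (fun u => ξ * (c i u : ZMod M)) = 0 then (M : ℂ) ^ Fintype.card ρ else 0) := by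
      intro ξ
      rw [← mul_sum, ch_sum_pi (fun u => ξ * (c i u : ZMod M))]
    rw [sum_congr rfl (fun ξ _ => e2 ξ), sum_eq_single 0]
    · rw [if_pos (by funext u; simp), an_zero]; ring
    · intro ξ _ hξ
      rw [if_neg, mul_zero]
      intro h3
      obtain ⟨u, hu⟩ := h
      have h4 : ξ * (c i u : ZMod M) = 0 := congrFun h3 u
      exact hξ (hu.mul_left_eq_zero.1 h4)
    · intro h; exact absurd (mem_univ _) h
  exact_mod_cast h1

theorem pair_av {c : ι → ρ → ℤ} {i j : ι} (h : Pr M c i j) (U W : ZMod M → ℝ) :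
    ∑ x : ρ → ZMod M, U (lf c i x) * W (lf c j x) = M ^ Fintype.card ρ * (av U * av W) := by
  have h1 : ((∑ x : ρ → ZMod M, U (lf c i x) * W (lf c j x) : ℝ) : ℂ)
      = ((M ^ Fintype.card ρ * (av U * av W) : ℝ) : ℂ) := by
    push_cast
    have e1 : ∀ x : ρ → ZMod M, ((U (lf c i x) : ℝ) : ℂ) * ((W (lf c j x) : ℝ) : ℂ)
        = ∑ ξ, ∑ ζ, an (fun x => (U x : ℂ)) ξ * an (fun x => (W x : ℂ)) ζ
          * ch (∑ u, (ξ * (c i u : ZMod M) + ζ * (c j u : ZMod M)) * x u) := by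
      intro x
      rw [← syn_an (fun x => (U x : ℂ)) (lf c i x), ← syn_an (fun x => (W x : ℂ)) (lf c j x)]
      unfold syn
      rw [sum_mul_sum]
      apply sum_congr rfl
      intro ξ _
      apply sum_congr rfl
      intro ζ _
      have e2 : ∑ u, (ξ * (c i u : ZMod M) + ζ * (c j u : ZMod M)) * x u = ξ * lf c i x + ζ * lf c j x := by
        unfold lf
        rw [mul_sum, mul_sum, ← sum_add_distrib]
        apply sum_congr rfl
        intro u _
        ring
      rw [e2, ch_add]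
      ring
    rw [sum_congr rfl (fun x _ => e1 x), sum_comm]
    have e2 : ∀ ξ : ZMod M, ∑ x : ρ → ZMod M, ∑ ζ, an (fun x => (U x : ℂ)) ξ * an (fun x => (W x : ℂ)) ζ
          * ch (∑ u, (ξ * (c i u : ZMod M) + ζ * (c j u : ZMod M)) * x u)
        = ∑ ζ, an (fun x => (U x : ℂ)) ξ * an (fun x => (W x : ℂ)) ζ *
          (if (fun u => ξ * (c i u : ZMod M) + ζ * (c j u : ZMod M)) = 0 then (M : ℂ) ^ Fintype.card ρ else 0) := by
      intro ξ
      rw [sum_comm]
      apply sum_congr rfl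
      intro ζ _
      rw [← mul_sum, ch_sum_pi (fun u => ξ * (c i u : ZMod M) + ζ * (c j u : ZMod M))]
    rw [sum_congr rfl (fun ξ _ => e2 ξ)]
    obtain ⟨u, v, huv⟩ := h
    have key : ∀ ξ ζ : ZMod M, (fun u => ξ * (c i u : ZMod M) + ζ * (c j u : ZMod M)) = 0 → ξ = 0 ∧ ζ = 0 := by
      intro ξ ζ h3
      have h4 : ξ * (c i u : ZMod M) + ζ * (c j u : ZMod M) = 0 := congrFun h3 u
      have h5 : ξ * (c i v : ZMod M) + ζ * (c j v : ZMod M) = 0 := congrFun h3 v
      push_cast at huv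
      constructor
      · apply huv.mul_left_eq_zero.1
        linear_combination (c j v : ZMod M) * h4 - (c j u : ZMod M) * h5
      · apply huv.mul_left_eq_zero.1
        linear_combination (c i u : ZMod M) * h5 - (c i v : ZMod M) * h4
    rw [sum_eq_single 0, sum_eq_single 0]
    · rw [if_pos (by funext u; simp), an_zero, an_zero]; ring
    · intro ζ _ hζ
      rw [if_neg, mul_zero]
      intro h3
      exact hζ (key 0 ζ h3).2
    · intro h; exact absurd (mem_univ _) h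
    · intro ξ _ hξ
      apply sum_eq_zero
      intro ζ _
      rw [if_neg, mul_zero]
      intro h3
      exact hξ (key ξ ζ h3).1
    · intro h; exact absurd (mem_univ _) h
  exact_mod_cast h1

theorem av_syn (a : ZMod M → ℂ) : av (fun x => ‖syn a x‖ ^ 2) = ∑ ξ, ‖a ξ‖ ^ 2 := by
  unfold av
  rw [parseval, ← mul_assoc, inv_mul_cancel₀ (by exact_mod_cast NeZero.ne M), one_mul]

/-- second order remainder of a product -/
theorem prod_rem (L H : ι → ℂ) (hL : ∀ j, ‖L j‖ ≤ 2) (hg : ∀ j, ‖L j + H j‖ ≤ 2) (s : Finset ι) :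
    ‖∏ j ∈ s, (L j + H j) - ∏ j ∈ s, L j - ∑ j ∈ s, H j * ∏ l ∈ s.erase j, L l‖
      ≤ 2 ^ s.card * ∑ a ∈ s, ∑ b ∈ s.erase a, ‖H a‖ * ‖H b‖ := by
  induction s using Finset.induction_on with
  | empty => simp
  | insert j s hj ih =>
    rw [prod_insert hj, prod_insert hj, sum_insert hj, erase_insert hj, card_insert_of_notMem hj]
    set P := ∏ j ∈ s, (L j + H j) with hP
    set Q := ∏ j ∈ s, L j with hQ
    set R := ∑ j ∈ s, H j * ∏ l ∈ s.erase j, L l with hR
    have hne : ∀ i ∈ s, j ≠ i := fun i hi h => hj (h ▸ hi)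
    have e1 : ∑ i ∈ s, H i * ∏ l ∈ (insert j s).erase i, L l = L j * R := by
      rw [hR, mul_sum]
      apply sum_congr rfl
      intro i hi
      rw [erase_insert_of_ne (hne i hi), prod_insert (fun h => hj (mem_of_mem_erase h))]
      ring
    rw [e1]
    have e2 : (L j + H j) * P - L j * Q - (H j * Q + L j * R) = (L j + H j) * (P - Q - R) + H j * R := by ring
    rw [e2]
    have hRn : ‖R‖ ≤ 2 ^ s.card * ∑ i ∈ s, ‖H i‖ := by
      rw [hR, mul_sum]
      refine (norm_sum_le _ _).trans (sum_le_sum fun i hi => ?_)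
      rw [norm_mul, mul_comm]
      apply mul_le_mul_of_nonneg_right _ (norm_nonneg _)
      rw [norm_prod]
      calc ∏ l ∈ s.erase i, ‖L l‖ ≤ ∏ l ∈ s.erase i, (2 : ℝ) :=
            prod_le_prod (fun l _ => norm_nonneg _) (fun l _ => hL l)
        _ = 2 ^ (s.erase i).card := by rw [prod_const]
        _ ≤ 2 ^ s.card := pow_le_pow_right₀ (by norm_num) (card_le_card (erase_subset _ _))
    have e3 : ∑ a ∈ insert j s, ∑ b ∈ (insert j s).erase a, ‖H a‖ * ‖H b‖
        ≥ ‖H j‖ * ∑ i ∈ s, ‖H i‖ + ∑ a ∈ s, ∑ b ∈ s.erase a, ‖H a‖ * ‖H b‖ := by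
      rw [sum_insert hj, erase_insert hj, mul_sum]
      apply add_le_add le_rfl
      apply sum_le_sum
      intro a _
      exact sum_le_sum_of_subset_of_nonneg (erase_subset_erase a (subset_insert j s))
        (fun b _ _ => by positivity)
    have h2 : (0 : ℝ) ≤ 2 ^ s.card := by positivity
    calc ‖(L j + H j) * (P - Q - R) + H j * R‖ ≤ ‖L j + H j‖ * ‖P - Q - R‖ + ‖H j‖ * ‖R‖ := by
          refine (norm_add_le _ _).trans ?_
          rw [norm_mul, norm_mul]
      _ ≤ 2 * (2 ^ s.card * ∑ a ∈ s, ∑ b ∈ s.erase a, ‖H a‖ * ‖H b‖) + ‖H j‖ * (2 ^ s.card * ∑ i ∈ s, ‖H i‖) := by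
          apply add_le_add
          · exact mul_le_mul (hg j) ih (norm_nonneg _) (by norm_num)
          · exact mul_le_mul_of_nonneg_left hRn (norm_nonneg _)
      _ ≤ 2 ^ (s.card + 1) * (‖H j‖ * ∑ i ∈ s, ‖H i‖ + ∑ a ∈ s, ∑ b ∈ s.erase a, ‖H a‖ * ‖H b‖) := by
          rw [pow_succ]
          have h3 : 0 ≤ ‖H j‖ * ∑ i ∈ s, ‖H i‖ := by positivity
          nlinarith
      _ ≤ _ := mul_le_mul_of_nonneg_left e3 (by positivity)

end Pool.Agent.K6.H82.GU
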