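import Pool.Agent.K6.H82.GU.GU3

/-! One step of the telescoping. -/

set_option autoImplicit false

namespace Pool.Agent.K6.H82.GU

open Finset

variable {M : ℕ} [NeZero M] {ι ρ : Type*} [Fintype ι] [Fintype ρ] [DecidableEq ι] [DecidableEq ρ]

theorem triple {c : ι → ρ → ℤ} {i a b : ι} (hi : ∃ u, IsUnit ((c i u : ℤ) : ZMod M)) (hab : Pr M c a b)
    (d h h' : ZMod M → ℂ) {ε : ℝ} (hε : 0 < ε) (he : ∑ ξ, ‖h' ξ‖ ^ 2 ≤ ε ^ 2) :
    ∑ x : ρ → ZMod M, ‖syn d (lf c i x)‖ * (‖syn h (lf c a x)‖ * ‖syn h' (lf c b x)‖)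
      ≤ M ^ Fintype.card ρ * (ε * (∑ ξ, ‖d ξ‖ ^ 2 + ∑ ξ, ‖h ξ‖ ^ 2)) := by
  have h1 : ∀ x : ρ → ZMod M, ‖syn d (lf c i x)‖ * (‖syn h (lf c a x)‖ * ‖syn h' (lf c b x)‖)
      ≤ ε * ‖syn d (lf c i x)‖ ^ 2 + ε⁻¹ * (‖syn h (lf c a x)‖ ^ 2 * ‖syn h' (lf c b x)‖ ^ 2) := by
    intro x
    set p := ‖syn d (lf c i x)‖
    set q := ‖syn h (lf c a x)‖ * ‖syn h' (lf c b x)‖ with hq
    have e : ‖syn h (lf c a x)‖ ^ 2 * ‖syn h' (lf c b x)‖ ^ 2 = q ^ 2 := by rw [hq]; ring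
    rw [e]
    have h2 : 0 ≤ ε⁻¹ * (ε * p - q) ^ 2 := by positivity
    have h3 : ε⁻¹ * (ε * p - q) ^ 2 = ε * p ^ 2 + ε⁻¹ * q ^ 2 - 2 * (p * q) := by
      field_simp
      ring
    have h4 : 0 ≤ p * q := by positivity
    linarith
  refine (sum_le_sum fun x _ => h1 x).trans ?_
  rw [sum_add_distrib, ← mul_sum, ← mul_sum, single_av hi (fun z => ‖syn d z‖ ^ 2),
    pair_av hab (fun z => ‖syn h z‖ ^ 2) (fun z => ‖syn h' z‖ ^ 2), av_syn, av_syn, av_syn]
  have h5 : ε⁻¹ * (M ^ Fintype.card ρ * ((∑ ξ, ‖h ξ‖ ^ 2) * ∑ ξ, ‖h' ξ‖ ^ 2))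
      ≤ M ^ Fintype.card ρ * (ε * ∑ ξ, ‖h ξ‖ ^ 2) := by
    have h6 : (∑ ξ, ‖h ξ‖ ^ 2) * ∑ ξ, ‖h' ξ‖ ^ 2 ≤ (∑ ξ, ‖h ξ‖ ^ 2) * ε ^ 2 :=
      mul_le_mul_of_nonneg_left he (sum_nonneg fun _ _ => by positivity)
    calc ε⁻¹ * (M ^ Fintype.card ρ * ((∑ ξ, ‖h ξ‖ ^ 2) * ∑ ξ, ‖h' ξ‖ ^ 2))
        ≤ ε⁻¹ * (M ^ Fintype.card ρ * ((∑ ξ, ‖h ξ‖ ^ 2) * ε ^ 2)) := by
          apply mul_le_mul_of_nonneg_left _ (by positivity)
          exact mul_le_mul_of_nonneg_left h6 (by positivity)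
      _ = _ := by field_simp
  linarith

theorem step (c : ι → ρ → ℤ) (η : ρ → ZMod M) (hc1 : ∀ i, ∃ u, IsUnit ((c i u : ℤ) : ZMod M))
    (hc2 : ∀ i j, i ≠ j → Pr M c i j) (i : ι) (d : ZMod M → ℂ) (h l : ι → ZMod M → ℂ)
    (hL : ∀ j x, ‖syn (l j) x‖ ≤ 2) (hg : ∀ j x, ‖syn (l j) x + syn (h j) x‖ ≤ 2)
    (v0 : Lam c η (fun j => syn (if j = i then d else l j)) = 0)
    (v1 : ∀ j, j ≠ i → Lam c η (fun m => syn (if m = i then d else if m = j then h j else l m)) = 0)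
    {ε : ℝ} (hε : 0 < ε) (he : ∀ j, j ≠ i → ∑ ξ, ‖h j ξ‖ ^ 2 ≤ ε ^ 2) :
    ‖∑ x : ρ → ZMod M, ch (∑ u, η u * x u) * (syn d (lf c i x) *
        ∏ j ∈ univ.erase i, (syn (l j) (lf c j x) + syn (h j) (lf c j x)))‖
      ≤ M ^ Fintype.card ρ * (2 ^ Fintype.card ι * Fintype.card ι * ε *
        (Fintype.card ι * ∑ ξ, ‖d ξ‖ ^ 2 + ∑ j, ∑ ξ, ‖h j ξ‖ ^ 2)) := by
  set s : Finset ι := univ.erase i with hs
  set D : (ρ → ZMod M) → ℂ := fun x => syn d (lf c i x) with hD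
  set L : (ρ → ZMod M) → ι → ℂ := fun x j => syn (l j) (lf c j x) with hLd
  set H : (ρ → ZMod M) → ι → ℂ := fun x j => syn (h j) (lf c j x) with hHd
  have t0 : ∑ x : ρ → ZMod M, ch (∑ u, η u * x u) * (D x * ∏ j ∈ s, L x j) = 0 := by
    rw [← v0]
    unfold Lam
    apply sum_congr rfl
    intro x _
    congr 1
    rw [← mul_prod_erase univ _ (mem_univ i)]
    beta_reduce
    rw [if_pos rfl]
    congr 1
    apply prod_congr rfl
    intro j hj
    rw [if_neg (ne_of_mem_erase hj)]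
  have t1 : ∑ x : ρ → ZMod M, ch (∑ u, η u * x u) * (D x * ∑ j ∈ s, H x j * ∏ m ∈ s.erase j, L x m) = 0 := by
    have e1 : ∀ x : ρ → ZMod M, ch (∑ u, η u * x u) * (D x * ∑ j ∈ s, H x j * ∏ m ∈ s.erase j, L x m)
        = ∑ j ∈ s, ch (∑ u, η u * x u) * (D x * (H x j * ∏ m ∈ s.erase j, L x m)) := by
      intro x
      rw [mul_sum, mul_sum]
    rw [sum_congr rfl (fun x _ => e1 x), sum_comm]
    apply sum_eq_zero
    intro j hj
    have hji : j ≠ i := ne_of_mem_erase hj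
    rw [← v1 j hji]
    unfold Lam
    apply sum_congr rfl
    intro x _
    congr 1
    rw [← mul_prod_erase univ _ (mem_univ i)]
    beta_reduce
    rw [if_pos rfl]
    congr 1
    rw [← hs, ← mul_prod_erase s _ hj, if_neg hji, if_pos rfl]
    congr 1
    apply prod_congr rfl
    intro m hm
    rw [if_neg (ne_of_mem_erase (mem_of_mem_erase hm)), if_neg (ne_of_mem_erase hm)]
  have e2 : ∑ x : ρ → ZMod M, ch (∑ u, η u * x u) * (D x * ∏ j ∈ s, (L x j + H x j))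
      = ∑ x : ρ → ZMod M, ch (∑ u, η u * x u) * (D x * (∏ j ∈ s, (L x j + H x j) - ∏ j ∈ s, L x j
        - ∑ j ∈ s, H x j * ∏ m ∈ s.erase j, L x m)) := by
    have : ∀ x : ρ → ZMod M, ch (∑ u, η u * x u) * (D x * (∏ j ∈ s, (L x j + H x j) - ∏ j ∈ s, L x j
        - ∑ j ∈ s, H x j * ∏ m ∈ s.erase j, L x m)) = ch (∑ u, η u * x u) * (D x * ∏ j ∈ s, (L x j + H x j))
        - ch (∑ u, η u * x u) * (D x * ∏ j ∈ s, L x j)
        - ch (∑ u, η u * x u) * (D x * ∑ j ∈ s, H x j * ∏ m ∈ s.erase j, L x m) := by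
      intro x; ring
    rw [sum_congr rfl (fun x _ => this x), sum_sub_distrib, sum_sub_distrib, t0, t1, sub_zero, sub_zero]
  have e3 : ∑ x : ρ → ZMod M, ch (∑ u, η u * x u) * (syn d (lf c i x) *
        ∏ j ∈ s, (syn (l j) (lf c j x) + syn (h j) (lf c j x)))
      = ∑ x : ρ → ZMod M, ch (∑ u, η u * x u) * (D x * ∏ j ∈ s, (L x j + H x j)) := rfl
  rw [e3, e2]
  have hk : (s.card : ℝ) ≤ Fintype.card ι := by exact_mod_cast card_le_univ s
  have h2k : (2 : ℝ) ^ s.card ≤ 2 ^ Fintype.card ι := pow_le_pow_right₀ (by norm_num) (card_le_univ s)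
  set X : ℝ := ∑ ξ, ‖d ξ‖ ^ 2 with hX
  set Y : ι → ℝ := fun j => ∑ ξ, ‖h j ξ‖ ^ 2 with hY
  have hX0 : 0 ≤ X := sum_nonneg fun _ _ => by positivity
  have hY0 : ∀ j, 0 ≤ Y j := fun j => sum_nonneg fun _ _ => by positivity
  have hMr : (0 : ℝ) ≤ (M : ℝ) ^ Fintype.card ρ := by positivity
  calc ‖∑ x : ρ → ZMod M, ch (∑ u, η u * x u) * (D x * (∏ j ∈ s, (L x j + H x j) - ∏ j ∈ s, L x j
        - ∑ j ∈ s, H x j * ∏ m ∈ s.erase j, L x m))‖
      ≤ ∑ x : ρ → ZMod M, ‖D x‖ * (2 ^ Fintype.card ι * ∑ a ∈ s, ∑ b ∈ s.erase a, ‖H x a‖ * ‖H x b‖) := by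
        refine (norm_sum_le _ _).trans (sum_le_sum fun x _ => ?_)
        rw [norm_mul, norm_mul, ch_norm, one_mul]
        apply mul_le_mul_of_nonneg_left _ (norm_nonneg _)
        refine (prod_rem (L x) (H x) (fun j => hL j _) (fun j => hg j _) s).trans ?_
        apply mul_le_mul_of_nonneg_right h2k
        exact sum_nonneg fun _ _ => sum_nonneg fun _ _ => by positivity
    _ = 2 ^ Fintype.card ι * ∑ a ∈ s, ∑ b ∈ s.erase a, ∑ x : ρ → ZMod M, ‖D x‖ * (‖H x a‖ * ‖H x b‖) := by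
        rw [mul_sum]
        have e4 : ∀ x : ρ → ZMod M, ‖D x‖ * (2 ^ Fintype.card ι * ∑ a ∈ s, ∑ b ∈ s.erase a, ‖H x a‖ * ‖H x b‖)
            = ∑ a ∈ s, ∑ b ∈ s.erase a, 2 ^ Fintype.card ι * (‖D x‖ * (‖H x a‖ * ‖H x b‖)) := by
          intro x
          rw [mul_left_comm, mul_sum, mul_sum]
          apply sum_congr rfl
          intro a _
          rw [mul_sum, mul_sum]
        rw [sum_congr rfl (fun x _ => e4 x), sum_comm]
        apply sum_congr rfl
        intro a _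
        rw [sum_comm, mul_sum]
        apply sum_congr rfl
        intro b _
        rw [mul_sum]
    _ ≤ 2 ^ Fintype.card ι * ∑ a ∈ s, ∑ b ∈ s.erase a, M ^ Fintype.card ρ * (ε * (X + Y a)) := by
        apply mul_le_mul_of_nonneg_left _ (by positivity)
        apply sum_le_sum
        intro a ha
        apply sum_le_sum
        intro b hb
        have hab : a ≠ b := (ne_of_mem_erase hb).symm
        exact triple (hc1 i) (hc2 a b hab) d (h a) (h b) hε (he b (ne_of_mem_erase (mem_of_mem_erase hb)))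
    _ ≤ 2 ^ Fintype.card ι * ∑ a ∈ s, Fintype.card ι * (M ^ Fintype.card ρ * (ε * (X + Y a))) := by
        apply mul_le_mul_of_nonneg_left _ (by positivity)
        apply sum_le_sum
        intro a ha
        rw [sum_const, nsmul_eq_mul]
        apply mul_le_mul_of_nonneg_right
        · exact_mod_cast card_le_univ _
        · have := hY0 a; positivity
    _ = 2 ^ Fintype.card ι * (Fintype.card ι * (M ^ Fintype.card ρ * ε)) * (s.card * X + ∑ a ∈ s, Y a) := by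
        rw [← mul_sum]
        have : ∑ a ∈ s, (M : ℝ) ^ Fintype.card ρ * (ε * (X + Y a)) = M ^ Fintype.card ρ * ε * (s.card * X + ∑ a ∈ s, Y a) := by
          have : ∀ a ∈ s, (M : ℝ) ^ Fintype.card ρ * (ε * (X + Y a)) = M ^ Fintype.card ρ * ε * X + M ^ Fintype.card ρ * ε * Y a := by
            intro a _; ring
          rw [sum_congr rfl this, sum_add_distrib, sum_const, nsmul_eq_mul, ← mul_sum]
          ring
        rw [this]
        ring
    _ ≤ 2 ^ Fintype.card ι * (Fintype.card ι * (M ^ Fintype.card ρ * ε)) * (Fintype.card ι * X + ∑ a, Y a) := by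
        apply mul_le_mul_of_nonneg_left _ (by positivity)
        apply add_le_add
        · exact mul_le_mul_of_nonneg_right hk hX0
        · exact sum_le_sum_of_subset_of_nonneg (subset_univ _) (fun _ _ _ => hY0 _)
    _ = _ := by ring

/-! vanishing -/

theorem int0 {c : ι → ρ → ℤ} {B X : ℕ} (hB : ∀ i u, (c i u).natAbs ≤ B) {n : ι → ℤ} {e : ρ → ℤ}
    (h : ∀ u, e u + ∑ i, n i * c i u = 0) {i : ι} {u : ρ} (hu : c i u ≠ 0) (hn : ∀ j, j ≠ i → (n j).natAbs ≤ X)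
    (he : ∀ u, (e u).natAbs ≤ X) : (n i).natAbs ≤ (Fintype.card ι * B + 1) * X := by
  have h1 := h u
  rw [← add_sum_erase univ _ (mem_univ i)] at h1
  have h2 : n i * c i u = -(e u + ∑ j ∈ univ.erase i, n j * c j u) := by linarith
  have h3 : |n i * c i u| ≤ X + ∑ j ∈ univ.erase i, |n j * c j u| := by
    rw [h2, abs_neg]
    refine (abs_add_le _ _).trans (add_le_add ?_ (abs_sum_le_sum_abs _ _))
    have := he u
    rw [Int.abs_eq_natAbs]
    exact_mod_cast this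
  have h4 : ∑ j ∈ univ.erase i, |n j * c j u| ≤ ∑ j ∈ univ.erase i, ((X * B : ℕ) : ℤ) := by
    apply sum_le_sum
    intro j hj
    rw [abs_mul, Int.abs_eq_natAbs, Int.abs_eq_natAbs]
    have := Nat.mul_le_mul (hn j (ne_of_mem_erase hj)) (hB j u)
    exact_mod_cast this
  rw [sum_const, nsmul_eq_mul] at h4
  have h5 : ((univ.erase i : Finset ι).card : ℤ) ≤ Fintype.card ι := by exact_mod_cast card_le_univ _
  have h6 : |n i| ≤ |n i * c i u| := by
    rw [abs_mul]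
    have : 1 ≤ |c i u| := Int.one_le_abs hu
    nlinarith [abs_nonneg (n i)]
  have h7 : ((univ.erase i : Finset ι).card : ℤ) * ((X * B : ℕ) : ℤ) ≤ Fintype.card ι * ((X * B : ℕ) : ℤ) :=
    mul_le_mul_of_nonneg_right h5 (by positivity)
  have h8 : |n i| ≤ X + Fintype.card ι * ((X * B : ℕ) : ℤ) := by linarith
  rw [Int.abs_eq_natAbs] at h8
  have h9 : ((n i).natAbs : ℤ) ≤ ((X + Fintype.card ι * (X * B) : ℕ) : ℤ) := by
    refine h8.trans (le_of_eq ?_)
    push_cast; ring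
  have h10 : (n i).natAbs ≤ X + Fintype.card ι * (X * B) := Int.ofNat_le.1 h9
  nlinarith

theorem int1 {c : ι → ρ → ℤ} {B X : ℕ} (hB1 : 1 ≤ B) (hB : ∀ i u, (c i u).natAbs ≤ B) {n : ι → ℤ} {e : ρ → ℤ}
    (h : ∀ u, e u + ∑ i, n i * c i u = 0) {i j : ι} (hij : i ≠ j) {u v : ρ}
    (huv : c i u * c j v - c i v * c j u ≠ 0) (hn : ∀ l, l ≠ i → l ≠ j → (n l).natAbs ≤ X)
    (he : ∀ u, (e u).natAbs ≤ X) : (n i).natAbs ≤ 2 * B ^ 2 * (Fintype.card ι + 1) * X := by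
  have hBz : ∀ i u, |c i u| ≤ (B : ℤ) := by
    intro i u
    rw [Int.abs_eq_natAbs]
    exact_mod_cast hB i u
  have h1 : c j v * (e u + ∑ i, n i * c i u) - c j u * (e v + ∑ i, n i * c i v) = 0 := by rw [h u, h v]; ring
  have h2 : (e u * c j v - e v * c j u) + ∑ l, n l * (c l u * c j v - c l v * c j u) = 0 := by
    rw [← h1, mul_add, mul_add, mul_sum, mul_sum]
    have : ∑ l, n l * (c l u * c j v - c l v * c j u)
        = ∑ l, c j v * (n l * c l u) - ∑ l, c j u * (n l * c l v) := by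
      rw [← sum_sub_distrib]
      apply sum_congr rfl
      intro l _
      ring
    rw [this]
    ring
  rw [← add_sum_erase univ _ (mem_univ i), ← add_sum_erase (univ.erase i) _ (mem_erase.2 ⟨hij.symm, mem_univ j⟩)] at h2
  have h3 : n j * (c j u * c j v - c j v * c j u) = 0 := by ring
  rw [h3, zero_add] at h2
  have h4 : n i * (c i u * c j v - c i v * c j u) = -((e u * c j v - e v * c j u)
      + ∑ l ∈ (univ.erase i).erase j, n l * (c l u * c j v - c l v * c j u)) := by linarith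
  have hcc : ∀ l, |c l u * c j v - c l v * c j u| ≤ 2 * (B : ℤ) ^ 2 := by
    intro l
    refine (abs_sub _ _).trans ?_
    rw [abs_mul, abs_mul]
    have a1 := mul_le_mul (hBz l u) (hBz j v) (abs_nonneg _) (by positivity)
    have a2 := mul_le_mul (hBz l v) (hBz j u) (abs_nonneg _) (by positivity)
    nlinarith
  have h5 : |n i * (c i u * c j v - c i v * c j u)| ≤ 2 * B ^ 2 * X
      + ∑ l ∈ (univ.erase i).erase j, 2 * (B : ℤ) ^ 2 * X := by
    rw [h4, abs_neg]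
    refine (abs_add_le _ _).trans (add_le_add ?_ ((abs_sum_le_sum_abs _ _).trans (sum_le_sum ?_)))
    · refine (abs_sub _ _).trans ?_
      rw [abs_mul, abs_mul]
      have e1 : |e u| ≤ (X : ℤ) := by rw [Int.abs_eq_natAbs]; exact_mod_cast he u
      have e2 : |e v| ≤ (X : ℤ) := by rw [Int.abs_eq_natAbs]; exact_mod_cast he v
      have a1 := mul_le_mul e1 (hBz j v) (abs_nonneg _) (by positivity)
      have a2 := mul_le_mul e2 (hBz j u) (abs_nonneg _) (by positivity)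
      have hBB : (1 : ℤ) ≤ B := by exact_mod_cast hB1
      have hX0 : (0 : ℤ) ≤ X := by positivity
      have : (X : ℤ) * B ≤ X * B * B := by nlinarith [mul_nonneg hX0 (by linarith : (0 : ℤ) ≤ (B : ℤ))]
      nlinarith
    · intro l hl
      rw [abs_mul]
      have e1 : |n l| ≤ (X : ℤ) := by
        rw [Int.abs_eq_natAbs]
        exact_mod_cast hn l (ne_of_mem_erase (mem_of_mem_erase hl)) (ne_of_mem_erase hl)
      have := mul_le_mul e1 (hcc l) (abs_nonneg _) (by positivity)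
      linarith
  rw [sum_const, nsmul_eq_mul] at h5
  have h6 : (((univ.erase i).erase j : Finset ι).card : ℤ) ≤ Fintype.card ι := by exact_mod_cast card_le_univ _
  have h7 : (((univ.erase i).erase j : Finset ι).card : ℤ) * (2 * (B : ℤ) ^ 2 * X)
      ≤ Fintype.card ι * (2 * (B : ℤ) ^ 2 * X) := mul_le_mul_of_nonneg_right h6 (by positivity)
  have h8 : |n i| ≤ |n i * (c i u * c j v - c i v * c j u)| := by
    rw [abs_mul]
    have : 1 ≤ |c i u * c j v - c i v * c j u| := Int.one_le_abs huv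
    nlinarith [abs_nonneg (n i)]
  have h9 : |n i| ≤ 2 * (B : ℤ) ^ 2 * (Fintype.card ι + 1) * X := by
    calc |n i| ≤ _ := h8
      _ ≤ _ := h5
      _ ≤ 2 * (B : ℤ) ^ 2 * X + Fintype.card ι * (2 * (B : ℤ) ^ 2 * X) := by linarith
      _ = _ := by ring
  rw [Int.abs_eq_natAbs] at h9
  exact_mod_cast h9

/-- lifting of a vanishing combination of frequencies to the integers -/
theorem lift_zero {c : ι → ρ → ℤ} {B X Z : ℕ} (hB : ∀ i u, (c i u).natAbs ≤ B) {ξ : ι → ZMod M} {η : ρ → ZMod M}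
    (h : ∀ u, η u + ∑ i, ξ i * (c i u : ZMod M) = 0) (hξ : ∀ i, fr (ξ i) ≤ Z) (hη : ∀ u, fr (η u) ≤ X)
    (hM : X + Fintype.card ι * (Z * B) < M) (u : ρ) :
    (η u).valMinAbs + ∑ i, (ξ i).valMinAbs * c i u = 0 := by
  set n : ℤ := (η u).valMinAbs + ∑ i, (ξ i).valMinAbs * c i u with hn
  have h1 : (n : ZMod M) = 0 := by
    rw [hn]
    push_cast
    exact h u
  have h2 : |n| ≤ ((X + Fintype.card ι * (Z * B) : ℕ) : ℤ) := by
    rw [hn]
    refine (abs_add_le _ _).trans ?_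
    push_cast
    apply add_le_add
    · rw [Int.abs_eq_natAbs]; exact_mod_cast hη u
    · refine (abs_sum_le_sum_abs _ _).trans ?_
      calc ∑ i, |(ξ i).valMinAbs * c i u| ≤ ∑ i : ι, ((Z * B : ℕ) : ℤ) := by
            apply sum_le_sum
            intro i _
            rw [abs_mul, Int.abs_eq_natAbs, Int.abs_eq_natAbs]
            have := Nat.mul_le_mul (hξ i) (hB i u)
            exact_mod_cast this
        _ = _ := by rw [sum_const, card_univ, nsmul_eq_mul]; push_cast; ring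
  rw [ZMod.intCast_zmod_eq_zero_iff_dvd] at h1
  apply Int.eq_zero_of_abs_lt_dvd h1
  refine lt_of_le_of_lt h2 ?_
  exact_mod_cast hM

end Pool.Agent.K6.H82.GU
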