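import Pool.Agent.K6.H82.GU.GU4

/-! Telescoping over the scales. -/

set_option autoImplicit false

namespace Pool.Agent.K6.H82.GU

open Finset

variable {M : ℕ} [NeZero M] {ι ρ : Type*} [Fintype ι] [Fintype ρ] [DecidableEq ι] [DecidableEq ρ]

/-- replacing the functions one after the other -/
theorem tele (c : ι → ρ → ℤ) (η : ρ → ZMod M) (A B : ι → ZMod M → ℂ) (e : ℝ)
    (h : ∀ (s : Finset ι) (i : ι), i ∉ s → ‖∑ x : ρ → ZMod M, ch (∑ u, η u * x u) *
      ((A i (lf c i x) - B i (lf c i x)) * ∏ j ∈ univ.erase i, (if j ∈ s then A j else B j) (lf c j x))‖ ≤ e) :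
    ‖Lam c η A - Lam c η B‖ ≤ Fintype.card ι * e := by
  have key : ∀ s : Finset ι, ‖Lam c η (fun j => if j ∈ s then A j else B j) - Lam c η B‖ ≤ s.card * e := by
    intro s
    induction s using Finset.induction_on with
    | empty => simp
    | insert i s hi ih =>
      have e1 : Lam c η (fun j => if j ∈ insert i s then A j else B j)
          - Lam c η (fun j => if j ∈ s then A j else B j)
          = ∑ x : ρ → ZMod M, ch (∑ u, η u * x u) *
      ((A i (lf c i x) - B i (lf c i x)) * ∏ j ∈ univ.erase i, (if j ∈ s then A j else B j) (lf c j x)) := by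
        unfold Lam
        rw [← sum_sub_distrib]
        apply sum_congr rfl
        intro x _
        rw [← mul_prod_erase univ _ (mem_univ i), ← mul_prod_erase univ _ (mem_univ i)]
        beta_reduce
        rw [if_pos (mem_insert_self i s), if_neg hi]
        have e2 : ∏ j ∈ univ.erase i, (if j ∈ insert i s then A j else B j) (lf c j x)
            = ∏ j ∈ univ.erase i, (if j ∈ s then A j else B j) (lf c j x) := by
          apply prod_congr rfl
          intro j hj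
          have : j ∈ insert i s ↔ j ∈ s := by
            rw [mem_insert]
            constructor
            · rintro (h | h)
              · exact absurd h (ne_of_mem_erase hj)
              · exact h
            · exact Or.inr
          simp only [this]
        rw [e2]
        ring
      have h1 := h s i hi
      rw [← e1] at h1
      rw [card_insert_of_notMem hi]
      push_cast
      calc ‖Lam c η (fun j => if j ∈ insert i s then A j else B j) - Lam c η B‖
          ≤ ‖Lam c η (fun j => if j ∈ insert i s then A j else B j) - Lam c η (fun j => if j ∈ s then A j else B j)‖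
            + ‖Lam c η (fun j => if j ∈ s then A j else B j) - Lam c η B‖ := norm_sub_le_norm_sub_add_norm_sub _ _ _
        _ ≤ e + s.card * e := add_le_add h1 ih
        _ = _ := by ring
  have h1 := key univ
  simp only [mem_univ, if_true] at h1
  rw [card_univ] at h1
  exact h1

/-- the energy of a band -/
noncomputable def En (f : ZMod M → ℂ) (a b : ℕ) : ℝ := ∑ ξ ∈ univ.filter (fun ξ : ZMod M => a < fr ξ ∧ fr ξ < b), ‖an f ξ‖ ^ 2

theorem En_nonneg (f : ZMod M → ℂ) (a b : ℕ) : 0 ≤ En f a b := sum_nonneg fun _ _ => by positivity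

theorem mult (f : ZMod M → ℂ) (m : ZMod M → ℝ) (hm : ∀ ξ, |m ξ| ≤ 1) (P : ZMod M → Prop) [DecidablePred P]
    (hP : ∀ ξ, m ξ ≠ 0 → P ξ) : ∑ ξ, ‖(m ξ : ℂ) * an f ξ‖ ^ 2 ≤ ∑ ξ ∈ univ.filter P, ‖an f ξ‖ ^ 2 := by
  rw [sum_filter]
  apply sum_le_sum
  intro ξ _
  by_cases h : m ξ = 0
  · rw [h, Complex.ofReal_zero, zero_mul, norm_zero]
    split_ifs
    · have := sq_nonneg ‖an f ξ‖
      norm_num
    · norm_num
  · rw [if_pos (hP ξ h), norm_mul, Complex.norm_real, Real.norm_eq_abs]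
    apply pow_le_pow_left₀ (by positivity)
    have := hm ξ
    nlinarith [norm_nonneg (an f ξ), abs_nonneg (m ξ)]

theorem V_diff {a b : ℕ} (ha : 0 < a) (hab : a ≤ b) (hb : 3 * b ≤ M) (ξ : ZMod M) : |V b ξ - V a ξ| ≤ 1 := by
  have h1 := V_nonneg a ξ
  have h2 := V_nonneg b ξ
  have h3 := V_le_one ha (by omega : 3 * a ≤ M) ξ
  have h4 := V_le_one (by omega : 0 < b) hb ξ
  rw [abs_le]; constructor <;> linarith

theorem V_diff_supp {a b : ℕ} (ha : 0 < a) (hab : a ≤ b) (hb : 3 * b ≤ M) {ξ : ZMod M} (h : V b ξ - V a ξ ≠ 0) :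
    a < fr ξ ∧ fr ξ < 2 * b := by
  constructor
  · by_contra hcon
    push Not at hcon
    apply h
    rw [V_one ha (by omega) hcon, V_one (by omega) hb (by omega), sub_self]
  · by_contra hcon
    push Not at hcon
    apply h
    rw [V_zero hcon, V_zero (by omega), sub_self]

theorem smd (f : ZMod M → ℂ) (a b : ℕ) (x : ZMod M) :
    syn (fun ξ => ((V b ξ - V a ξ : ℝ) : ℂ) * an f ξ) x = sm b f x - sm a f x := by
  unfold sm
  rw [← syn_sub]
  congr 1
  funext ξ
  push_cast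
  ring

/-- one scale -/
theorem scale {B C p : ℕ} (hB1 : 1 ≤ B) (hC : 4 * B ^ 2 * (Fintype.card ι + 1) ≤ 2 ^ C)
    (hM : 2 ^ p * (2 + 2 ^ (C + 3) * (Fintype.card ι * B + 1)) < M)
    (c : ι → ρ → ℤ) (hB : ∀ i u, (c i u).natAbs ≤ B) (hc1 : ∀ i, ∃ u, IsUnit ((c i u : ℤ) : ZMod M))
    (hc2 : ∀ i j, i ≠ j → Pr M c i j) (η : ρ → ZMod M) (hη : ∀ u, fr (η u) ≤ 2 ^ (p + 1))
    (f : ι → ZMod M → ℂ) (hf : ∀ i x, ‖f i x‖ ≤ 1) {ε : ℝ} (hε : 0 < ε)
    (hE : ∀ i, En (f i) (2 ^ p) (2 ^ (p + C + 2)) ≤ ε ^ 2) :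
    ‖Lam c η (fun i => sm (2 ^ (p + C + 1)) (f i)) - Lam c η (fun i => sm (2 ^ (p + C)) (f i))‖
      ≤ Fintype.card ι * (M ^ Fintype.card ρ * (2 ^ Fintype.card ι * Fintype.card ι * ε *
        ((Fintype.card ι + 1) * ∑ i, En (f i) (2 ^ p) (2 ^ (p + C + 2))))) := by
  set k := Fintype.card ι with hk
  have h2p : 1 ≤ 2 ^ p := Nat.one_le_two_pow
  have h2C : 1 ≤ 2 ^ C := Nat.one_le_two_pow
  have epc : 2 ^ (p + C) = 2 ^ p * 2 ^ C := pow_add 2 p C
  have epc1 : 2 ^ (p + C + 1) = 2 * (2 ^ p * 2 ^ C) := by rw [pow_succ, epc]; ring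
  have epc2 : 2 ^ (p + C + 2) = 4 * (2 ^ p * 2 ^ C) := by rw [pow_succ, epc1]; ring
  have ep1 : 2 ^ (p + 1) = 2 * 2 ^ p := by rw [pow_succ]; ring
  have hM' : 2 * 2 ^ p + 8 * (2 ^ p * 2 ^ C) * (k * B + 1) < M := by
    refine lt_of_le_of_lt (le_of_eq ?_) hM
    rw [pow_add]; ring
  have hpc0 : 0 < 2 ^ p * 2 ^ C := by positivity
  have hM3 : 3 * 2 ^ (p + C + 1) ≤ M := by
    rw [epc1]
    have : 8 * (2 ^ p * 2 ^ C) * (k * B + 1) = 8 * (2 ^ p * 2 ^ C) + 8 * (2 ^ p * 2 ^ C) * (k * B) := by ring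
    omega
  have hM3' : 3 * 2 ^ (p + C) ≤ M := by
    have : 2 ^ (p + C) ≤ 2 ^ (p + C + 1) := Nat.pow_le_pow_right (by norm_num) (by omega)
    omega
  have hM3'' : 3 * 2 ^ p ≤ M := by
    have : 2 ^ p ≤ 2 ^ (p + C + 1) := Nat.pow_le_pow_right (by norm_num) (by omega)
    omega
  have hMlift : 2 ^ (p + 1) + k * (2 ^ (p + C + 2) * B) < M := by
    rw [ep1, epc2]
    have e1 : 8 * (2 ^ p * 2 ^ C) * (k * B + 1) = 8 * (2 ^ p * 2 ^ C) + 2 * (k * (4 * (2 ^ p * 2 ^ C) * B)) := by ring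
    omega
  have hnt : Nontrivial (ZMod M) := by
    have : Fact (1 < M) := ⟨by omega⟩
    infer_instance
  apply tele
  intro s i hi
  set up : ι → ℕ := fun j => if j ∈ s then 2 ^ (p + C + 1) else 2 ^ (p + C) with hup
  have hup3 : ∀ j, 3 * up j ≤ M := by
    intro j; rw [hup]; simp only; split_ifs <;> assumption
  have hup1 : ∀ j, 2 ^ p ≤ up j := by
    intro j; rw [hup]; simp only
    split_ifs <;> exact Nat.pow_le_pow_right (by norm_num) (by omega)
  have hup2 : ∀ j, 2 * up j ≤ 2 ^ (p + C + 2) := by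
    intro j; rw [hup]; simp only
    split_ifs
    · rw [epc1, epc2]; omega
    · rw [epc, epc2]; omega
  set d : ZMod M → ℂ := fun ξ => ((V (2 ^ (p + C + 1)) ξ - V (2 ^ (p + C)) ξ : ℝ) : ℂ) * an (f i) ξ with hd
  set l : ι → ZMod M → ℂ := fun j ξ => (V (2 ^ p) ξ : ℂ) * an (f j) ξ with hl
  set h : ι → ZMod M → ℂ := fun j ξ => ((V (up j) ξ - V (2 ^ p) ξ : ℝ) : ℂ) * an (f j) ξ with hh
  have hle1 : 2 ^ (p + C) ≤ 2 ^ (p + C + 1) := Nat.pow_le_pow_right (by norm_num) (by omega)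
  have hle2 : 2 ^ p ≤ 2 ^ (p + C) := Nat.pow_le_pow_right (by norm_num) (by omega)
  have hpos1 : 0 < 2 ^ (p + C) := by positivity
  have sl : ∀ j x, syn (l j) x = sm (2 ^ p) (f j) x := fun j x => rfl
  have sh : ∀ j x, syn (l j) x + syn (h j) x = sm (up j) (f j) x := by
    intro j x
    rw [sl, hh]
    simp only
    rw [smd]
    ring
  have sd : ∀ x, syn d x = sm (2 ^ (p + C + 1)) (f i) x - sm (2 ^ (p + C)) (f i) x := fun x => smd _ _ _ _
  have hgb : ∀ j x, ‖syn (l j) x + syn (h j) x‖ ≤ 2 := by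
    intro j x
    rw [sh]
    exact sm_bound (lt_of_lt_of_le (by positivity) (hup1 j)) (hup3 j) (hf j) x
  have hLb : ∀ j x, ‖syn (l j) x‖ ≤ 2 := by
    intro j x
    rw [sl]
    exact sm_bound (by positivity) hM3'' (hf j) x
  -- supports
  have sup_d : ∀ ξ, d ξ ≠ 0 → 2 ^ (p + C) < fr ξ ∧ fr ξ < 2 ^ (p + C + 2) := by
    intro ξ hξ
    have h1 : V (2 ^ (p + C + 1)) ξ - V (2 ^ (p + C)) ξ ≠ 0 := by
      intro h0
      apply hξ
      rw [hd]
      simp only
      rw [h0, Complex.ofReal_zero, zero_mul]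
    have h2 := V_diff_supp hpos1 hle1 hM3 h1
    rw [epc2]
    rw [epc1] at h2
    exact ⟨h2.1, by omega⟩
  have sup_l : ∀ j ξ, l j ξ ≠ 0 → fr ξ ≤ 2 ^ (p + 1) := by
    intro j ξ hξ
    by_contra hcon
    push Not at hcon
    apply hξ
    rw [hl]
    simp only
    rw [V_zero (by rw [ep1] at hcon; omega), Complex.ofReal_zero, zero_mul]
  have sup_h : ∀ (j : ι) (ξ : ZMod M), V (up j) ξ - V (2 ^ p) ξ ≠ 0 → 2 ^ p < fr ξ ∧ fr ξ < 2 ^ (p + C + 2) := by
    intro j ξ hξ
    have h2 := V_diff_supp (by positivity) (hup1 j) (hup3 j) hξ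
    have := hup2 j
    exact ⟨h2.1, by omega⟩
  have sup_h' : ∀ j ξ, h j ξ ≠ 0 → fr ξ < 2 ^ (p + C + 2) := by
    intro j ξ hξ
    apply (sup_h j ξ _).2
    intro h0
    apply hξ
    rw [hh]
    simp only
    rw [h0, Complex.ofReal_zero, zero_mul]
  have hple : 2 ^ (p + 1) ≤ 2 ^ (p + C + 2) := Nat.pow_le_pow_right (by norm_num) (by omega)
  -- vanishing
  have v0 : Lam c η (fun j => syn (if j = i then d else l j)) = 0 := by
    apply Lam_zero
    intro ξ hξ hsum
    have hi' := hξ i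
    rw [if_pos rfl] at hi'
    have h1 := sup_d _ hi'
    have hj' : ∀ j, j ≠ i → fr (ξ j) ≤ 2 ^ (p + 1) := by
      intro j hj
      have := hξ j
      rw [if_neg hj] at this
      exact sup_l j _ this
    have hall : ∀ j, fr (ξ j) ≤ 2 ^ (p + C + 2) := by
      intro j
      by_cases hj : j = i
      · rw [hj]; exact h1.2.le
      · exact (hj' j hj).trans hple
    have hint := lift_zero hB hsum hall hη hMlift
    obtain ⟨u, hu⟩ := hc1 i
    have hu0 : c i u ≠ 0 := by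
      intro h0
      rw [h0, Int.cast_zero] at hu
      exact not_isUnit_zero hu
    have h2 := int0 hB hint hu0 hj' (fun u => hη u)
    have h3 : (Fintype.card ι * B + 1) * 2 ^ (p + 1) ≤ 2 ^ (p + C) := by
      rw [ep1, epc]
      have h4 : 2 * (k * B + 1) ≤ 2 ^ C := by
        refine le_trans ?_ hC
        have hBB : B ≤ B ^ 2 := by rw [pow_two]; exact Nat.le_mul_of_pos_left B hB1
        have h5 : k * B ≤ k * B ^ 2 := Nat.mul_le_mul_left k hBB
        have h6 : 4 * B ^ 2 * (k + 1) = 4 * (k * B ^ 2) + 4 * B ^ 2 := by ring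
        omega
      calc (Fintype.card ι * B + 1) * (2 * 2 ^ p) = 2 ^ p * (2 * (k * B + 1)) := by rw [hk]; ring
        _ ≤ 2 ^ p * 2 ^ C := Nat.mul_le_mul_left _ h4
    have h4 : (ξ i).valMinAbs.natAbs = fr (ξ i) := rfl
    omega
  have v1 : ∀ j, j ≠ i → Lam c η (fun m => syn (if m = i then d else if m = j then h j else l m)) = 0 := by
    intro j hji
    apply Lam_zero
    intro ξ hξ hsum
    have hi' := hξ i
    rw [if_pos rfl] at hi'
    have h1 := sup_d _ hi'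
    have hj1 : fr (ξ j) < 2 ^ (p + C + 2) := by
      have := hξ j
      rw [if_neg hji, if_pos rfl] at this
      exact sup_h' j _ this
    have hj' : ∀ m, m ≠ i → m ≠ j → fr (ξ m) ≤ 2 ^ (p + 1) := by
      intro m hm hmj
      have := hξ m
      rw [if_neg hm, if_neg hmj] at this
      exact sup_l m _ this
    have hall : ∀ m, fr (ξ m) ≤ 2 ^ (p + C + 2) := by
      intro m
      by_cases hm : m = i
      · rw [hm]; exact h1.2.le
      · by_cases hmj : m = j
        · rw [hmj]; exact hj1.le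
        · exact (hj' m hm hmj).trans hple
    have hint := lift_zero hB hsum hall hη hMlift
    obtain ⟨u, v, huv⟩ := hc2 i j hji.symm
    have huv0 : c i u * c j v - c i v * c j u ≠ 0 := by
      intro h0
      rw [h0, Int.cast_zero] at huv
      exact not_isUnit_zero huv
    have h2 := int1 hB1 hB hint hji.symm huv0 hj' (fun u => hη u)
    have h3 : 2 * B ^ 2 * (Fintype.card ι + 1) * 2 ^ (p + 1) ≤ 2 ^ (p + C) := by
      rw [ep1, epc]
      calc 2 * B ^ 2 * (Fintype.card ι + 1) * (2 * 2 ^ p) = 2 ^ p * (4 * B ^ 2 * (k + 1)) := by rw [hk]; ring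
        _ ≤ 2 ^ p * 2 ^ C := Nat.mul_le_mul_left _ hC
    have h4 : (ξ i).valMinAbs.natAbs = fr (ξ i) := rfl
    omega
  -- energies
  have hEn : ∀ j, ∑ ξ, ‖h j ξ‖ ^ 2 ≤ En (f j) (2 ^ p) (2 ^ (p + C + 2)) := by
    intro j
    apply mult (f j) (fun ξ => V (up j) ξ - V (2 ^ p) ξ) (fun ξ => V_diff (by positivity) (hup1 j) (hup3 j) ξ)
    exact sup_h j
  have hdn : ∑ ξ, ‖d ξ‖ ^ 2 ≤ En (f i) (2 ^ p) (2 ^ (p + C + 2)) := by
    apply mult (f i) (fun ξ => V (2 ^ (p + C + 1)) ξ - V (2 ^ (p + C)) ξ) (fun ξ => V_diff hpos1 hle1 hM3 ξ)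
    intro ξ hξ
    have h2 := V_diff_supp hpos1 hle1 hM3 hξ
    rw [epc1] at h2
    rw [epc2]
    exact ⟨by omega, by omega⟩
  have main := step c η hc1 hc2 i d h l hLb hgb v0 v1 hε (fun j _ => (hEn j).trans (hE j))
  have e1 : ∑ x : ρ → ZMod M, ch (∑ u, η u * x u) * ((sm (2 ^ (p + C + 1)) (f i) (lf c i x)
        - sm (2 ^ (p + C)) (f i) (lf c i x)) * ∏ j ∈ univ.erase i,
          (if j ∈ s then sm (2 ^ (p + C + 1)) (f j) else sm (2 ^ (p + C)) (f j)) (lf c j x))
      = ∑ x : ρ → ZMod M, ch (∑ u, η u * x u) * (syn d (lf c i x) *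
        ∏ j ∈ univ.erase i, (syn (l j) (lf c j x) + syn (h j) (lf c j x))) := by
    apply sum_congr rfl
    intro x _
    rw [sd]
    congr 2
    apply prod_congr rfl
    intro j _
    rw [sh, hup]
    simp only
    split_ifs <;> rfl
  rw [e1]
  refine main.trans ?_
  apply mul_le_mul_of_nonneg_left _ (by positivity)
  apply mul_le_mul_of_nonneg_left _ (by positivity)
  have h5 : ∑ j, ∑ ξ, ‖h j ξ‖ ^ 2 ≤ ∑ i, En (f i) (2 ^ p) (2 ^ (p + C + 2)) := sum_le_sum fun j _ => hEn j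
  have h6 : En (f i) (2 ^ p) (2 ^ (p + C + 2)) ≤ ∑ i, En (f i) (2 ^ p) (2 ^ (p + C + 2)) :=
    single_le_sum (f := fun i => En (f i) (2 ^ p) (2 ^ (p + C + 2))) (fun j _ => En_nonneg _ _ _) (mem_univ i)
  have hk0 : (0 : ℝ) ≤ (k : ℝ) := Nat.cast_nonneg _
  have h7 : (k : ℝ) * ∑ ξ, ‖d ξ‖ ^ 2 ≤ k * ∑ i, En (f i) (2 ^ p) (2 ^ (p + C + 2)) :=
    mul_le_mul_of_nonneg_left (hdn.trans h6) hk0
  calc (k : ℝ) * ∑ ξ, ‖d ξ‖ ^ 2 + ∑ j, ∑ ξ, ‖h j ξ‖ ^ 2
      ≤ k * ∑ i, En (f i) (2 ^ p) (2 ^ (p + C + 2)) + ∑ i, En (f i) (2 ^ p) (2 ^ (p + C + 2)) := add_le_add h7 h5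
    _ = _ := by ring

/-- the sum of the energies of the bands -/
theorem En_sum {f : ZMod M → ℂ} (hf : ∀ x, ‖f x‖ ≤ 1) (C p0 n : ℕ) :
    ∑ p ∈ range n, En f (2 ^ (p0 + p)) (2 ^ (p0 + p + C + 2)) ≤ C + 2 := by
  have h1 : ∑ p ∈ range n, En f (2 ^ (p0 + p)) (2 ^ (p0 + p + C + 2))
      = ∑ ξ : ZMod M, (((range n).filter fun p => 2 ^ (p0 + p) < fr ξ ∧ fr ξ < 2 ^ (p0 + p + C + 2)).card : ℝ) * ‖an f ξ‖ ^ 2 := by
    unfold En
    simp only [sum_filter]
    rw [sum_comm]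
    apply sum_congr rfl
    intro ξ _
    rw [← sum_filter, sum_const, nsmul_eq_mul]
  rw [h1]
  calc ∑ ξ : ZMod M, (((range n).filter fun p => 2 ^ (p0 + p) < fr ξ ∧ fr ξ < 2 ^ (p0 + p + C + 2)).card : ℝ) * ‖an f ξ‖ ^ 2
      ≤ ∑ ξ : ZMod M, ((C : ℝ) + 2) * ‖an f ξ‖ ^ 2 := by
        apply sum_le_sum
        intro ξ _
        apply mul_le_mul_of_nonneg_right _ (by positivity)
        have h2 : ((range n).filter fun p => 2 ^ (p0 + p) < fr ξ ∧ fr ξ < 2 ^ (p0 + p + C + 2)).card ≤ C + 2 := by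
          have h3 : ((range n).filter fun p => 2 ^ (p0 + p) < fr ξ ∧ fr ξ < 2 ^ (p0 + p + C + 2)).image (fun p => p0 + p + C + 2)
              ⊆ Ioc (Nat.log 2 (fr ξ)) (Nat.log 2 (fr ξ) + (C + 2)) := by
            intro q hq
            rw [mem_image] at hq
            obtain ⟨p, hp, rfl⟩ := hq
            rw [mem_filter] at hp
            obtain ⟨-, h4, h5⟩ := hp
            have hne : fr ξ ≠ 0 := Nat.ne_of_gt (lt_of_le_of_lt (Nat.zero_le _) h4)
            rw [mem_Ioc]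
            constructor
            · exact Nat.log_lt_of_lt_pow hne h5
            · have : p0 + p ≤ Nat.log 2 (fr ξ) := Nat.le_log_of_pow_le (by norm_num) h4.le
              omega
          have h4 := card_le_card h3
          rw [card_image_of_injective _ (fun a b hab => by
            have : p0 + a + C + 2 = p0 + b + C + 2 := hab
            omega), Nat.card_Ioc] at h4
          omega
        exact_mod_cast h2
    _ = (C + 2) * ∑ ξ : ZMod M, ‖an f ξ‖ ^ 2 := by rw [mul_sum]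
    _ ≤ (C + 2) * 1 := mul_le_mul_of_nonneg_left (energy_le hf) (by positivity)
    _ = _ := mul_one _

end Pool.Agent.K6.H82.GU
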