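import Pool.Agent.K6.H82.GU.GU5

/-! The bound for multilinear forms. -/

set_option autoImplicit false

namespace Pool.Agent.K6.H82.GU

open Finset

variable {M : ℕ} [NeZero M] {ι ρ : Type*} [Fintype ι] [Fintype ρ] [DecidableEq ι] [DecidableEq ρ]

theorem fr_count (n : ℕ) : ((univ.filter fun ξ : ZMod M => fr ξ < n).card : ℝ) ≤ 2 * n := by
  have h1 : (univ.filter fun ξ : ZMod M => fr ξ < n) ⊆ (Ioo (-(n : ℤ)) n).image (fun z : ℤ => (z : ZMod M)) := by
    intro ξ hξ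
    rw [mem_filter] at hξ
    rw [mem_image]
    refine ⟨ξ.valMinAbs, ?_, fr_cast ξ⟩
    have : ξ.valMinAbs.natAbs < n := hξ.2
    rw [mem_Ioo]; omega
  have h2 := (card_le_card h1).trans card_image_le
  rw [Int.card_Ioo] at h2
  have h3 : (univ.filter fun ξ : ZMod M => fr ξ < n).card ≤ 2 * n := by omega
  exact_mod_cast h3

theorem sm_sup {a : ℕ} (ha0 : 0 < a) (ha : 3 * a ≤ M) {f : ZMod M → ℂ} {σ : ℝ} (hσ : 0 ≤ σ) (h : ∀ ξ, fr ξ < 2 * a → ‖an f ξ‖ ≤ σ)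
    (x : ZMod M) : ‖sm a f x‖ ≤ 4 * a * σ := by
  unfold sm syn
  refine (norm_sum_le _ _).trans ?_
  calc ∑ ξ : ZMod M, ‖(V a ξ : ℂ) * an f ξ * ch (ξ * x)‖
      ≤ ∑ ξ : ZMod M, (if fr ξ < 2 * a then σ else 0) := by
        apply sum_le_sum
        intro ξ _
        rw [norm_mul, norm_mul, ch_norm, mul_one, Complex.norm_real, Real.norm_eq_abs, abs_of_nonneg (V_nonneg a ξ)]
        split_ifs with h1
        · have h2 := V_le_one ha0 ha ξ
          have h3 := h ξ h1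
          nlinarith [norm_nonneg (an f ξ), V_nonneg a ξ]
        · rw [V_zero (by omega), zero_mul]
    _ = ((univ.filter fun ξ : ZMod M => fr ξ < 2 * a).card : ℝ) * σ := by
        rw [← sum_filter, sum_const, nsmul_eq_mul]
    _ ≤ (2 * (2 * a : ℕ)) * σ := mul_le_mul_of_nonneg_right (fr_count _) hσ
    _ = _ := by push_cast; ring

theorem sum_norm_le {c : ι → ρ → ℤ} {i : ι} (hi : ∃ u, IsUnit ((c i u : ℤ) : ZMod M)) (y : ZMod M → ℂ) {ε : ℝ}
    (hε : 0 < ε) (hy : av (fun z => ‖y z‖ ^ 2) ≤ ε ^ 2) :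
    ∑ x : ρ → ZMod M, ‖y (lf c i x)‖ ≤ M ^ Fintype.card ρ * (2 * ε) := by
  rw [single_av hi (fun z => ‖y z‖)]
  apply mul_le_mul_of_nonneg_left _ (by positivity)
  have h1 : av (fun z => ‖y z‖) ≤ ε + ε⁻¹ * av (fun z => ‖y z‖ ^ 2) := by
    unfold av
    have h2 : ∑ x : ZMod M, ‖y x‖ ≤ ∑ x : ZMod M, (ε + ε⁻¹ * ‖y x‖ ^ 2) := by
      apply sum_le_sum
      intro x _
      have h3 : 0 ≤ ε⁻¹ * (ε - ‖y x‖) ^ 2 := by positivity
      have h4 : ε⁻¹ * (ε - ‖y x‖) ^ 2 = ε + ε⁻¹ * ‖y x‖ ^ 2 - 2 * ‖y x‖ := by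
        field_simp
        ring
      have := norm_nonneg (y x)
      linarith
    rw [sum_add_distrib, sum_const, card_univ, ZMod.card, nsmul_eq_mul, ← mul_sum] at h2
    have hM : (0 : ℝ) < M := by exact_mod_cast NeZero.pos M
    have h3 := mul_le_mul_of_nonneg_left h2 (by positivity : (0 : ℝ) ≤ (M : ℝ)⁻¹)
    refine h3.trans (le_of_eq ?_)
    field_simp
  have h5 : ε⁻¹ * av (fun z => ‖y z‖ ^ 2) ≤ ε := by
    calc ε⁻¹ * av (fun z => ‖y z‖ ^ 2) ≤ ε⁻¹ * ε ^ 2 := mul_le_mul_of_nonneg_left hy (by positivity)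
      _ = ε := by field_simp
  linarith

/-- THE MULTILINEAR ESTIMATE -/
theorem multilinear {B C p0 n : ℕ} (hB1 : 1 ≤ B) (hC : 4 * B ^ 2 * (Fintype.card ι + 1) ≤ 2 ^ C)
    (hM : 2 ^ (p0 + n) * (2 + 2 ^ (C + 3) * (Fintype.card ι * B + 1)) < M)
    (c : ι → ρ → ℤ) (hB : ∀ i u, (c i u).natAbs ≤ B) (hc1 : ∀ i, ∃ u, IsUnit ((c i u : ℤ) : ZMod M))
    (hc2 : ∀ i j, i ≠ j → Pr M c i j) (η : ρ → ZMod M) (hη : ∀ u, fr (η u) ≤ 2 ^ (p0 + 1))
    (f : ι → ZMod M → ℂ) (hf : ∀ i x, ‖f i x‖ ≤ 1) {ε : ℝ} (hε : 0 < ε)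
    (hE : ∀ i p, p0 ≤ p → p < p0 + n → En (f i) (2 ^ p) (2 ^ (p + C + 2)) ≤ ε ^ 2)
    (hT : ∀ i, ∑ ξ ∈ univ.filter (fun ξ : ZMod M => 2 ^ (p0 + n + C) < fr ξ), ‖an (f i) ξ‖ ^ 2 ≤ ε ^ 2)
    (i0 : ι) {σ : ℝ} (hσ : 0 ≤ σ) (h0 : ∀ ξ, fr ξ < 2 ^ (p0 + C + 1) → ‖an (f i0) ξ‖ ≤ σ) :
    ‖Lam c η f‖ ≤ M ^ Fintype.card ρ * (2 ^ Fintype.card ι * (Fintype.card ι + 1) ^ 4 * (C + 3) * (2 * ε)
      + 2 ^ Fintype.card ι * 2 ^ (p0 + C + 2) * σ) := by
  set k := Fintype.card ι with hk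
  have hMr : (0 : ℝ) ≤ (M : ℝ) ^ Fintype.card ρ := by positivity
  have hk0 : (0 : ℝ) ≤ k := Nat.cast_nonneg _
  have hsize : ∀ q, q ≤ p0 + n → 3 * 2 ^ (q + C) ≤ M := by
    intro q hq
    have h1 : 2 ^ (q + C) ≤ 2 ^ (p0 + n) * 2 ^ C := by
      rw [← pow_add]; exact Nat.pow_le_pow_right (by norm_num) (by omega)
    have h2 : 2 ^ (p0 + n) * (2 + 2 ^ (C + 3) * (k * B + 1))
        = 2 ^ (p0 + n) * 2 + 8 * (2 ^ (p0 + n) * 2 ^ C) + 8 * (2 ^ (p0 + n) * 2 ^ C) * (k * B) := by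
      rw [pow_add 2 C 3]; ring
    omega
  -- between the scales
  have s1 : ∀ m, m ≤ n → ‖Lam c η (fun i => sm (2 ^ (p0 + m + C)) (f i)) - Lam c η (fun i => sm (2 ^ (p0 + C)) (f i))‖
      ≤ ∑ p ∈ range m, k * (M ^ Fintype.card ρ * (2 ^ k * k * ε *
        ((k + 1) * ∑ i, En (f i) (2 ^ (p0 + p)) (2 ^ (p0 + p + C + 2))))) := by
    intro m
    induction m with
    | zero => intro _; simp
    | succ m ih =>
      intro hm
      rw [sum_range_succ]
      have h1 := scale (p := p0 + m) hB1 hC (by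
        refine lt_of_le_of_lt ?_ hM
        apply Nat.mul_le_mul_right
        exact Nat.pow_le_pow_right (by norm_num) (by omega)) c hB hc1 hc2 η (fun u => (hη u).trans
          (Nat.pow_le_pow_right (by norm_num) (by omega))) f hf hε (fun i => hE i (p0 + m) (by omega) (by omega))
      have e1 : p0 + (m + 1) + C = p0 + m + C + 1 := by ring
      rw [e1]
      have h2 := ih (by omega)
      calc _ ≤ ‖Lam c η (fun i => sm (2 ^ (p0 + m + C + 1)) (f i)) - Lam c η (fun i => sm (2 ^ (p0 + m + C)) (f i))‖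
          + ‖Lam c η (fun i => sm (2 ^ (p0 + m + C)) (f i)) - Lam c η (fun i => sm (2 ^ (p0 + C)) (f i))‖ :=
            norm_sub_le_norm_sub_add_norm_sub _ _ _
        _ ≤ _ := by linarith
  have s2 := s1 n le_rfl
  have s3 : ∑ p ∈ range n, k * (M ^ Fintype.card ρ * (2 ^ k * k * ε *
        ((k + 1) * ∑ i, En (f i) (2 ^ (p0 + p)) (2 ^ (p0 + p + C + 2)))))
      ≤ M ^ Fintype.card ρ * (2 ^ k * (k * k * (k + 1) * k) * (C + 2) * ε) := by
    have e1 : ∑ p ∈ range n, k * (M ^ Fintype.card ρ * (2 ^ k * k * ε *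
        ((k + 1) * ∑ i, En (f i) (2 ^ (p0 + p)) (2 ^ (p0 + p + C + 2)))))
        = (k * (M ^ Fintype.card ρ * (2 ^ k * k * ε * (k + 1)))) *
          ∑ i, ∑ p ∈ range n, En (f i) (2 ^ (p0 + p)) (2 ^ (p0 + p + C + 2)) := by
      rw [sum_comm, mul_sum]
      apply sum_congr rfl
      intro p _
      ring
    rw [e1]
    have e2 : ∑ i, ∑ p ∈ range n, En (f i) (2 ^ (p0 + p)) (2 ^ (p0 + p + C + 2)) ≤ k * (C + 2) := by
      calc _ ≤ ∑ i : ι, ((C : ℝ) + 2) := sum_le_sum fun i _ => En_sum (hf i) C p0 n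
        _ = _ := by rw [sum_const, card_univ, nsmul_eq_mul]
    calc _ ≤ (k * (M ^ Fintype.card ρ * (2 ^ k * k * ε * (k + 1)))) * (k * ((C : ℝ) + 2)) :=
          mul_le_mul_of_nonneg_left e2 (by positivity)
      _ = _ := by ring
  -- the top
  have t1 : ‖Lam c η f - Lam c η (fun i => sm (2 ^ (p0 + n + C)) (f i))‖
      ≤ k * (2 ^ k * (M ^ Fintype.card ρ * (2 * ε))) := by
    apply tele
    intro s i hi
    have hb : ∀ j x, ‖(if j ∈ s then f j else sm (2 ^ (p0 + n + C)) (f j)) x‖ ≤ 2 := by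
      intro j x
      split_ifs
      · exact (hf j x).trans (by norm_num)
      · exact sm_bound (by positivity) (hsize _ le_rfl) (hf j) x
    have hy : av (fun z => ‖f i z - sm (2 ^ (p0 + n + C)) (f i) z‖ ^ 2) ≤ ε ^ 2 := by
      have e1 : ∀ z, f i z - sm (2 ^ (p0 + n + C)) (f i) z
          = syn (fun ξ => ((1 - V (2 ^ (p0 + n + C)) ξ : ℝ) : ℂ) * an (f i) ξ) z := by
        intro z
        have := syn_sub (an (f i)) (fun ξ => (V (2 ^ (p0 + n + C)) ξ : ℂ) * an (f i) ξ) z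
        rw [syn_an] at this
        unfold sm
        rw [← this]
        congr 1
        funext ξ
        push_cast
        ring
      simp only [e1]
      rw [av_syn]
      refine (mult (f i) (fun ξ => 1 - V (2 ^ (p0 + n + C)) ξ) (fun ξ => ?_)
        (fun ξ => 2 ^ (p0 + n + C) < fr ξ) (fun ξ hξ => ?_)).trans (hT i)
      · have h1 := V_nonneg (2 ^ (p0 + n + C)) ξ
        have h2 := V_le_one (by positivity) (hsize _ le_rfl) ξ
        rw [abs_le]; constructor <;> linarith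
      · by_contra hcon
        push Not at hcon
        apply hξ
        rw [V_one (by positivity) (hsize _ le_rfl) hcon, sub_self]
    calc ‖∑ x : ρ → ZMod M, ch (∑ u, η u * x u) * ((f i (lf c i x) - sm (2 ^ (p0 + n + C)) (f i) (lf c i x)) *
          ∏ j ∈ univ.erase i, (if j ∈ s then f j else sm (2 ^ (p0 + n + C)) (f j)) (lf c j x))‖
        ≤ ∑ x : ρ → ZMod M, 2 ^ k * ‖f i (lf c i x) - sm (2 ^ (p0 + n + C)) (f i) (lf c i x)‖ := by
          refine (norm_sum_le _ _).trans (sum_le_sum fun x _ => ?_)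
          rw [norm_mul, norm_mul, ch_norm, one_mul, mul_comm, norm_prod]
          apply mul_le_mul_of_nonneg_right _ (norm_nonneg _)
          calc ∏ j ∈ univ.erase i, ‖(if j ∈ s then f j else sm (2 ^ (p0 + n + C)) (f j)) (lf c j x)‖
              ≤ ∏ j ∈ univ.erase i, (2 : ℝ) := prod_le_prod (fun _ _ => norm_nonneg _) (fun j _ => hb j _)
            _ = 2 ^ (univ.erase i : Finset ι).card := by rw [prod_const]
            _ ≤ 2 ^ k := pow_le_pow_right₀ (by norm_num) (card_le_univ _)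
      _ = 2 ^ k * ∑ x : ρ → ZMod M, ‖f i (lf c i x) - sm (2 ^ (p0 + n + C)) (f i) (lf c i x)‖ := by rw [mul_sum]
      _ ≤ _ := by
          apply mul_le_mul_of_nonneg_left _ (by positivity)
          exact sum_norm_le (hc1 i) (fun z => f i z - sm (2 ^ (p0 + n + C)) (f i) z) hε hy
  -- the bottom
  have b1 : ‖Lam c η (fun i => sm (2 ^ (p0 + C)) (f i))‖ ≤ M ^ Fintype.card ρ * (2 ^ k * 2 ^ (p0 + C + 2) * σ) := by
    unfold Lam
    have hsz := hsize p0 (by omega)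
    have hsup : ∀ x, ‖sm (2 ^ (p0 + C)) (f i0) x‖ ≤ 2 ^ (p0 + C + 2) * σ := by
      intro x
      refine (sm_sup (by positivity) hsz hσ (fun ξ hξ => h0 ξ ?_) x).trans (le_of_eq ?_)
      · rw [pow_succ]; omega
      · push_cast
        rw [pow_add 2 (p0 + C) 2]
        ring
    refine (norm_sum_le _ _).trans ?_
    calc ∑ x : ρ → ZMod M, ‖ch (∑ u, η u * x u) * ∏ i, sm (2 ^ (p0 + C)) (f i) (lf c i x)‖
        ≤ ∑ x : ρ → ZMod M, 2 ^ k * 2 ^ (p0 + C + 2) * σ := by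
          apply sum_le_sum
          intro x _
          rw [norm_mul, ch_norm, one_mul, ← mul_prod_erase univ _ (mem_univ i0), norm_mul, norm_prod]
          have h1 := hsup (lf c i0 x)
          have h2 : ∏ j ∈ univ.erase i0, ‖sm (2 ^ (p0 + C)) (f j) (lf c j x)‖ ≤ 2 ^ k := by
            calc ∏ j ∈ univ.erase i0, ‖sm (2 ^ (p0 + C)) (f j) (lf c j x)‖
                ≤ ∏ j ∈ univ.erase i0, (2 : ℝ) := prod_le_prod (fun _ _ => norm_nonneg _)
                  (fun j _ => sm_bound (by positivity) hsz (hf j) _)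
              _ = 2 ^ (univ.erase i0 : Finset ι).card := by rw [prod_const]
              _ ≤ 2 ^ k := pow_le_pow_right₀ (by norm_num) (card_le_univ _)
          calc _ ≤ (2 ^ (p0 + C + 2) * σ) * 2 ^ k :=
                mul_le_mul h1 h2 (prod_nonneg fun _ _ => norm_nonneg _) (by positivity)
            _ = _ := by ring
      _ = _ := by
          rw [sum_const, card_univ, Fintype.card_fun, ZMod.card, nsmul_eq_mul]
          push_cast
          ring
  have hfin : ‖Lam c η f‖ ≤ ‖Lam c η f - Lam c η (fun i => sm (2 ^ (p0 + n + C)) (f i))‖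
      + ‖Lam c η (fun i => sm (2 ^ (p0 + n + C)) (f i)) - Lam c η (fun i => sm (2 ^ (p0 + C)) (f i))‖
      + ‖Lam c η (fun i => sm (2 ^ (p0 + C)) (f i))‖ := by
    have e : Lam c η f = (Lam c η f - Lam c η (fun i => sm (2 ^ (p0 + n + C)) (f i)))
      + (Lam c η (fun i => sm (2 ^ (p0 + n + C)) (f i)) - Lam c η (fun i => sm (2 ^ (p0 + C)) (f i)))
      + Lam c η (fun i => sm (2 ^ (p0 + C)) (f i)) := by ring
    calc ‖Lam c η f‖ = ‖(Lam c η f - Lam c η (fun i => sm (2 ^ (p0 + n + C)) (f i)))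
      + (Lam c η (fun i => sm (2 ^ (p0 + n + C)) (f i)) - Lam c η (fun i => sm (2 ^ (p0 + C)) (f i)))
      + Lam c η (fun i => sm (2 ^ (p0 + C)) (f i))‖ := by rw [← e]
      _ ≤ _ := norm_add₃_le
  have hfin2 : ‖Lam c η f‖ ≤ k * (2 ^ k * (M ^ Fintype.card ρ * (2 * ε)))
      + M ^ Fintype.card ρ * (2 ^ k * (k * k * (k + 1) * k) * (C + 2) * ε)
      + M ^ Fintype.card ρ * (2 ^ k * 2 ^ (p0 + C + 2) * σ) := by linarith
  refine hfin2.trans ?_
  rw [mul_add ((M : ℝ) ^ Fintype.card ρ) (2 ^ k * (k + 1) ^ 4 * (C + 3) * (2 * ε))]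
  apply add_le_add _ le_rfl
  have e2 : k * (2 ^ k * (M ^ Fintype.card ρ * (2 * ε)))
      + M ^ Fintype.card ρ * (2 ^ k * (k * k * (k + 1) * k) * (C + 2) * ε)
      = M ^ Fintype.card ρ * (2 ^ k * (k * 2 + (k * k * (k + 1) * k) * (C + 2)) * ε) := by ring
  rw [e2]
  apply mul_le_mul_of_nonneg_left _ hMr
  have e3 : (k : ℝ) * 2 + (k * k * (k + 1) * k) * (C + 2) ≤ (k + 1) ^ 4 * (C + 3) * 2 := by
    have hC0 : (0 : ℝ) ≤ C := Nat.cast_nonneg _
    have a1 : (k : ℝ) * 2 ≤ (k + 1) ^ 4 * 2 := by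
      have : (k : ℝ) ≤ (k + 1) ^ 4 := by
        calc (k : ℝ) ≤ k + 1 := by linarith
          _ ≤ (k + 1) ^ 4 := le_self_pow₀ (by linarith) (by norm_num)
      linarith
    have a2 : (k * k * (k + 1) * k : ℝ) ≤ (k + 1) ^ 4 := by
      calc (k * k * (k + 1) * k : ℝ) ≤ (k + 1) * (k + 1) * (k + 1) * (k + 1) := by gcongr <;> linarith
        _ = _ := by ring
    have a3 : (k * k * (k + 1) * k : ℝ) * (C + 2) ≤ (k + 1) ^ 4 * (C + 2) :=
      mul_le_mul_of_nonneg_right a2 (by linarith)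
    have a4 : (0 : ℝ) ≤ (k + 1) ^ 4 := by positivity
    nlinarith
  calc (2 : ℝ) ^ k * (k * 2 + (k * k * (k + 1) * k) * (C + 2)) * ε
      ≤ 2 ^ k * ((k + 1) ^ 4 * (C + 3) * 2) * ε := by
        apply mul_le_mul_of_nonneg_right _ hε.le
        exact mul_le_mul_of_nonneg_left e3 (by positivity)
    _ = _ := by ring

end Pool.Agent.K6.H82.GU
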