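import Pool.Agent.W41.FU4

/-! Cancellation against differences of Lipschitz functions. -/

set_option autoImplicit false

namespace Pool.Agent.K6.H82.GU

open Pool.Agent.H320R2.PD Pool.Agent.H499R2.ND Finset Pool.Agent.H499R2.CO Pool.Agent.W41 Pool.Agent.W41.FU

/-- COMPARISON WITH A SHIFT. -/
theorem cancel2 {d : ℤ} (hd : d % 2 = 1) (hdd : d * d = 1) {f : ℤ → ℝ} (hf : f ∈ SameT d) {g : ℤ → ℝ}
    (hg : ∀ x, |g x| ≤ 1) {a b : ℝ} (hab : a ≤ b) (m : ℕ) {u : ℤ} (hu : IsCoprime u 3) (v : ℤ) (k h' : ℕ) :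
    |WS (fun x => f x * g x) a b m u v - WS (fun x => f x * g (x + 2 * 3 ^ m * h')) a b m u v| ≤
      2 * (q step (0, 0) k (0, -(d * (2 * 3 ^ m * h'))) * ((b - a) / 3 ^ m + 2 ^ k)) + 2 * (h' + 1) := by
  classical
  set h : ℤ := 2 * 3 ^ m * h' with hh
  set C := cls Set.univ a b m u v with hC
  set C' := cls Set.univ (a + (-(h : ℝ))) (b + (-(h : ℝ))) m u v with hC'
  -- step 1: replace f x by f (x - h)
  have s1 : |∑ x ∈ C, f x * g x - ∑ x ∈ C, f (x - h) * g x|
      ≤ 2 * (q step (0, 0) k (0, -(d * h)) * ((b - a) / 3 ^ m + 2 ^ k)) := by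
    rw [← sum_sub_distrib]
    refine (abs_sum_le_sum_abs _ _).trans ?_
    have hb : ∀ x ∈ C, |f x * g x - f (x - h) * g x| ≤ if surv d k (0, -(d * h)) x then 2 else 0 := by
      intro x _
      rw [← sub_mul, abs_mul]
      split_ifs with hs
      · have a1 := hf.1 x
        have a2 := hf.1 (x - h)
        have a3 := abs_sub (f x) (f (x - h))
        have a4 := hg x
        nlinarith [abs_nonneg (g x), abs_nonneg (f x - f (x - h))]
      · obtain ⟨j, -, hj⟩ := coal hd k 0 (-(d * h)) _ hs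
        have e : (3 : ℤ) ^ 0 * x + d * (-(d * h)) = x - h := by
          have : d * (-(d * h)) = -(d * d) * h := by ring
          rw [this, hdd]; ring
        rw [e] at hj
        rw [hf.2 j x (x - h) hj, sub_self, abs_zero, zero_mul]
    refine (sum_le_sum hb).trans ?_
    rw [← sum_filter, sum_const, nsmul_eq_mul]
    have := surv_card hd k (0, -(d * h)) hab m hu v
    linarith
  -- step 2: reindex
  have s2 : ∑ x ∈ C, f (x - h) * g x = ∑ y ∈ C', f y * g (y + h) := by
    apply sum_bij' (fun x _ => x - h) (fun y _ => y + h)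
    · intro x hx
      rw [hC, mem_cls] at hx
      rw [hC', mem_cls]
      push_cast
      refine ⟨⟨by linarith [hx.1.1], by linarith [hx.1.2]⟩, ?_, Set.mem_univ _, ?_⟩
      · obtain ⟨t, ht⟩ := hx.2.1
        exact ⟨t - 3 ^ m * h', by rw [ht, hh]; ring⟩
      · have h1 := hx.2.2.2
        have e : u * (x - h) - v = (u * x - v) - 3 ^ m * (u * (2 * h')) := by rw [hh]; ring
        rw [e]
        exact dvd_sub h1 (dvd_mul_right _ _)
    · intro y hy
      rw [hC', mem_cls] at hy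
      rw [hC, mem_cls]
      push_cast
      refine ⟨⟨by linarith [hy.1.1], by linarith [hy.1.2]⟩, ?_, Set.mem_univ _, ?_⟩
      · obtain ⟨t, ht⟩ := hy.2.1
        exact ⟨t + 3 ^ m * h', by rw [ht, hh]; ring⟩
      · have h1 := hy.2.2.2
        have e : u * (y + h) - v = (u * y - v) + 3 ^ m * (u * (2 * h')) := by rw [hh]; ring
        rw [e]
        exact dvd_add h1 (dvd_mul_right _ _)
    · intro x _; ring
    · intro y _; ring
    · intro x _
      rw [sub_add_cancel]
  -- step 3: shift the window back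
  have hg' : ∀ x, |f x * g (x + h)| ≤ 1 := by
    intro x
    rw [abs_mul]
    have a1 := hf.1 x
    have a4 := hg (x + h)
    nlinarith [abs_nonneg (g (x + h)), abs_nonneg (f x)]
  have hh0 : (0 : ℝ) ≤ h := by rw [hh]; push_cast; positivity
  have s3 : |WS (fun x => f x * g (x + h)) (a + (-(h : ℝ))) (b + (-(h : ℝ))) m u v
      - WS (fun x => f x * g (x + h)) a b m u v| ≤ 2 * ((h : ℝ) / (2 * 3 ^ m) + 1) := by
    apply shiftW hg' _ m hu v
    rw [abs_neg, abs_of_nonneg hh0]
  have e3 : (h : ℝ) / (2 * 3 ^ m) = h' := by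
    rw [hh]; push_cast; field_simp
  rw [e3] at s3
  have e0 : WS (fun x => f x * g x) a b m u v = ∑ x ∈ C, f x * g x := rfl
  have e5 : WS (fun x => f x * g (x + h)) (a + (-(h : ℝ))) (b + (-(h : ℝ))) m u v = ∑ y ∈ C', f y * g (y + h) := rfl
  rw [e5, ← s2] at s3
  rw [← e0] at s1
  have := abs_sub_le (WS (fun x => f x * g x) a b m u v) (∑ x ∈ C, f (x - h) * g x)
    (WS (fun x => f x * g (x + h)) a b m u v)
  linarith

/-- the scales just above the Lipschitz constant -/
theorem bottomL {d : ℤ} (hd : Odd d) (hdd : d * d = 1) {ε : ℝ} (hε : 0 < ε) (hε1 : ε ≤ 1) :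
    ∃ η1 : ℝ, 0 < η1 ∧ η1 ≤ 1 / 2 ∧ ∀ η : ℝ, 0 < η → η ≤ η1 → ∃ T2 : ℝ, 1000 ≤ T2 ∧
      ∀ β τ : ℝ, 0 < β → 0 ≤ τ → τ * β ≤ 4 → ∀ G : ℝ → ℝ, (∀ u, |G u| ≤ 1) → (∀ u v, |G u - G v| ≤ β * |u - v|) →
      T2 ≤ Real.log β → ∀ A : ℝ, 0 < A →
      (1 - η) * Real.log A ≤ Real.log β →
      Real.log β ≤ (1 - η / 2) * Real.log A → ∀ m : ℕ, (m : ℝ) ^ 2 ≤ Real.log A →
      PF (SameT d) (fun u => (G u - G (u + τ)) / 2) A m ε := by
  have hdm : d % 2 = 1 := by obtain ⟨t, ht⟩ := hd; omega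
  obtain ⟨θ, hθ, k0, hq⟩ := q_quant (show 0 < ε / 32 by positivity) (by linarith)
  refine ⟨min (1 / 2) (θ / 4), by positivity, min_le_left _ _, ?_⟩
  intro η hη hη1
  have hη2 : η ≤ 1 / 2 := hη1.trans (min_le_left _ _)
  have hηθ : η ≤ θ / 4 := hη1.trans (min_le_right _ _)
  refine ⟨1000 + 2 * ((k0 : ℝ) + 1) + (8 / θ + 4) + 64 / ε + (5 / η) ^ 2 + 128 / (η * ε), ?_, ?_⟩
  · have : 0 ≤ 2 * ((k0 : ℝ) + 1) + (8 / θ + 4) + 64 / ε + (5 / η) ^ 2 + 128 / (η * ε) := by positivity
    linarith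
  intro β τ hβ0 hτ0 hτβ G hG hLip hT2 A hA hA1 hA2 m hm f hf u v hu
  set t := Real.log A with ht
  have hexpA : Real.exp t = A := Real.exp_log hA
  have hexpβ : Real.exp (Real.log β) = β := Real.exp_log hβ0
  have hlβ : 0 < Real.log β := by
    have : 0 ≤ 2 * ((k0 : ℝ) + 1) + (8 / θ + 4) + 64 / ε + (5 / η) ^ 2 + 128 / (η * ε) := by positivity
    linarith
  have htβ : Real.log β ≤ t := by
    have : 0 < t := by
      by_contra hcon
      push Not at hcon
      nlinarith
    nlinarith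
  have p1 : 0 ≤ 2 * ((k0 : ℝ) + 1) := by positivity
  have p2 : 0 ≤ 8 / θ + 4 := by positivity
  have p3 : 0 ≤ 64 / ε := by positivity
  have p4 : 0 ≤ (5 / η) ^ 2 := by positivity
  have p5 : 0 ≤ 128 / (η * ε) := by positivity
  have t1 : 1000 ≤ t := by linarith
  have t2 : 2 * ((k0 : ℝ) + 1) ≤ t := by linarith
  have t3 : 8 / θ + 4 ≤ t := by linarith
  have t4 : 64 / ε ≤ Real.log β := by linarith
  have t5 : (5 / η) ^ 2 ≤ t := by linarith
  have t6 : 128 / (η * ε) ≤ t := by linarith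
  have htpos : 0 < t := by linarith
  have hl1 := Real.log_two_lt_d9
  have hl2 := Real.log_two_gt_d9
  have hl0 : 0 < Real.log 2 := by linarith
  -- the number of steps
  set k := ⌊t / (2 * Real.log 2)⌋₊ with hk
  have hk1 : (k : ℝ) ≤ t / (2 * Real.log 2) := Nat.floor_le (by positivity)
  have hk1' : (k : ℝ) * Real.log 2 ≤ t / 2 := by
    rw [le_div_iff₀ (by positivity)] at hk1; linarith
  have hk2 : t / (2 * Real.log 2) - 1 ≤ k := by linarith [Nat.lt_floor_add_one (t / (2 * Real.log 2))]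
  have hk2' : t / 2 - Real.log 2 ≤ k * Real.log 2 := by
    have e : t / (2 * Real.log 2) * Real.log 2 = t / 2 := by field_simp
    nlinarith
  have hkk0 : k0 ≤ k := by
    have h1 : (k0 : ℝ) ≤ t / (2 * Real.log 2) := by
      rw [le_div_iff₀ (by positivity)]
      nlinarith [(Nat.cast_nonneg k0 : (0 : ℝ) ≤ k0)]
    exact Nat.le_floor h1
  -- sizes
  have h3m1 : (3 : ℝ) ^ m ≤ Real.exp (0.05 * t) := pow_m_le t1 hm
  have h3m2 : (3 : ℝ) ^ m ≤ Real.exp (η * t / 4) := by
    have h2 : (3 : ℝ) ^ m = Real.exp (Real.log 3 * m) := by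
      rw [mul_comm (Real.log 3), Real.exp_nat_mul, Real.exp_log (by norm_num)]
    rw [h2]
    apply Real.exp_le_exp.2
    have h3 := log3_le
    have h5 : Real.log 3 ≤ 1.2 := by linarith
    set r := Real.sqrt t with hr
    have hrsq : r ^ 2 = t := Real.sq_sqrt htpos.le
    have hmr : (m : ℝ) ≤ r := Real.le_sqrt_of_sq_le hm
    have hr5 : 5 / η ≤ r := Real.le_sqrt_of_sq_le t5
    rw [div_le_iff₀ hη] at hr5
    have h7 : 0 ≤ (m : ℝ) := Nat.cast_nonneg m
    have h8 : Real.log 3 * m ≤ 1.2 * r := by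
      have : 0 ≤ Real.log 3 := by linarith [log3_ge]
      nlinarith
    have h9 : η * t / 4 = (r * η) * r / 4 := by rw [← hrsq]; ring
    rw [h9]
    have hr0 : 0 ≤ r := Real.sqrt_nonneg _
    nlinarith
  have h3m0 : (1 : ℝ) ≤ 3 ^ m := one_le_pow₀ (by norm_num)
  set Y := A / (2 * 3 ^ m) with hY
  have hY0 : 0 < Y := by positivity
  have hYbig : Real.exp (0.95 * t) ≤ 2 * Y := by
    have e : 2 * Y = A / 3 ^ m := by rw [hY]; field_simp
    rw [e, le_div_iff₀ (by positivity), ← hexpA]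
    calc Real.exp (0.95 * t) * 3 ^ m ≤ Real.exp (0.95 * t) * Real.exp (0.05 * t) :=
          mul_le_mul_of_nonneg_left h3m1 (Real.exp_pos _).le
      _ = Real.exp t := by rw [← Real.exp_add]; congr 1; ring
  have h2k : (2 : ℝ) ^ k ≤ 2 * Y := by
    have h2 : (2 : ℝ) ^ k = Real.exp (k * Real.log 2) := by
      rw [Real.exp_nat_mul, Real.exp_log (by norm_num)]
    rw [h2]
    refine le_trans (Real.exp_le_exp.2 ?_) hYbig
    linarith
  have hβbig : 64 / ε ≤ β := by
    have h1 : Real.log β ≤ β := by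
      have := Real.add_one_le_exp (Real.log β)
      rw [hexpβ] at this
      linarith
    linarith
  have hτ1 : τ ≤ ε / 16 := by
    rw [div_le_iff₀ hε] at hβbig
    by_contra hcon
    push Not at hcon
    have h1 : ε / 16 * β < τ * β := mul_lt_mul_of_pos_right hcon hβ0
    have h2 : ε / 16 * β = β * ε / 16 := by ring
    linarith
  -- the shift
  set y := τ * Y with hy
  have hy0 : 0 ≤ y := by positivity
  set h' := ⌊y⌋₊ with hh'
  have hh1 : (h' : ℝ) ≤ y := Nat.floor_le hy0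
  have hh2 : y - 1 ≤ h' := by linarith [Nat.lt_floor_add_one y]
  have hyY : (h' : ℝ) ≤ ε / 16 * Y := hh1.trans (mul_le_mul_of_nonneg_right hτ1 hY0.le)
  have hone : 1 ≤ ε / 16 * Y := by
    have h1 : 64 / ε ≤ t := t4.trans htβ
    have h2 : t ≤ Real.exp (0.95 * t) := by
      have h3 := Real.quadratic_le_exp_of_nonneg (x := 0.95 * t) (by positivity)
      nlinarith
    have h3 : 64 / ε ≤ 2 * Y := h1.trans (h2.trans hYbig)
    rw [div_le_iff₀ hε] at h3
    linarith
  -- the Lipschitz error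
  have hphase : β * (2 * 3 ^ m) / A ≤ ε / 16 := by
    have h1 : β * 3 ^ m / A ≤ Real.exp (-(η * t / 4)) := by
      have h2 : β ≤ Real.exp ((1 - η / 2) * t) := by
        rw [← hexpβ]; exact Real.exp_le_exp.2 hA2
      have h3 : β * 3 ^ m / A ≤ Real.exp ((1 - η / 2) * t) * Real.exp (η * t / 4) / Real.exp t := by
        rw [← hexpA]
        apply div_le_div_of_nonneg_right _ (Real.exp_pos _).le
        exact mul_le_mul h2 h3m2 (by positivity) (Real.exp_pos _).le
      refine h3.trans (le_of_eq ?_)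
      rw [← Real.exp_add, ← Real.exp_sub]
      congr 1
      ring
    have h4 := exp_neg_le_inv (x := η * t / 4) (by positivity)
    have h5 : 1 / (η * t / 4) ≤ ε / 32 := by
      rw [div_le_div_iff₀ (by positivity) (by norm_num)]
      rw [div_le_iff₀ (by positivity)] at t6
      nlinarith
    have h6 : β * (2 * 3 ^ m) / A = 2 * (β * 3 ^ m / A) := by ring
    rw [h6]; linarith
  set g : ℤ → ℝ := fun x => G ((x : ℝ) / A) with hg
  set g' : ℤ → ℝ := fun x => G ((x : ℝ) / A + τ) with hg'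
  have key := cancel2 hdm hdd hf (g := g) (fun x => hG _) (by linarith : A ≤ 2 * A) m hu v k h'
  have key2 : |WS (fun x => f x * g (x + 2 * 3 ^ m * h')) A (2 * A) m u v - WS (fun x => f x * g' x) A (2 * A) m u v|
      ≤ ε / 16 * (Y + 1) := by
    unfold WS
    rw [← sum_sub_distrib]
    refine (abs_sum_le_sum_abs _ _).trans ?_
    have hb : ∀ x : ℤ, |f x * g (x + 2 * 3 ^ m * h') - f x * g' x| ≤ ε / 16 := by
      intro x
      rw [← mul_sub, abs_mul]
      have a1 := hf.1 x
      have a2 : |g (x + 2 * 3 ^ m * h') - g' x| ≤ ε / 16 := by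
        rw [hg, hg']
        refine (hLip _ _).trans ?_
        have e3 : (((x + 2 * 3 ^ m * h' : ℤ) : ℝ) / A - ((x : ℝ) / A + τ)) = (2 * 3 ^ m) / A * (h' - y) := by
          rw [hy, hY]; push_cast; field_simp; ring
        rw [e3, abs_mul, abs_of_nonneg (by positivity : 0 ≤ (2 * 3 ^ m) / A)]
        have h7 : |(h' : ℝ) - y| ≤ 1 := by
          rw [abs_le]; constructor <;> linarith
        calc β * ((2 * 3 ^ m) / A * |(h' : ℝ) - y|) ≤ β * ((2 * 3 ^ m) / A * 1) := by
              apply mul_le_mul_of_nonneg_left _ hβ0.le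
              exact mul_le_mul_of_nonneg_left h7 (by positivity)
          _ = β * (2 * 3 ^ m) / A := by ring
          _ ≤ _ := hphase
      nlinarith [abs_nonneg (f x), abs_nonneg (g (x + 2 * 3 ^ m * h') - g' x)]
    refine (sum_le_sum fun x _ => hb x).trans ?_
    rw [sum_const, nsmul_eq_mul, mul_comm]
    apply mul_le_mul_of_nonneg_left _ (by positivity)
    have := cls_card_le Set.univ (by linarith : A ≤ 2 * A) m hu v
    rw [show 2 * A - A = A by ring] at this
    exact this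
  have eW : WS (fun x => f x * ((fun u => (G u - G (u + τ)) / 2) (x / A))) A (2 * A) m u v
      = (WS (fun x => f x * g x) A (2 * A) m u v - WS (fun x => f x * g' x) A (2 * A) m u v) / 2 := by
    unfold WS
    rw [← sum_sub_distrib, sum_div]
    apply sum_congr rfl
    intro x _
    rw [hg, hg']
    ring
  rw [eW, abs_div, abs_of_pos (by norm_num : (0 : ℝ) < 2), div_le_iff₀ (by norm_num)]
  have htri := abs_sub_le (WS (fun x => f x * g x) A (2 * A) m u v)
    (WS (fun x => f x * g (x + 2 * 3 ^ m * h')) A (2 * A) m u v) (WS (fun x => f x * g' x) A (2 * A) m u v)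
  -- the coupling
  have hqq : q step (0, 0) k (0, -(d * (2 * 3 ^ m * h'))) ≤ ε / 32 := by
    apply hq k hkk0
    have hd1 : |(d : ℝ)| = 1 := by
      have : (d : ℝ) * d = 1 := by exact_mod_cast hdd
      have h2 : |(d : ℝ)| * |(d : ℝ)| = 1 := by rw [← abs_mul, this, abs_one]
      nlinarith [abs_nonneg (d : ℝ)]
    push_cast
    rw [abs_neg, abs_mul, hd1, one_mul, abs_of_nonneg (by positivity)]
    have h1 : 2 * 3 ^ m * (h' : ℝ) ≤ 4 * Real.exp (η * t) := by
      calc 2 * 3 ^ m * (h' : ℝ) ≤ 2 * 3 ^ m * y := mul_le_mul_of_nonneg_left hh1 (by positivity)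
        _ = (τ * β) * (A / β) := by rw [hy, hY]; field_simp
        _ ≤ 4 * (A / β) := mul_le_mul_of_nonneg_right hτβ (by positivity)
        _ ≤ 4 * Real.exp (η * t) := by
            apply mul_le_mul_of_nonneg_left _ (by norm_num)
            rw [← hexpA, ← hexpβ, ← Real.exp_sub]
            apply Real.exp_le_exp.2
            linarith
    refine h1.trans ?_
    have h2 : (2 : ℝ) ^ (θ * k) = Real.exp (θ * (k * Real.log 2)) := by
      rw [Real.rpow_def_of_pos (by norm_num)]
      congr 1; ring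
    rw [h2]
    have h3 : 4 ≤ Real.exp 2 := by
      have h5 := Real.quadratic_le_exp_of_nonneg (x := 2) (by norm_num)
      linarith
    calc 4 * Real.exp (η * t) ≤ Real.exp 2 * Real.exp (η * t) :=
          mul_le_mul_of_nonneg_right h3 (Real.exp_pos _).le
      _ = Real.exp (2 + η * t) := by rw [← Real.exp_add]
      _ ≤ Real.exp (θ * (k * Real.log 2)) := by
          apply Real.exp_le_exp.2
          have h6 : θ * (t / 2 - Real.log 2) ≤ θ * (k * Real.log 2) := mul_le_mul_of_nonneg_left hk2' hθ.le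
          have h7 : 8 + 4 * θ ≤ θ * t := by
            have : (8 / θ + 4) * θ = 8 + 4 * θ := by field_simp
            nlinarith
          have h8 : η * t ≤ θ / 4 * t := mul_le_mul_of_nonneg_right hηθ htpos.le
          nlinarith
  have e4 : (2 * A - A) / 3 ^ m = 2 * Y := by rw [hY]; field_simp; ring
  rw [e4] at key
  have h9 : q step (0, 0) k (0, -(d * (2 * 3 ^ m * h'))) * (2 * Y + 2 ^ k) ≤ ε / 32 * (4 * Y) :=
    mul_le_mul hqq (by linarith) (by positivity) (by positivity)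
  have h10 : ε / 16 * (Y + 1) ≤ ε / 16 * (2 * Y) := by
    apply mul_le_mul_of_nonneg_left _ (by positivity)
    have : ε / 16 * Y ≤ 1 * Y := mul_le_mul_of_nonneg_right (by linarith) hY0.le
    linarith
  have hεY : 0 ≤ ε * Y := by positivity
  linarith

/-- ODD WINDOWS: differences of Lipschitz functions. -/
theorem oddL {d : ℤ} (hd : Odd d) (hd3 : IsCoprime d 3) (hdd : d * d = 1) {ε : ℝ} (hε : 0 < ε) (hε1 : ε ≤ 1) :
    ∃ η1 : ℝ, 0 < η1 ∧ η1 ≤ 1 / 2 ∧ ∀ η : ℝ, 0 < η → η ≤ η1 → ∃ B0 : ℝ, 1 ≤ B0 ∧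
      ∀ β τ : ℝ, B0 ≤ β → 0 ≤ τ → τ * β ≤ 4 → ∀ G : ℝ → ℝ, (∀ u, |G u| ≤ 1) → (∀ u v, |G u - G v| ≤ β * |u - v|) →
      ∀ A : ℝ, 0 < A → Real.log β ≤ (1 - η / 2) * Real.log A →
      ∀ f ∈ SameT d, |WS (fun x => f x * ((G (x / A) - G (x / A + τ)) / 2)) A (2 * A) 0 1 0| ≤ ε * (A / 2) := by
  obtain ⟨η1, hη1, hη12, hbot⟩ := bottomL hd hdd (show 0 < ε / 2 by positivity) (by linarith)
  refine ⟨η1, hη1, hη12, fun η hη hηη => ?_⟩
  obtain ⟨T2, hT2, hb⟩ := hbot η hη hηη
  obtain ⟨K, L0, hK, hL0, htr⟩ := transfer hd hd3 hη (hηη.trans hη12)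
  refine ⟨Real.exp (max T2 (max L0 (2 * K / ε))), Real.one_le_exp ?_, ?_⟩
  · exact le_trans (by linarith) (le_max_left _ _)
  intro β τ hB hτ0 hτβ G hG hLip A hA hbA f hf
  have hb0 : 0 < β := lt_of_lt_of_le (Real.exp_pos _) hB
  have hlb : max T2 (max L0 (2 * K / ε)) ≤ Real.log β := by
    calc _ = Real.log (Real.exp (max T2 (max L0 (2 * K / ε)))) := (Real.log_exp _).symm
      _ ≤ _ := Real.log_le_log (Real.exp_pos _) hB
  have hl1 : T2 ≤ Real.log β := (le_max_left _ _).trans hlb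
  have hl2 : L0 ≤ Real.log β := (le_max_left _ _).trans ((le_max_right _ _).trans hlb)
  have hl3 : 2 * K / ε ≤ Real.log β := (le_max_right _ _).trans ((le_max_right _ _).trans hlb)
  have hβ1 : 1 ≤ β := by
    refine le_trans (Real.one_le_exp ?_) hB
    exact le_trans (by linarith) (le_max_left _ _)
  have hlpos : 0 < Real.log β := by linarith
  have hA0 : 0 < Real.log A := by
    by_contra hcon
    push Not at hcon
    have : η / 2 ≤ 1 / 4 := by linarith
    nlinarith
  have h := htr β hl2 hβ1 (SameT d) (sameT_closed hd)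
    (fun u => (G u - G (u + τ)) / 2) (fun u => by
      have a1 := hG u
      have a2 := hG (u + τ)
      have a3 := abs_sub (G u) (G (u + τ))
      rw [abs_div, abs_of_pos (by norm_num : (0 : ℝ) < 2), div_le_iff₀ (by norm_num)]
      linarith)
    (fun u v => by
      have a1 := hLip u v
      have a2 := hLip (u + τ) (v + τ)
      rw [add_sub_add_right_eq_sub] at a2
      have e : (G u - G (u + τ)) / 2 - (G v - G (v + τ)) / 2 = ((G u - G v) - (G (u + τ) - G (v + τ))) / 2 := by ring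
      rw [e, abs_div, abs_of_pos (by norm_num : (0 : ℝ) < 2), div_le_iff₀ (by norm_num)]
      have a3 := abs_sub (G u - G v) (G (u + τ) - G (v + τ))
      linarith)
    (ε / 2) (by positivity) (fun A hA h1 h2 m hm => hb β τ hb0 hτ0 hτβ G hG hLip hl1 A hA h1 h2 m hm) A hA hbA 0
    (by push_cast; rw [zero_pow (by norm_num)]; exact hA0.le) f hf 1 0 isCoprime_one_left
  refine h.trans ?_
  rw [pow_zero, mul_one]
  apply mul_le_mul_of_nonneg_right _ (by positivity)
  have : K / Real.log β ≤ ε / 2 := by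
    rw [div_le_iff₀ hlpos]
    rw [div_le_iff₀ hε] at hl3
    linarith
  linarith

end Pool.Agent.K6.H82.GU
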