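import Pool.Agent.K6.H82.GU.GU7
import Pool.Agent.W41.FU8

/-! Cancellation against differences of Lipschitz functions: intervals of integers. -/

set_option autoImplicit false

namespace Pool.Agent.K6.H82.GU

open Pool.Agent.H320R2.PD Pool.Agent.H499R2.ND Finset Pool.Agent.H499R2.CO Pool.Agent.W41 Pool.Agent.W41.FU

/-- from the integers to the reals -/
theorem extend {g : ℤ → ℝ} (hg : ∀ x, |g x| ≤ 1) {K : ℝ} (hK : 0 ≤ K) (h : ∀ x, |g (x + 1) - g x| ≤ K) :
    ∃ G : ℝ → ℝ, (∀ u, |G u| ≤ 1) ∧ (∀ u v, |G u - G v| ≤ K * |u - v|) ∧ ∀ x : ℤ, G x = g x := by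
  have h1 : ∀ (n : ℕ) (x : ℤ), |g (x + n) - g x| ≤ K * n := by
    intro n
    induction n with
    | zero => intro x; simp
    | succ n ih =>
      intro x
      have e : g (x + (n + 1 : ℕ)) - g x = (g (x + n + 1) - g (x + n)) + (g (x + n) - g x) := by
        push_cast
        rw [← add_assoc]; ring
      rw [e]
      refine (abs_add_le _ _).trans ?_
      have := h (x + n)
      have := ih x
      push_cast
      linarith
  have h2 : ∀ x y : ℤ, |g x - g y| ≤ K * |(x : ℝ) - y| := by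
    intro x y
    rcases le_total x y with hxy | hxy
    · obtain ⟨n, hn⟩ := Int.eq_ofNat_of_zero_le (sub_nonneg.2 hxy)
      have e : y = x + n := by linarith
      rw [e, abs_sub_comm]
      refine (h1 n x).trans (le_of_eq ?_)
      push_cast
      rw [show (x : ℝ) - (x + n) = -n by ring, abs_neg, abs_of_nonneg (Nat.cast_nonneg n)]
    · obtain ⟨n, hn⟩ := Int.eq_ofNat_of_zero_le (sub_nonneg.2 hxy)
      have e : x = y + n := by linarith
      rw [e]
      refine (h1 n y).trans (le_of_eq ?_)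
      push_cast
      rw [show (y : ℝ) + n - y = n by ring, abs_of_nonneg (Nat.cast_nonneg n)]
  have h3 : LipschitzOnWith (Real.toNNReal K) (fun t : ℝ => g ⌊t⌋) (Set.range (fun x : ℤ => (x : ℝ))) := by
    apply LipschitzOnWith.of_dist_le_mul
    rintro _ ⟨x, rfl⟩ _ ⟨y, rfl⟩
    simp only [Int.floor_intCast]
    rw [Real.dist_eq, Real.dist_eq, Real.coe_toNNReal K hK]
    exact h2 x y
  obtain ⟨G, hG1, hG2⟩ := h3.extend_real
  have hcl : ∀ a b : ℝ, |max (-1) (min 1 a) - max (-1) (min 1 b)| ≤ |a - b| := by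
    intro a b
    refine (abs_max_sub_max_le_max _ _ _ _).trans ?_
    rw [sub_self, abs_zero]
    apply max_le (abs_nonneg _)
    refine (abs_min_sub_min_le_max _ _ _ _).trans ?_
    rw [sub_self, abs_zero]
    exact max_le (abs_nonneg _) le_rfl
  refine ⟨fun u => max (-1) (min 1 (G u)), fun u => ?_, fun u v => ?_, fun x => ?_⟩
  · rw [abs_le]
    exact ⟨le_max_left _ _, max_le (by norm_num) (min_le_left _ _)⟩
  · refine (hcl _ _).trans ?_
    have := hG1.dist_le_mul u v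
    rwa [Real.dist_eq, Real.dist_eq, Real.coe_toNNReal K hK] at this
  · have e : g ⌊(x : ℝ)⌋ = G x := hG2 ⟨x, rfl⟩
    rw [Int.floor_intCast] at e
    simp only
    rw [← e]
    have := abs_le.1 (hg x)
    rw [min_eq_right this.2, max_eq_right this.1]

/-- MIDDLE RANGE of scales. -/
theorem midL {d : ℤ} (hd : Odd d) (hd3 : IsCoprime d 3) (hdd : d * d = 1) {ε : ℝ} (hε : 0 < ε) (hε1 : ε ≤ 1) :
    ∃ η1 : ℝ, 0 < η1 ∧ η1 ≤ 1 / 2 ∧ ∀ η : ℝ, 0 < η → η ≤ η1 → ∃ K : ℝ, 1 ≤ K ∧ ∃ N0 : ℕ, 1 ≤ N0 ∧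
      ∀ N : ℕ, N0 ≤ N → ∀ H : ℕ, 1 ≤ H → K * H ≤ N → (N : ℝ) ^ η ≤ H →
      ∀ g : ℝ → ℝ, (∀ u, |g u| ≤ 1) → (∀ u v, |g u - g v| ≤ 2 / H * |u - v|) → ∀ f ∈ SameT d,
      |∑ n ∈ Icc 1 N, f (n : ℕ) * ((g (n : ℕ) - g ((n : ℕ) + H)) / 2)| ≤ ε * N := by
  obtain ⟨η1, hη1, hη12, hodd⟩ := oddL hd hd3 hdd (show 0 < ε / 8 by positivity) (by linarith)
  refine ⟨η1, hη1, hη12, fun η hη hηη => ?_⟩
  obtain ⟨B0, hB0, hb⟩ := hodd η hη hηη
  obtain ⟨J, hJ⟩ := exists_pow_lt_of_lt_one (show 0 < ε / 16 by positivity) (show (1 / 2 : ℝ) < 1 by norm_num)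
  -- N large
  set c0 : ℝ := 2 * (Real.log 4 + 2 * J * Real.log 2) / η with hc0
  refine ⟨B0 * 2 ^ J, ?_, ⌈Real.exp c0⌉₊ + ⌈8 * (J : ℝ) / ε⌉₊ + 1, by omega, ?_⟩
  · exact one_le_mul_of_one_le_of_one_le hB0 (one_le_pow₀ (by norm_num))
  intro N hN H hH hKH hHη g hg1' hgL f hf
  have hN1 : 1 ≤ N := by omega
  have hNR : (1 : ℝ) ≤ N := by exact_mod_cast hN1
  have hH0 : (0 : ℝ) < H := by exact_mod_cast hH
  have hNe : Real.exp c0 ≤ N := by
    have h1 : ⌈Real.exp c0⌉₊ ≤ N := by omega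
    exact (Nat.le_ceil _).trans (by exact_mod_cast h1)
  have hNJ : 8 * (J : ℝ) / ε ≤ N := by
    have h1 : ⌈8 * (J : ℝ) / ε⌉₊ ≤ N := by omega
    exact (Nat.le_ceil _).trans (by exact_mod_cast h1)
  have hlogN : c0 ≤ Real.log N := by
    rw [← Real.log_exp c0]
    exact Real.log_le_log (Real.exp_pos _) hNe
  set M : ℝ := (N : ℝ) + 1 with hM
  have hM0 : 0 < M := by positivity
  set G : ℤ → ℝ := fun x => f x * ((g x - g (x + H)) / 2) with hG
  have hG1 : ∀ x, |G x| ≤ 1 := by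
    intro x
    rw [hG]
    simp only
    rw [abs_mul]
    have a1 := hf.1 x
    have a2 : |(g x - g (x + H)) / 2| ≤ 1 := by
      rw [abs_div, abs_of_pos (by norm_num : (0 : ℝ) < 2), div_le_iff₀ (by norm_num)]
      have b1 := hg1' x
      have b2 := hg1' (x + H)
      have b3 := abs_sub (g x) (g (x + H))
      linarith
    nlinarith [abs_nonneg (f x), abs_nonneg ((g x - g (x + H)) / 2)]
  have hTS : ∑ n ∈ Icc 1 N, f (n : ℕ) * ((g (n : ℕ) - g ((n : ℕ) + H)) / 2) = TS G M := by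
    unfold TS
    have hceil : ⌈M⌉ = (N : ℤ) + 1 := by
      rw [hM]
      have : ((N : ℝ) + 1) = (((N : ℤ) + 1 : ℤ) : ℝ) := by push_cast; ring
      rw [this, Int.ceil_intCast]
    rw [hceil]
    refine sum_bij' (fun (n : ℕ) _ => (n : ℤ)) (fun (x : ℤ) _ => x.toNat) ?_ ?_ ?_ ?_ ?_
    · intro n hn
      rw [mem_Icc] at hn
      rw [mem_Ico]
      omega
    · intro x hx
      rw [mem_Ico] at hx
      rw [mem_Icc]
      omega
    · intro n _; simp
    · intro x hx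
      rw [mem_Ico] at hx
      exact Int.toNat_of_nonneg (by omega)
    · intro n _
      rw [hG]
      simp
  rw [hTS]
  have h2J : (0 : ℝ) < 2 ^ J := by positivity
  have key := TS_bound hG1 hM0.le (show 0 ≤ ε / 8 by positivity) J (by
    intro e j he hj
    set A := M / 2 ^ (e + j + 1) with hA
    have hA0 : 0 < A := by positivity
    have h2e : (0 : ℝ) < 2 ^ e := by positivity
    set τ := (H : ℝ) / (2 ^ e * A) with hτdef
    set β := 2 / (H : ℝ) * (2 ^ e * A) with hβdef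
    have hfun : (fun x : ℤ => G (2 ^ e * x))
        = fun x : ℤ => (fun x => f (2 ^ e * x)) x * (((fun u => g (2 ^ e * A * u)) (x / A)
          - (fun u => g (2 ^ e * A * u)) (x / A + τ)) / 2) := by
      funext x
      rw [hG]
      simp only
      have e1 : 2 ^ e * A * ((x : ℝ) / A) = ((2 ^ e * x : ℤ) : ℝ) := by push_cast; field_simp
      have e2 : 2 ^ e * A * ((x : ℝ) / A + τ) = ((2 ^ e * x : ℤ) : ℝ) + H := by
        rw [mul_add, e1, hτdef]; field_simp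
      rw [e1, e2]
    rw [hfun]
    apply hb β τ _ (by positivity) _ _ (fun u => hg1' _) _ A hA0 _ _ (sameT_two hf e)
    · -- B0 ≤ β
      have e1 : β = 2 * M / (H * 2 ^ (j + 1)) := by
        rw [hβdef, hA, show e + j + 1 = e + (j + 1) by ring, pow_add 2 e (j + 1)]
        field_simp
      rw [e1, le_div_iff₀ (by positivity)]
      calc B0 * (H * 2 ^ (j + 1)) = 2 * (B0 * 2 ^ j * H) := by rw [pow_succ]; ring
        _ ≤ 2 * (B0 * 2 ^ J * H) := by
            apply mul_le_mul_of_nonneg_left _ (by norm_num)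
            apply mul_le_mul_of_nonneg_right _ hH0.le
            apply mul_le_mul_of_nonneg_left _ (by linarith)
            exact pow_le_pow_right₀ (by norm_num) hj.le
        _ ≤ 2 * N := by linarith
        _ ≤ 2 * M := by rw [hM]; linarith
    · rw [hτdef, hβdef]
      have : (H : ℝ) / (2 ^ e * A) * (2 / H * (2 ^ e * A)) = 2 := by field_simp
      rw [this]; norm_num
    · intro u v
      refine (hgL _ _).trans (le_of_eq ?_)
      rw [← mul_sub, abs_mul, abs_of_pos (by positivity : 0 < 2 ^ e * A), hβdef]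
      ring
    · -- size
      have hβ0 : 0 < β := by positivity
      have h1 : β ≤ 4 * (N : ℝ) ^ (1 - η) := by
        have e1 : β ≤ 2 / H * M := by
          rw [hβdef]
          apply mul_le_mul_of_nonneg_left _ (by positivity)
          rw [hA, show e + j + 1 = e + (j + 1) by ring, pow_add 2 e (j + 1)]
          have : 2 ^ e * (M / (2 ^ e * 2 ^ (j + 1))) = M / 2 ^ (j + 1) := by field_simp
          rw [this]
          exact div_le_self hM0.le (one_le_pow₀ (by norm_num))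
        have e2 : M ≤ 2 * N := by rw [hM]; linarith
        have e3 : 1 / (H : ℝ) ≤ (N : ℝ) ^ (-η) := by
          rw [Real.rpow_neg (by linarith), ← one_div]
          exact one_div_le_one_div_of_le (by positivity) hHη
        have e4 : (N : ℝ) ^ (-η) * N = (N : ℝ) ^ (1 - η) := by
          rw [show (1 - η) = -η + 1 by ring, Real.rpow_add (by linarith), Real.rpow_one]
        calc β ≤ 2 / H * M := e1
          _ = 2 * (1 / H) * M := by ring
          _ ≤ 2 * (N : ℝ) ^ (-η) * (2 * N) := by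
              apply mul_le_mul _ e2 (by linarith) (by positivity)
              linarith
          _ = 4 * ((N : ℝ) ^ (-η) * N) := by ring
          _ = _ := by rw [e4]
      have h2 : Real.log β ≤ Real.log 4 + (1 - η) * Real.log N := by
        rw [← Real.log_rpow (by linarith : (0 : ℝ) < N), ← Real.log_mul (by positivity) (by positivity)]
        exact Real.log_le_log (by positivity) h1
      have h3 : Real.log N - 2 * J * Real.log 2 ≤ Real.log A := by
        have e1 : (N : ℝ) / 2 ^ (2 * J) ≤ A := by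
          rw [hA]
          apply div_le_div₀ hM0.le (by linarith) (by positivity)
          exact pow_le_pow_right₀ (by norm_num) (by omega)
        have e2 : Real.log N - 2 * J * Real.log 2 = Real.log ((N : ℝ) / 2 ^ (2 * J)) := by
          rw [Real.log_div (by positivity) (by positivity), Real.log_pow]
          push_cast; ring
        rw [e2]
        exact Real.log_le_log (by positivity) e1
      have h4 : η * c0 = 2 * (Real.log 4 + 2 * J * Real.log 2) := by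
        rw [hc0]; field_simp
      have h5 : η * c0 ≤ η * Real.log N := mul_le_mul_of_nonneg_left hlogN hη.le
      have h6 : 0 ≤ (J : ℝ) * Real.log 2 := mul_nonneg (Nat.cast_nonneg _) (Real.log_nonneg (by norm_num))
      have h7 : η ≤ 1 / 2 := hηη.trans hη12
      have h8 : (1 - η / 2) * (Real.log N - 2 * J * Real.log 2) ≤ (1 - η / 2) * Real.log A :=
        mul_le_mul_of_nonneg_left h3 (by linarith)
      have h9 : 0 ≤ η / 2 * (2 * J * Real.log 2) := by positivity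
      linarith)
  refine key.trans ?_
  have h1 : 2 * M / 2 ^ J ≤ ε / 4 * N := by
    have e1 : (1 / 2 : ℝ) ^ J = 1 / 2 ^ J := by rw [one_div, inv_pow, one_div]
    rw [e1] at hJ
    have e2 : 2 * M / 2 ^ J = 2 * M * (1 / 2 ^ J) := by ring
    rw [e2]
    have e3 : M ≤ 2 * N := by rw [hM]; linarith
    calc 2 * M * (1 / 2 ^ J) ≤ 2 * (2 * N) * (ε / 16) :=
          mul_le_mul (by linarith) hJ.le (by positivity) (by positivity)
      _ = _ := by ring
  have h2 : (J : ℝ) ≤ ε / 8 * N := by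
    rw [div_le_iff₀ hε] at hNJ
    linarith
  have h3 : ε / 8 * M ≤ ε / 4 * N := by
    rw [hM]
    nlinarith
  linarith

/-- SMALL scales. -/
theorem largeL {d : ℤ} (hd : Odd d) (hdd : d * d = 1) {ε : ℝ} (hε : 0 < ε) (hε1 : ε ≤ 1) :
    ∃ η : ℝ, 0 < η ∧ η ≤ 1 / 2 ∧ ∃ N0 : ℕ, 1 ≤ N0 ∧ ∀ N : ℕ, N0 ≤ N → ∀ h : ℕ, (h : ℝ) ≤ (N : ℝ) ^ η →
      ∀ g : ℤ → ℝ, (∀ x, |g x| ≤ 1) → ∀ f ∈ SameT d,
      |∑ n ∈ Icc 1 N, f (n : ℕ) * ((g (n : ℕ) - g ((n : ℕ) + h)) / 2)| ≤ ε * N := by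
  classical
  have hdm : d % 2 = 1 := by obtain ⟨t, ht⟩ := hd; omega
  obtain ⟨θ, hθ, k0, hq⟩ := q_quant (show 0 < ε / 32 by positivity) (by linarith)
  obtain ⟨K, y0, hK, hy0, hs⟩ := surv_sum
  have hl1 := Real.log_two_lt_d9
  have hl2 := Real.log_two_gt_d9
  have hl0 : 0 < Real.log 2 := by linarith
  refine ⟨min (1 / 2) (θ / 4), by positivity, min_le_left _ _, ?_⟩
  set η := min (1 / 2) (θ / 4) with hη
  have hη0 : 0 < η := by positivity
  have hη2 : η ≤ 1 / 2 := min_le_left _ _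
  have hηθ : η ≤ θ / 4 := min_le_right _ _
  refine ⟨⌈Real.exp (2 * ((k0 : ℝ) + 1) + 8)⌉₊ + (y0 ^ K) ^ 2 + ⌈(16 / ε) ^ 2⌉₊ + 1, by omega, ?_⟩
  intro N hN h hhN g hg f hf
  have hN1 : 1 ≤ N := by omega
  have hNR : (1 : ℝ) ≤ N := by exact_mod_cast hN1
  have hN2 : Real.exp (2 * ((k0 : ℝ) + 1) + 8) ≤ N := by
    have h1 : ⌈Real.exp (2 * ((k0 : ℝ) + 1) + 8)⌉₊ ≤ N := by omega
    exact (Nat.le_ceil _).trans (by exact_mod_cast h1)
  have hN3 : (y0 ^ K) ^ 2 ≤ N := by omega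
  have hN4 : (16 / ε) ^ 2 ≤ (N : ℝ) := by
    have h1 : ⌈(16 / ε) ^ 2⌉₊ ≤ N := by omega
    exact (Nat.le_ceil _).trans (by exact_mod_cast h1)
  set t := Real.log N with ht
  have hexp : Real.exp t = N := Real.exp_log (by linarith)
  have htk : 2 * ((k0 : ℝ) + 1) + 8 ≤ t := by
    rw [← Real.log_exp (2 * ((k0 : ℝ) + 1) + 8)]
    exact Real.log_le_log (Real.exp_pos _) hN2
  have hk00 : (0 : ℝ) ≤ k0 := Nat.cast_nonneg _
  have htpos : 0 < t := by linarith
  set k := ⌊t / (2 * Real.log 2)⌋₊ with hk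
  have hk1 : (k : ℝ) ≤ t / (2 * Real.log 2) := Nat.floor_le (by positivity)
  have hk1' : (k : ℝ) * Real.log 2 ≤ t / 2 := by
    rw [le_div_iff₀ (by positivity)] at hk1; linarith
  have hk2 : t / (2 * Real.log 2) - 1 ≤ k := by linarith [Nat.lt_floor_add_one (t / (2 * Real.log 2))]
  have hk2' : t / 2 - Real.log 2 ≤ k * Real.log 2 := by
    have e : t / (2 * Real.log 2) * Real.log 2 = t / 2 := by field_simp
    nlinarith
  have hkk0 : k0 ≤ k := by
    have h1 : (k0 : ℝ) ≤ t / (2 * Real.log 2) := by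
      rw [le_div_iff₀ (by positivity)]
      nlinarith
    exact Nat.le_floor h1
  have h2k : ((2 : ℝ) ^ k) ^ 2 ≤ N := by
    have h2 : (2 : ℝ) ^ k = Real.exp (k * Real.log 2) := by
      rw [Real.exp_nat_mul, Real.exp_log (by norm_num)]
    rw [h2, ← Real.exp_nat_mul, ← hexp]
    apply Real.exp_le_exp.2
    push_cast
    linarith
  have hcond : 2 ^ k * y0 ^ K ≤ N := by
    have h1 : (2 ^ k) ^ 2 ≤ N := by exact_mod_cast h2k
    by_contra hcon
    push Not at hcon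
    have h3 : N * N < (2 ^ k * y0 ^ K) * (2 ^ k * y0 ^ K) := Nat.mul_lt_mul'' hcon hcon
    have h4 : (2 ^ k * y0 ^ K) * (2 ^ k * y0 ^ K) = (2 ^ k) ^ 2 * (y0 ^ K) ^ 2 := by ring
    rw [h4] at h3
    have h5 := Nat.mul_le_mul h1 hN3
    omega
  have hhs : (N : ℝ) ^ η ≤ ε / 16 * N := by
    have h1 : (N : ℝ) ^ η ≤ (N : ℝ) ^ (1 / 2 : ℝ) := Real.rpow_le_rpow_of_exponent_le hNR hη2
    have h2 : (N : ℝ) ^ (1 / 2 : ℝ) = Real.sqrt N := (Real.sqrt_eq_rpow N).symm
    rw [h2] at h1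
    have h3 : 16 / ε ≤ Real.sqrt N := Real.le_sqrt_of_sq_le hN4
    have h4 : Real.sqrt N * Real.sqrt N = N := Real.mul_self_sqrt (by linarith)
    rw [div_le_iff₀ hε] at h3
    have h5 : 0 ≤ Real.sqrt N := Real.sqrt_nonneg _
    nlinarith
  have hqq : q step (0, 0) k (0, -(d * (h : ℤ))) ≤ ε / 32 := by
    apply hq k hkk0
    have hd1 : |(d : ℝ)| = 1 := by
      have : (d : ℝ) * d = 1 := by exact_mod_cast hdd
      have h2 : |(d : ℝ)| * |(d : ℝ)| = 1 := by rw [← abs_mul, this, abs_one]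
      nlinarith [abs_nonneg (d : ℝ)]
    push_cast
    rw [abs_neg, abs_mul, hd1, one_mul, abs_of_nonneg (by positivity)]
    refine hhN.trans ?_
    have h2 : (2 : ℝ) ^ (θ * k) = Real.exp (θ * (k * Real.log 2)) := by
      rw [Real.rpow_def_of_pos (by norm_num)]
      congr 1; ring
    rw [h2, Real.rpow_def_of_pos (by linarith), ← ht]
    apply Real.exp_le_exp.2
    have h6 : θ * (t / 2 - Real.log 2) ≤ θ * (k * Real.log 2) := mul_le_mul_of_nonneg_left hk2' hθ.le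
    have h8 : t * η ≤ t * (θ / 4) := mul_le_mul_of_nonneg_left hηθ htpos.le
    nlinarith
  -- the comparison
  have hsurv := hs y0 le_rfl k N hcond ∅ (by simp) 0 1 (by simp) d hdm 0 1 (by norm_num) (0, -(d * (h : ℤ)))
  have hV : Pool.Agent.W41.V ∅ = 1 := by unfold Pool.Agent.W41.V; simp
  have s1 : |∑ n ∈ Icc 1 N, f (n : ℕ) * g (n : ℕ) - ∑ n ∈ Icc 1 N, f ((n : ℕ) - (h : ℕ)) * g (n : ℕ)| ≤ ε / 2 * N := by
    rw [← sum_sub_distrib]
    refine (abs_sum_le_sum_abs _ _).trans ?_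
    have hb : ∀ n ∈ Icc 1 N, |f (n : ℕ) * g (n : ℕ) - f ((n : ℕ) - (h : ℕ)) * g (n : ℕ)|
        ≤ 2 * (wt ∅ 0 1 (n : ℕ) * (if surv d k (0, -(d * (h : ℤ))) (0 + 1 * (n : ℕ)) then 1 else 0)) := by
      intro n _
      rw [← sub_mul, abs_mul]
      have hw : wt ∅ 0 1 (n : ℕ) = 1 := by unfold wt; simp
      rw [hw, one_mul, zero_add, one_mul]
      split_ifs with hsv
      · have a1 := hf.1 (n : ℕ)
        have a2 := hf.1 ((n : ℕ) - (h : ℕ))
        have a3 := abs_sub (f (n : ℕ)) (f ((n : ℕ) - (h : ℕ)))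
        have a4 := hg (n : ℕ)
        have a5 := abs_nonneg (g (n : ℕ))
        have a6 := abs_nonneg (f (n : ℕ) - f ((n : ℕ) - (h : ℕ)))
        nlinarith
      · obtain ⟨j, -, hj⟩ := coal hdm k 0 (-(d * (h : ℤ))) _ hsv
        have e : (3 : ℤ) ^ 0 * (n : ℕ) + d * (-(d * (h : ℤ))) = (n : ℕ) - (h : ℕ) := by
          have : d * (-(d * (h : ℤ))) = -(d * d) * h := by ring
          rw [this, hdd]; ring
        rw [e] at hj
        rw [hf.2 j _ _ hj, sub_self, abs_zero, zero_mul]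
        norm_num
    refine (sum_le_sum hb).trans ?_
    rw [← mul_sum]
    rw [hV] at hsurv
    have : 8 * (N : ℝ) * 1 * q step (0, 0) k (0, -(d * (h : ℤ))) ≤ 8 * N * 1 * (ε / 32) :=
      mul_le_mul_of_nonneg_left hqq (by positivity)
    linarith
  have s3 := transl (fun x : ℤ => ((f x * g (x + h) : ℝ) : ℂ)) (fun x => by
    rw [Complex.norm_real, Real.norm_eq_abs, abs_mul]
    have a1 := hf.1 x
    have a2 := hg (x + h)
    nlinarith [abs_nonneg (f x), abs_nonneg (g (x + h))]) N h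
  have s4 : |∑ n ∈ Icc 1 N, f (n : ℕ) * g ((n : ℕ) + h) - ∑ n ∈ Icc 1 N, f ((n : ℕ) - (h : ℕ)) * g (n : ℕ)| ≤ 2 * h := by
    rw [← Real.norm_eq_abs, ← Complex.norm_real]
    refine le_trans (le_of_eq ?_) s3
    congr 1
    push_cast
    congr 1
    apply sum_congr rfl
    intro n _
    simp
  have e1 : ∑ n ∈ Icc 1 N, f (n : ℕ) * ((g (n : ℕ) - g ((n : ℕ) + h)) / 2)
      = ((∑ n ∈ Icc 1 N, f (n : ℕ) * g (n : ℕ) - ∑ n ∈ Icc 1 N, f ((n : ℕ) - (h : ℕ)) * g (n : ℕ))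
        - (∑ n ∈ Icc 1 N, f (n : ℕ) * g ((n : ℕ) + h) - ∑ n ∈ Icc 1 N, f ((n : ℕ) - (h : ℕ)) * g (n : ℕ))) / 2 := by
    have : ∑ n ∈ Icc 1 N, f (n : ℕ) * ((g (n : ℕ) - g ((n : ℕ) + h)) / 2)
        = (∑ n ∈ Icc 1 N, f (n : ℕ) * g (n : ℕ) - ∑ n ∈ Icc 1 N, f (n : ℕ) * g ((n : ℕ) + h)) / 2 := by
      rw [← sum_sub_distrib, sum_div]
      apply sum_congr rfl
      intro n _
      ring
    rw [this]; ring
  rw [e1, abs_div, abs_of_pos (by norm_num : (0 : ℝ) < 2), div_le_iff₀ (by norm_num)]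
  refine (abs_sub _ _).trans ?_
  have hN0 : 0 ≤ ε * N := by positivity
  linarith

/-- ALL SCALES. -/
theorem allL {d : ℤ} (hd : Odd d) (hd3 : IsCoprime d 3) (hdd : d * d = 1) {ε : ℝ} (hε : 0 < ε) (hε1 : ε ≤ 1) :
    ∃ K : ℝ, 1 ≤ K ∧ ∃ N0 : ℕ, 1 ≤ N0 ∧
      ∀ N : ℕ, N0 ≤ N → ∀ H : ℕ, 1 ≤ H → K * H ≤ N →
      ∀ g : ℤ → ℝ, (∀ x, |g x| ≤ 1) → (∀ x, |g (x + 1) - g x| ≤ 2 / H) → ∀ f ∈ SameT d,
      |∑ n ∈ Icc 1 N, f (n : ℕ) * ((g (n : ℕ) - g ((n : ℕ) + H)) / 2)| ≤ ε * N := by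
  obtain ⟨η2, hη2, hη22, N2, hN2, h2⟩ := largeL hd hdd hε hε1
  obtain ⟨η1, hη1, hη11, h1⟩ := midL hd hd3 hdd hε hε1
  obtain ⟨C, hC, N1, hN1, h1'⟩ := h1 (min η1 η2) (lt_min hη1 hη2) (min_le_left _ _)
  refine ⟨C, hC, N1 + N2, by omega, ?_⟩
  intro N hN H hH hKH g hg hgL f hf
  have hNR : (1 : ℝ) ≤ N := by
    have : 1 ≤ N := by omega
    exact_mod_cast this
  rcases le_or_gt ((N : ℝ) ^ (min η1 η2)) H with hc | hc
  · obtain ⟨G, hG1, hG2, hG3⟩ := extend hg (by positivity : (0 : ℝ) ≤ 2 / H) hgL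
    have := h1' N (by omega) H hH hKH hc G hG1 hG2 f hf
    convert this using 4 with n hn
    rw [← hG3, ← hG3]
    push_cast
    rfl
  · apply h2 N (by omega) H _ g hg f hf
    refine hc.le.trans ?_
    exact Real.rpow_le_rpow_of_exponent_le hNR (min_le_right _ _)

end Pool.Agent.K6.H82.GU
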