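import Pool.Agent.K6.H82.GU.GU8
import Pool.Agent.K6.H82.GU.GU6

/-! Differences of local averages are small at all scales. -/

set_option autoImplicit false

namespace Pool.Agent.K6.H82.GU

open Finset Pool.Agent.W41.FU

/-- shorter intervals -/
theorem allL' {d : ℤ} (hd : Odd d) (hd3 : IsCoprime d 3) (hdd : d * d = 1) {ε : ℝ} (hε : 0 < ε) (hε1 : ε ≤ 1) :
    ∃ K : ℝ, 1 ≤ K ∧ ∃ N0 : ℕ, 1 ≤ N0 ∧
      ∀ N : ℕ, N0 ≤ N → ∀ H : ℕ, 1 ≤ H → K * H ≤ N → ∀ b : ℕ, b ≤ N →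
      ∀ g : ℤ → ℝ, (∀ x, |g x| ≤ 1) → (∀ x, |g (x + 1) - g x| ≤ 2 / H) → ∀ f ∈ SameT d,
      |∑ n ∈ Icc 1 b, f (n : ℕ) * ((g (n : ℕ) - g ((n : ℕ) + H)) / 2)| ≤ ε * N := by
  obtain ⟨K, hK, N0, hN0, h⟩ := allL hd hd3 hdd hε hε1
  obtain ⟨N1, hN1⟩ := exists_nat_ge (N0 / ε)
  refine ⟨K / ε, ?_, N1 + 1, by omega, fun N hN H hH hKH b hb g hg hgL f hf => ?_⟩
  · rw [le_div_iff₀ hε]; linarith
  have htriv : |∑ n ∈ Icc 1 b, f (n : ℕ) * ((g (n : ℕ) - g ((n : ℕ) + H)) / 2)| ≤ b := by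
    refine (abs_sum_le_sum_abs _ _).trans ?_
    calc ∑ n ∈ Icc 1 b, |f (n : ℕ) * ((g (n : ℕ) - g ((n : ℕ) + H)) / 2)| ≤ ∑ n ∈ Icc 1 b, (1 : ℝ) := by
          apply sum_le_sum
          intro n _
          rw [abs_mul]
          have a1 := hf.1 (n : ℕ)
          have a2 : |(g (n : ℕ) - g ((n : ℕ) + H)) / 2| ≤ 1 := by
            rw [abs_div, abs_of_pos (by norm_num : (0 : ℝ) < 2), div_le_iff₀ (by norm_num)]
            have b1 := hg (n : ℕ)
            have b2 := hg ((n : ℕ) + H)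
            have b3 := abs_sub (g (n : ℕ)) (g ((n : ℕ) + H))
            linarith
          nlinarith [abs_nonneg (f (n : ℕ)), abs_nonneg ((g (n : ℕ) - g ((n : ℕ) + H)) / 2)]
      _ = b := by simp
  have hN' : (N1 : ℝ) ≤ N := by exact_mod_cast (by omega : N1 ≤ N)
  rcases Nat.lt_or_ge b N0 with h1 | h1
  · refine htriv.trans ?_
    have h2 : (b : ℝ) ≤ N0 := by exact_mod_cast h1.le
    have h3 : (N0 : ℝ) / ε ≤ N := hN1.trans hN'
    rw [div_le_iff₀ hε] at h3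
    linarith
  rcases le_or_gt (K * H) b with h2 | h2
  · refine (h b h1 H hH h2 g hg hgL f hf).trans ?_
    apply mul_le_mul_of_nonneg_left _ hε.le
    exact_mod_cast hb
  · refine htriv.trans ?_
    rw [div_mul_eq_mul_div, div_le_iff₀ hε] at hKH
    linarith

variable {M : ℕ} [NeZero M]

/-- restriction to an interval, as a function modulo `M` -/
noncomputable def emb (M : ℕ) (φ : ℤ → ℝ) (a b : ℕ) (x : ZMod M) : ℝ :=
  if a < x.val ∧ x.val ≤ b then φ (x.val : ℕ) else 0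

theorem emb_abs {φ : ℤ → ℝ} (h : ∀ x, |φ x| ≤ 1) (a b : ℕ) (x : ZMod M) : |emb M φ a b x| ≤ 1 := by
  unfold emb
  split_ifs
  · exact h _
  · simp

theorem emb_sum (φ : ℤ → ℝ) {a b : ℕ} (hab : a ≤ b) (hb : b < M) (G : ZMod M → ℝ) :
    ∑ x : ZMod M, emb M φ a b x * G x = ∑ n ∈ Icc 1 b, φ (n : ℕ) * G (n : ℕ) - ∑ n ∈ Icc 1 a, φ (n : ℕ) * G (n : ℕ) := by
  have h1 : ∑ n ∈ Icc 1 b, φ (n : ℕ) * G (n : ℕ) - ∑ n ∈ Icc 1 a, φ (n : ℕ) * G (n : ℕ)
      = ∑ n ∈ Ioc a b, φ (n : ℕ) * G (n : ℕ) := by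
    have : Icc 1 b = Icc 1 a ∪ Ioc a b := by
      ext n; simp only [mem_union, mem_Icc, mem_Ioc]; omega
    rw [this, sum_union, add_sub_cancel_left]
    rw [Finset.disjoint_left]
    intro n hn hn'
    rw [mem_Icc] at hn
    rw [mem_Ioc] at hn'
    omega
  rw [h1]
  unfold emb
  have e1 : ∀ x : ZMod M, (if a < x.val ∧ x.val ≤ b then φ (x.val : ℕ) else 0) * G x
      = if a < x.val ∧ x.val ≤ b then φ (x.val : ℕ) * G x else 0 := by
    intro x; split_ifs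
    · rfl
    · rw [zero_mul]
  rw [sum_congr rfl (fun x _ => e1 x), ← sum_filter]
  refine sum_bij' (fun (x : ZMod M) _ => x.val) (fun (n : ℕ) _ => (n : ZMod M)) ?_ ?_ ?_ ?_ ?_
  · intro x hx
    rw [mem_filter] at hx
    rw [mem_Ioc]
    exact hx.2
  · intro n hn
    rw [mem_Ioc] at hn
    rw [mem_filter, ZMod.val_natCast_of_lt (by omega)]
    exact ⟨mem_univ _, hn⟩
  · intro x _
    exact ZMod.natCast_zmod_val x
  · intro n hn
    rw [mem_Ioc] at hn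
    exact ZMod.val_natCast_of_lt (by omega)
  · intro x _
    rw [ZMod.natCast_zmod_val x]

/-- difference of two adjacent local averages -/
noncomputable def DD (F : ZMod M → ℝ) (H : ℕ) (x : ZMod M) : ℝ :=
  (∑ j ∈ range H, (F (x + (j : ℕ)) - F (x + (j : ℕ) + (H : ℕ)))) / H

theorem DD_abs {F : ZMod M → ℝ} (hF : ∀ x, |F x| ≤ 1) {H : ℕ} (hH : 1 ≤ H) (x : ZMod M) : |DD F H x| ≤ 2 := by
  unfold DD
  have hH0 : (0 : ℝ) < H := by exact_mod_cast hH
  rw [abs_div, abs_of_pos hH0, div_le_iff₀ hH0]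
  refine (abs_sum_le_sum_abs _ _).trans ?_
  calc _ ≤ ∑ j ∈ range H, (2 : ℝ) := by
        apply sum_le_sum
        intro j _
        refine (abs_sub _ _).trans ?_
        have := hF (x + (j : ℕ))
        have := hF (x + (j : ℕ) + (H : ℕ))
        linarith
    _ = _ := by simp [mul_comm]

/-- duality -/
theorem DD_dual (F : ZMod M → ℝ) (H : ℕ) :
    ∑ x, DD F H x ^ 2 = ∑ y, F y * ((∑ j ∈ range H, DD F H (y - (j : ℕ))) / H
      - (∑ j ∈ range H, DD F H (y - (H : ℕ) - (j : ℕ))) / H) := by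
  have h1 : ∀ (G : ZMod M → ℝ) (c : ZMod M), ∑ y, G (y + c) = ∑ y, G y := by
    intro G c
    exact Fintype.sum_equiv (Equiv.addRight c) _ _ (fun y => rfl)
  have e1 : ∀ x, DD F H x ^ 2 = (∑ j ∈ range H, DD F H x * F (x + (j : ℕ))) / H
      - (∑ j ∈ range H, DD F H x * F (x + (j : ℕ) + (H : ℕ))) / H := by
    intro x
    rw [pow_two]
    conv_lhs => rw [show DD F H x * DD F H x = DD F H x * ((∑ j ∈ range H, (F (x + (j : ℕ)) - F (x + (j : ℕ) + (H : ℕ)))) / H) from rfl]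
    rw [← sub_div, ← sum_sub_distrib, mul_div_assoc', mul_sum]
    congr 1
    apply sum_congr rfl
    intro j _
    ring
  rw [sum_congr rfl (fun x _ => e1 x), sum_sub_distrib]
  have e2 : ∀ y, F y * ((∑ j ∈ range H, DD F H (y - (j : ℕ))) / H - (∑ j ∈ range H, DD F H (y - (H : ℕ) - (j : ℕ))) / H)
      = (∑ j ∈ range H, F y * DD F H (y - (j : ℕ))) / H - (∑ j ∈ range H, F y * DD F H (y - (H : ℕ) - (j : ℕ))) / H := by
    intro y
    rw [mul_sub, mul_div_assoc', mul_div_assoc', mul_sum, mul_sum]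
  rw [sum_congr rfl (fun x _ => e2 x), sum_sub_distrib]
  rw [← sum_div, ← sum_div, ← sum_div, ← sum_div, sum_comm]
  congr 2
  · rw [sum_comm (s := univ) (t := range H)]
    apply sum_congr rfl
    intro j _
    rw [← h1 (fun y => F y * DD F H (y - (j : ℕ))) (j : ℕ)]
    apply sum_congr rfl
    intro x _
    rw [add_sub_cancel_right, mul_comm]
  · rw [sum_comm, sum_comm (s := univ) (t := range H)]
    apply sum_congr rfl
    intro j _
    rw [← h1 (fun y => F y * DD F H (y - (H : ℕ) - (j : ℕ))) ((j : ℕ) + (H : ℕ) : ZMod M)]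
    apply sum_congr rfl
    intro x _
    have e3 : x + ((j : ZMod M) + (H : ZMod M)) - (H : ZMod M) - (j : ZMod M) = x := by ring
    rw [e3, mul_comm, add_assoc]

theorem tel_step (D : ZMod M → ℝ) (H : ℕ) (y : ZMod M) :
    ∑ j ∈ range H, D (y + 1 - (j : ℕ)) - ∑ j ∈ range H, D (y - (j : ℕ)) = D (y + 1) - D (y + 1 - (H : ℕ)) := by
  induction H with
  | zero => simp
  | succ H ih =>
    rw [sum_range_succ, sum_range_succ]
    push_cast
    have e : y + 1 - ((H : ZMod M) + 1) = y - (H : ZMod M) := by ring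
    rw [e]
    linarith

/-- THE DIFFERENCES OF ADJACENT LOCAL AVERAGES ARE SMALL AT ALL SCALES -/
theorem DD_small {d : ℤ} (hd : Odd d) (hd3 : IsCoprime d 3) (hdd : d * d = 1) {ε : ℝ} (hε : 0 < ε) (hε1 : ε ≤ 1) :
    ∃ K : ℝ, 1 ≤ K ∧ ∃ N0 : ℕ, 1 ≤ N0 ∧ ∀ N : ℕ, N0 ≤ N → ∀ (M : ℕ) [NeZero M], N < M → ∀ H : ℕ, 1 ≤ H →
      K * H ≤ N → ∀ φ ∈ SameT d, ∀ a b : ℕ, a ≤ b → b ≤ N → ∑ x : ZMod M, DD (emb M φ a b) H x ^ 2 ≤ ε * N := by
  obtain ⟨K, hK, N0, hN0, h⟩ := allL' hd hd3 hdd (show 0 < ε / 8 by positivity) (by linarith)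
  refine ⟨K, hK, N0, hN0, fun N hN M _ hM H hH hKH φ hφ a b hab hb => ?_⟩
  have hH0 : (0 : ℝ) < H := by exact_mod_cast hH
  set F := emb M φ a b with hF
  have hF1 : ∀ x, |F x| ≤ 1 := emb_abs hφ.1 a b
  set D := DD F H with hD
  have hD1 : ∀ x, |D x| ≤ 2 := DD_abs hF1 hH
  set G : ZMod M → ℝ := fun y => (∑ j ∈ range H, D (y - (j : ℕ))) / H with hG
  have hG1 : ∀ y, |G y| ≤ 2 := by
    intro y
    rw [hG]
    simp only
    rw [abs_div, abs_of_pos hH0, div_le_iff₀ hH0]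
    refine (abs_sum_le_sum_abs _ _).trans ?_
    calc _ ≤ ∑ j ∈ range H, (2 : ℝ) := sum_le_sum fun j _ => hD1 _
      _ = _ := by simp [mul_comm]
  have hG2 : ∀ y, |G (y + 1) - G y| ≤ 4 / H := by
    intro y
    rw [hG]
    simp only
    rw [← sub_div, tel_step, abs_div, abs_of_pos hH0]
    apply div_le_div_of_nonneg_right _ hH0.le
    have := abs_sub (D (y + 1)) (D (y + 1 - (H : ℕ)))
    have := hD1 (y + 1)
    have := hD1 (y + 1 - (H : ℕ))
    linarith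
  rw [DD_dual]
  set g : ℤ → ℝ := fun n => -G ((n - H : ℤ) : ZMod M) / 2 with hg
  have hg1 : ∀ x, |g x| ≤ 1 := by
    intro x
    rw [hg]
    simp only
    rw [abs_div, abs_neg, abs_of_pos (by norm_num : (0 : ℝ) < 2), div_le_iff₀ (by norm_num)]
    linarith [hG1 ((x - H : ℤ) : ZMod M)]
  have hg2 : ∀ x, |g (x + 1) - g x| ≤ 2 / H := by
    intro x
    rw [hg]
    simp only
    have e1 : ((x + 1 - H : ℤ) : ZMod M) = ((x - H : ℤ) : ZMod M) + 1 := by push_cast; ring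
    rw [e1]
    have e2 : -G (((x - H : ℤ) : ZMod M) + 1) / 2 - -G ((x - H : ℤ) : ZMod M) / 2
        = -(G (((x - H : ℤ) : ZMod M) + 1) - G ((x - H : ℤ) : ZMod M)) / 2 := by ring
    rw [e2, abs_div, abs_neg, abs_of_pos (by norm_num : (0 : ℝ) < 2), div_le_iff₀ (by norm_num)]
    refine (hG2 _).trans (le_of_eq ?_)
    ring
  have e3 : ∀ n : ℕ, φ (n : ℕ) * (G (n : ℕ) - G ((n : ℕ) - (H : ℕ)))
      = 4 * (φ (n : ℕ) * ((g (n : ℕ) - g ((n : ℕ) + H)) / 2)) := by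
    intro n
    rw [hg]
    simp only
    have e4 : (((n : ℤ) - H : ℤ) : ZMod M) = (n : ZMod M) - (H : ZMod M) := by push_cast; ring
    have e5 : (((n : ℤ) + H - H : ℤ) : ZMod M) = (n : ZMod M) := by push_cast; ring
    rw [e4, e5]
    ring
  have e6 : ∑ y, F y * ((∑ j ∈ range H, DD F H (y - (j : ℕ))) / H - (∑ j ∈ range H, DD F H (y - (H : ℕ) - (j : ℕ))) / H)
      = ∑ y, F y * (fun y => G y - G (y - (H : ℕ))) y := rfl
  rw [e6, hF, emb_sum φ hab (by omega)]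
  simp only [e3]
  rw [← mul_sum, ← mul_sum, ← mul_sub]
  have h1 := h N hN H hH hKH b hb g hg1 hg2 φ hφ
  have h2 := h N hN H hH hKH a (hab.trans hb) g hg1 hg2 φ hφ
  rw [abs_le] at h1 h2
  linarith

end Pool.Agent.K6.H82.GU
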